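import Mathlib

set_option autoImplicit false

namespace Pool.Agent.Lib.MP0febd9

noncomputable section

/-- `K₁` -/
def kK : ℝ := 10 ^ 17
/-- `Λ` -/
def kL : ℝ := 10 ^ 39
/-- `Λ'` -/
def kQ : ℝ := 10 ^ 50

lemma mul_sqrt_eq {c : ℝ} (hc : 0 ≤ c) (y : ℝ) : c * Real.sqrt y = Real.sqrt (c ^ 2 * y) := by
  rw [Real.sqrt_mul (sq_nonneg c), Real.sqrt_sq hc]

/-- bounds for the derivatives of `h = sqrt(1+|v|^2)` and `X = h^{-4}` in terms of `i = 1/h`. -/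
lemma h_bounds_i {i A B C β : ℝ} (hi0 : 0 < i) (hi1 : i ≤ 1) (hA : 0 ≤ A)
    (hB : B ^ 2 ≤ (1 - i ^ 2) * A) (hC : |C| ≤ β) :
    A * i ^ 3 - β ≤ A * i + C - B ^ 2 * i ∧
    |-4 * B * i ^ 5| ≤ 4 * Real.sqrt (A * i ^ 3) ∧
    |-4 * A * i ^ 6 - 4 * C * i ^ 5 + 24 * B ^ 2 * i ^ 6| ≤ 28 * (A * i ^ 3) + 4 * β := by
  have hβ : 0 ≤ β := le_trans (abs_nonneg C) hC
  have hBA : B ^ 2 ≤ A := by nlinarith [mul_nonneg (sq_nonneg i) hA]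
  have hC' := abs_le.1 hC
  refine ⟨?_, ?_, ?_⟩
  · have := mul_le_mul_of_nonneg_right hB hi0.le
    nlinarith [hC'.1]
  · have h0 : 0 ≤ A * i ^ 3 := by positivity
    have h4 : 4 * Real.sqrt (A * i ^ 3) = Real.sqrt (16 * (A * i ^ 3)) := by
      rw [mul_sqrt_eq (by norm_num)]; norm_num
    rw [h4]
    apply Real.abs_le_sqrt
    have e : (-4 * B * i ^ 5) ^ 2 = 16 * (B ^ 2 * (i ^ 3 * i ^ 7)) := by ring
    rw [e]
    have h7 : i ^ 7 ≤ 1 := pow_le_one₀ hi0.le hi1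
    have h3 : 0 ≤ i ^ 3 := by positivity
    have : i ^ 3 * i ^ 7 ≤ i ^ 3 := by nlinarith
    have h5 : B ^ 2 * (i ^ 3 * i ^ 7) ≤ A * i ^ 3 := by
      calc B ^ 2 * (i ^ 3 * i ^ 7) ≤ A * (i ^ 3 * i ^ 7) := by gcongr
        _ ≤ A * i ^ 3 := by gcongr
    linarith
  · have h3 : 0 ≤ i ^ 3 := by positivity
    have h31 : i ^ 3 ≤ 1 := pow_le_one₀ hi0.le hi1
    have h5 : i ^ 5 ≤ 1 := pow_le_one₀ hi0.le hi1
    have h50 : 0 ≤ i ^ 5 := by positivity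
    have h6 : i ^ 6 ≤ i ^ 3 := by
      have : i ^ 6 = i ^ 3 * i ^ 3 := by ring
      rw [this]; nlinarith
    have h60 : 0 ≤ i ^ 6 := by positivity
    have a1 : |-4 * A * i ^ 6| ≤ 4 * (A * i ^ 3) := by
      have : |-4 * A * i ^ 6| = 4 * (A * i ^ 6) := by
        rw [show -4 * A * i ^ 6 = -(4 * (A * i ^ 6)) by ring, abs_neg, abs_of_nonneg (by positivity)]
      rw [this]; gcongr
    have a2 : |4 * C * i ^ 5| ≤ 4 * β := by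
      rw [abs_mul, abs_mul, abs_of_nonneg h50, abs_of_pos (by norm_num : (0 : ℝ) < 4)]
      calc 4 * |C| * i ^ 5 ≤ 4 * |C| * 1 := by gcongr
        _ ≤ 4 * β := by linarith
    have a3 : |24 * B ^ 2 * i ^ 6| ≤ 24 * (A * i ^ 3) := by
      rw [abs_of_nonneg (by positivity)]
      calc 24 * B ^ 2 * i ^ 6 ≤ 24 * A * i ^ 3 := by gcongr
        _ = _ := by ring
    rw [abs_le] at *
    constructor <;> linarith [a1.1, a1.2, a2.1, a2.2, a3.1, a3.2]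

/-- Cauchy–Schwarz in dimension three -/
lemma cs3 (a b c x y z : ℝ) :
    (a * x + b * y + c * z) ^ 2 ≤ (a ^ 2 + b ^ 2 + c ^ 2) * (x ^ 2 + y ^ 2 + z ^ 2) := by
  nlinarith [sq_nonneg (a * y - b * x), sq_nonneg (a * z - c * x), sq_nonneg (b * z - c * y)]

lemma sum_abs_le_sqrt (x y z : ℝ) : |x| + |y| + |z| ≤ 2 * Real.sqrt (x ^ 2 + y ^ 2 + z ^ 2) := by
  have h4 : 2 * Real.sqrt (x ^ 2 + y ^ 2 + z ^ 2) = Real.sqrt (4 * (x ^ 2 + y ^ 2 + z ^ 2)) := by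
    rw [mul_sqrt_eq (by norm_num)]; norm_num
  rw [h4]
  apply Real.le_sqrt_of_sq_le
  nlinarith [sq_nonneg (|x| - |y|), sq_nonneg (|x| - |z|), sq_nonneg (|y| - |z|), sq_abs x, sq_abs y,
    sq_abs z]

/-- all bounds on the second jet of `h` and `X`. -/
lemma h_bounds {v0 v1 v2 w0 w1 w2 u0 u1 u2 : ℝ} {g h A β ω : ℝ}
    (hg : g = 1 + (v0 ^ 2 + v1 ^ 2 + v2 ^ 2)) (hh : h = Real.sqrt g)
    (hA : A = w0 ^ 2 + w1 ^ 2 + w2 ^ 2) (hβ : β = Real.sqrt (u0 ^ 2 + u1 ^ 2 + u2 ^ 2))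
    (hω : ω = Real.sqrt (A / h ^ 3)) {g1 g2 : ℝ}
    (hg1 : g1 = 2 * (v0 * w0 + v1 * w1 + v2 * w2))
    (hg2 : g2 = 2 * A + 2 * (v0 * u0 + v1 * u1 + v2 * u2)) :
    ω ^ 2 - β ≤ g2 / (2 * h) - g1 ^ 2 / (4 * h ^ 3) ∧
    (0 < 1 / g ^ 2 ∧ 1 / g ^ 2 ≤ 1) ∧
    |-2 * g1 / g ^ 3| ≤ 4 * ω ∧
    |-2 * g2 / g ^ 3 + 6 * g1 ^ 2 / g ^ 4| ≤ 28 * ω ^ 2 + 4 * β ∧
    1 / g ^ 2 * (|w0| + |w1| + |w2|) ≤ 2 * ω := by
  have hg_ge : 1 ≤ g := by rw [hg]; nlinarith [sq_nonneg v0, sq_nonneg v1, sq_nonneg v2]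
  have hh_ge : 1 ≤ h := by
    rw [hh]; exact Real.one_le_sqrt.2 hg_ge
  have hh2 : h ^ 2 = g := by rw [hh]; exact Real.sq_sqrt (by linarith)
  have hA0 : 0 ≤ A := by rw [hA]; positivity
  have hβ0 : 0 ≤ β := by rw [hβ]; exact Real.sqrt_nonneg _
  have hβ2 : β ^ 2 = u0 ^ 2 + u1 ^ 2 + u2 ^ 2 := by rw [hβ]; exact Real.sq_sqrt (by positivity)
  have hpos : 0 < h := by linarith
  obtain ⟨i, hi⟩ : ∃ i, i = 1 / h := ⟨_, rfl⟩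
  have hih : i * h = 1 := by rw [hi]; field_simp
  have hi0 : 0 < i := by rw [hi]; positivity
  have hi1 : i ≤ 1 := by rw [hi, div_le_one hpos]; exact hh_ge
  obtain ⟨b, hb⟩ : ∃ b, b = v0 * w0 + v1 * w1 + v2 * w2 := ⟨_, rfl⟩
  obtain ⟨c, hc⟩ : ∃ c, c = v0 * u0 + v1 * u1 + v2 * u2 := ⟨_, rfl⟩
  have hv : v0 ^ 2 + v1 ^ 2 + v2 ^ 2 = h ^ 2 - 1 := by rw [hh2, hg]; ring
  have hb2 : b ^ 2 ≤ (h ^ 2 - 1) * A := by
    rw [hb, hA, ← hv]; exact cs3 _ _ _ _ _ _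
  have hc2 : c ^ 2 ≤ (h ^ 2 - 1) * β ^ 2 := by
    rw [hc, hβ2, ← hv]; exact cs3 _ _ _ _ _ _
  have hB : (b * i) ^ 2 ≤ (1 - i ^ 2) * A := by
    have : (1 - i ^ 2) * A = i ^ 2 * ((h ^ 2 - 1) * A) := by
      have : i ^ 2 * h ^ 2 = 1 := by rw [← mul_pow, hih]; norm_num
      linear_combination (-A) * this
    rw [this, mul_pow, mul_comm]
    gcongr
  have hC : |c * i| ≤ β := by
    apply abs_le_of_sq_le_sq _ hβ0
    have h1 : (c * i) ^ 2 = i ^ 2 * c ^ 2 := by ring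
    have h2 : i ^ 2 * ((h ^ 2 - 1) * β ^ 2) = (1 - i ^ 2) * β ^ 2 := by
      have : i ^ 2 * h ^ 2 = 1 := by rw [← mul_pow, hih]; norm_num
      linear_combination (β ^ 2) * this
    calc (c * i) ^ 2 = i ^ 2 * c ^ 2 := h1
      _ ≤ i ^ 2 * ((h ^ 2 - 1) * β ^ 2) := by gcongr
      _ = (1 - i ^ 2) * β ^ 2 := h2
      _ ≤ β ^ 2 := by nlinarith [mul_nonneg (sq_nonneg i) (sq_nonneg β)]
  obtain ⟨k1, k2, k3⟩ := h_bounds_i hi0 hi1 hA0 hB hC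
  have hω2 : ω ^ 2 = A * i ^ 3 := by
    rw [hω, Real.sq_sqrt (by positivity), hi]; field_simp
  have hω0 : 0 ≤ ω := by rw [hω]; exact Real.sqrt_nonneg _
  have hωs : Real.sqrt (A * i ^ 3) = ω := by
    rw [← hω2, Real.sqrt_sq hω0]
  have hhi : h = 1 / i := by rw [hi]; field_simp
  have hgi : g = 1 / i ^ 2 := by rw [← hh2, hhi]; field_simp
  have hine : i ≠ 0 := hi0.ne'
  refine ⟨?_, ⟨by positivity, ?_⟩, ?_, ?_, ?_⟩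
  · rw [hω2]
    refine le_trans k1 (le_of_eq ?_)
    rw [hg1, hg2, ← hb, ← hc, hhi]
    field_simp
    ring
  · rw [div_le_one (by positivity)]
    exact one_le_pow₀ hg_ge
  · rw [← hωs]
    refine le_trans (le_of_eq ?_) k2
    rw [hg1, ← hb, hgi]
    congr 1
    field_simp
    ring
  · rw [hω2]
    refine le_trans (le_of_eq ?_) k3
    rw [hg1, hg2, ← hb, ← hc, hgi]
    congr 1
    field_simp
    ring
  · have hs := sum_abs_le_sqrt w0 w1 w2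
    rw [← hA] at hs
    have hX : 1 / g ^ 2 = i ^ 4 := by rw [hgi]; field_simp
    rw [hX]
    have h4 : i ^ 4 * Real.sqrt A ≤ ω := by
      rw [← hωs]
      apply Real.le_sqrt_of_sq_le
      rw [mul_pow, Real.sq_sqrt hA0]
      have h5 : i ^ 5 ≤ 1 := pow_le_one₀ hi0.le hi1
      have h3 : 0 ≤ i ^ 3 := by positivity
      calc (i ^ 4) ^ 2 * A = A * (i ^ 3 * i ^ 5) := by ring
        _ ≤ A * (i ^ 3 * 1) := by gcongr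
        _ = _ := by ring
    calc i ^ 4 * (|w0| + |w1| + |w2|) ≤ i ^ 4 * (2 * Real.sqrt A) := by gcongr
      _ = 2 * (i ^ 4 * Real.sqrt A) := by ring
      _ ≤ 2 * ω := by linarith

/-- the second derivative expression -/
def D2 (z ζ F F1 F2 X X1 X2 h2 t S N2 : ℝ) : ℝ :=
  (-2 * ζ ^ 2) * F * X + 2 * (-2 * z * ζ) * (F1 * X) + 2 * (-2 * z * ζ) * (F * X1)
    + (1 - z ^ 2) * (F2 * X + 2 * F1 * X1 + F * X2)
    + kK * h2 + kL * (2 * (t - ζ) ^ 2) + 3 / 1000 * (2 * S) + kQ * (2 * N2)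

lemma D2_ge {z ζ F F1 F2 X X1 X2 h2 t S N2 ω β Ξ f2 : ℝ} (hz : |z| ≤ 1)
    (hX0 : 0 ≤ X) (hX1 : X ≤ 1) (hF : |F| ≤ 130000) (hF1 : |F1| ≤ 2 * Ξ) (hf2 : 0 ≤ f2)
    (hF2 : -f2 ≤ F2)
    (hXX1 : |X1| ≤ 4 * ω) (hXX2 : |X2| ≤ 28 * ω ^ 2 + 4 * β) (hh2 : ω ^ 2 - β ≤ h2) :
    (-2 * ζ ^ 2) * F * X - 8 * |ζ| * Ξ - 16 * 130000 * |ζ| * ω - f2 - 16 * Ξ * ω
      - 130000 * (28 * ω ^ 2 + 4 * β) + kK * (ω ^ 2 - β) + kL * (2 * (t - ζ) ^ 2)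
      + 3 / 1000 * (2 * S) + kQ * (2 * N2) ≤ D2 z ζ F F1 F2 X X1 X2 h2 t S N2 := by
  have hΞ : 0 ≤ Ξ := by have := abs_nonneg F1; linarith
  have hz2 : z ^ 2 ≤ 1 := by
    have := sq_le_one_iff_abs_le_one z
    exact this.2 hz
  have ha0 : 0 ≤ 1 - z ^ 2 := by linarith
  have ha1 : 1 - z ^ 2 ≤ 1 := by nlinarith [sq_nonneg z]
  have t2 : |2 * (-2 * z * ζ) * (F1 * X)| ≤ 8 * |ζ| * Ξ := by
    have : |2 * (-2 * z * ζ) * (F1 * X)| = 4 * (|z| * (|ζ| * (|F1| * |X|))) := by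
      rw [abs_mul, abs_mul, abs_mul, abs_mul, abs_mul]; norm_num; ring
    rw [this, abs_of_nonneg hX0]
    calc 4 * (|z| * (|ζ| * (|F1| * X))) ≤ 4 * (1 * (|ζ| * (2 * Ξ * 1))) := by gcongr
      _ = _ := by ring
  have t3 : |2 * (-2 * z * ζ) * (F * X1)| ≤ 16 * 130000 * |ζ| * ω := by
    have : |2 * (-2 * z * ζ) * (F * X1)| = 4 * (|z| * (|ζ| * (|F| * |X1|))) := by
      rw [abs_mul, abs_mul, abs_mul, abs_mul, abs_mul]; norm_num; ring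
    rw [this]
    calc 4 * (|z| * (|ζ| * (|F| * |X1|))) ≤ 4 * (1 * (|ζ| * (130000 * (4 * ω)))) := by gcongr
      _ = _ := by ring
  have t4 : -f2 ≤ (1 - z ^ 2) * (F2 * X) := by
    have h1 : -f2 ≤ F2 * X := by
      rcases le_total 0 F2 with h | h
      · nlinarith [mul_nonneg h hX0]
      · nlinarith
    rcases le_total 0 (F2 * X) with h | h
    · nlinarith [mul_nonneg ha0 h]
    · nlinarith
  have t5 : |(1 - z ^ 2) * (2 * F1 * X1)| ≤ 16 * Ξ * ω := by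
    rw [abs_mul, abs_mul, abs_mul, abs_of_nonneg ha0]
    calc (1 - z ^ 2) * (|(2 : ℝ)| * |F1| * |X1|) ≤ 1 * (2 * (2 * Ξ) * (4 * ω)) := by
          rw [abs_of_pos (by norm_num : (0 : ℝ) < 2)]
          gcongr
      _ = _ := by ring
  have t6 : |(1 - z ^ 2) * (F * X2)| ≤ 130000 * (28 * ω ^ 2 + 4 * β) := by
    rw [abs_mul, abs_mul, abs_of_nonneg ha0]
    calc (1 - z ^ 2) * (|F| * |X2|) ≤ 1 * (130000 * (28 * ω ^ 2 + 4 * β)) := by gcongr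
      _ = _ := by ring
  have t7 : kK * (ω ^ 2 - β) ≤ kK * h2 := by
    have : 0 < kK := by unfold kK; positivity
    gcongr
  unfold D2
  rw [abs_le] at t2 t3 t5 t6
  have e : (1 - z ^ 2) * (F2 * X + 2 * F1 * X1 + F * X2) = (1 - z ^ 2) * (F2 * X)
    + (1 - z ^ 2) * (2 * F1 * X1) + (1 - z ^ 2) * (F * X2) := by ring
  rw [e]
  linarith [t2.1, t3.1, t5.1, t6.1]

/-- final quadratic inequality in case R -/
lemma quadR {Z D N ω : ℝ} (hZ : 0 ≤ Z) (hD : 0 ≤ D) (hN : 0 ≤ N) (hω : 0 ≤ ω) :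
    0 ≤ -4 * Z * (2 * ω + 3 * D + 5070 * N) - 8 * Z * (390 * N) - 16 * 130000 * Z * ω
      - 102000 * N ^ 2 - 16 * (390 * N) * ω - 130000 * (28 * ω ^ 2 + 4 * (780 * Z * N))
      + kK * (ω ^ 2 - 780 * Z * N) + kL * (2 * D ^ 2)
      + 3 / 1000 * (2 * (Z ^ 2 / 3 - D ^ 2 - 608400 * N ^ 2)) + kQ * (2 * N ^ 2) := by
  have h1 : 0 ≤ Z * D := mul_nonneg hZ hD
  have h2 : 0 ≤ Z * N := mul_nonneg hZ hN
  have h3 : 0 ≤ Z * ω := mul_nonneg hZ hω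
  have h4 : 0 ≤ N * ω := mul_nonneg hN hω
  unfold kK kL kQ
  nlinarith [sq_nonneg (Z - 4 * 10 ^ 9 * ω), sq_nonneg (Z - 10 ^ 5 * D),
    sq_nonneg (Z - 10 ^ 24 * N), sq_nonneg (N - ω), sq_nonneg Z, sq_nonneg D, sq_nonneg N,
    sq_nonneg ω]

/-- final quadratic inequality in case X -/
lemma quadX {Z D N ω ξ : ℝ} (hZ : 0 ≤ Z) (hD : 0 ≤ D) (hN : 0 ≤ N) (hω : 0 ≤ ω) (hξ : 0 ≤ ξ)
    (hZD : Z ≤ D + 910 * N) :
    0 ≤ -2 * 130000 * Z ^ 2 - 8 * Z * (ξ + 260 * N) - 16 * 130000 * Z * ω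
      - (1 / 400 * ξ ^ 2 + 520 * (N * ξ) + 34000 * N ^ 2) - 16 * (ξ + 260 * N) * ω
      - 130000 * (28 * ω ^ 2 + 4 * (2 * Z * (ξ + 260 * N)))
      + kK * (ω ^ 2 - 2 * Z * (ξ + 260 * N)) + kL * (2 * D ^ 2)
      + 3 / 1000 * (2 * ξ ^ 2) + kQ * (2 * N ^ 2) := by
  have h2 : 0 ≤ Z * N := mul_nonneg hZ hN
  have h3 : 0 ≤ Z * ω := mul_nonneg hZ hω
  have h4 : 0 ≤ N * ω := mul_nonneg hN hω
  have h5 : 0 ≤ Z * ξ := mul_nonneg hZ hξ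
  have h6 : 0 ≤ ξ * ω := mul_nonneg hξ hω
  have h7 : 0 ≤ N * ξ := mul_nonneg hN hξ
  have hZ2 : Z ^ 2 ≤ 2 * D ^ 2 + 1656200 * N ^ 2 := by
    nlinarith [sq_nonneg (D - 910 * N)]
  unfold kK kL kQ
  nlinarith [sq_nonneg (ξ - 10 ^ 21 * Z), sq_nonneg (ξ - 10 ^ 5 * ω),
    sq_nonneg (ξ - 10 ^ 6 * N), sq_nonneg (N - ω), sq_nonneg (Z - ω), sq_nonneg (Z - N),
    sq_nonneg Z, sq_nonneg D, sq_nonneg N, sq_nonneg ω]

end

end Pool.Agent.Lib.MP0febd9
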