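import Mathlib

set_option autoImplicit false

namespace Pool.Agent.Lib.MP0febd9

noncomputable section

/-- the ten directions -/
def d1 : Fin 10 → ℤ := ![1, 1, 2, 1, 1, 1, 1, 1, 1, 1]
/-- the ten directions -/
def d2 : Fin 10 → ℤ := ![0, 1, 1, 2, 3, 4, 5, 6, 7, 8]

/-- squared lengths -/
def nn (i : Fin 10) : ℤ := d1 i ^ 2 + d2 i ^ 2

lemma det_ne : ∀ i k : Fin 10, i ≠ k → d1 i * d2 k - d2 i * d1 k ≠ 0 := by decide

lemma nn_bound : ∀ i : Fin 10, 1 ≤ nn i ∧ nn i ≤ 65 := by decide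

lemma nn_pos (i : Fin 10) : (0 : ℝ) < (nn i : ℝ) := by
  have := (nn_bound i).1
  have h : (1 : ℝ) ≤ (nn i : ℝ) := by exact_mod_cast this
  linarith

abbrev Mat := Matrix (Fin 2) (Fin 10) ℝ

/-- component of column `i` along direction `i` -/
def pp (i : Fin 10) (F : Mat) : ℝ := (d1 i * F 0 i + d2 i * F 1 i) / nn i
/-- component of column `i` perpendicular to direction `i` -/
def pq (i : Fin 10) (F : Mat) : ℝ := (d1 i * F 1 i - d2 i * F 0 i) / nn i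

lemma pp_add_smul (i : Fin 10) (F A : Mat) (t : ℝ) : pp i (F + t • A) = pp i F + t * pp i A := by
  unfold pp
  simp only [Matrix.add_apply, Matrix.smul_apply, smul_eq_mul]
  ring

lemma pq_add_smul (i : Fin 10) (F A : Mat) (t : ℝ) : pq i (F + t • A) = pq i F + t * pq i A := by
  unfold pq
  simp only [Matrix.add_apply, Matrix.smul_apply, smul_eq_mul]
  ring

lemma bad_index (a : Fin 2 → ℝ) : ∃ i0 : Fin 10, ∀ i : Fin 10, i ≠ i0 →
    |(d1 i : ℝ) * a 0 + d2 i * a 1| ≤ 130 * |(d1 i : ℝ) * a 1 - d2 i * a 0| := by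
  by_contra hcon
  push Not at hcon
  obtain ⟨i, -, hi⟩ := hcon 0
  obtain ⟨k, hki, hk⟩ := hcon i
  have hdet := det_ne k i hki
  have hdet' : (1 : ℝ) ≤ ((d1 k : ℝ) * d2 i - d2 k * d1 i) ^ 2 := by
    have h1 : (1 : ℤ) ≤ (d1 k * d2 i - d2 k * d1 i) ^ 2 := by
      have := sq_nonneg (d1 k * d2 i - d2 k * d1 i)
      have h2 : (d1 k * d2 i - d2 k * d1 i) ^ 2 ≠ 0 := pow_ne_zero 2 hdet
      omega
    exact_mod_cast h1
  have hni : (d1 i : ℝ) ^ 2 + (d2 i : ℝ) ^ 2 ≤ 65 := by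
    have := (nn_bound i).2
    unfold nn at this
    exact_mod_cast this
  have hnk : (d1 k : ℝ) ^ 2 + (d2 k : ℝ) ^ 2 ≤ 65 := by
    have := (nn_bound k).2
    unfold nn at this
    exact_mod_cast this
  generalize (d1 i : ℝ) = p at *
  generalize (d2 i : ℝ) = q at *
  generalize (d1 k : ℝ) = r at *
  generalize (d2 k : ℝ) = s at *
  generalize a 0 = x at *
  generalize a 1 = y at *
  have e1 : 16900 * (p * y - q * x) ^ 2 < (p * x + q * y) ^ 2 := by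
    have h0 : 0 ≤ 130 * |p * y - q * x| := by positivity
    have := pow_lt_pow_left₀ hi h0 (n := 2) (by norm_num)
    rw [mul_pow, sq_abs, sq_abs] at this
    linarith
  have e2 : 16900 * (r * y - s * x) ^ 2 < (r * x + s * y) ^ 2 := by
    have h0 : 0 ≤ 130 * |r * y - s * x| := by positivity
    have := pow_lt_pow_left₀ hk h0 (n := 2) (by norm_num)
    rw [mul_pow, sq_abs, sq_abs] at this
    linarith
  have hn : 0 ≤ x ^ 2 + y ^ 2 := by positivity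
  have f1 : (p * y - q * x) ^ 2 + (p * x + q * y) ^ 2 = (p ^ 2 + q ^ 2) * (x ^ 2 + y ^ 2) := by ring
  have f2 : (r * y - s * x) ^ 2 + (r * x + s * y) ^ 2 = (r ^ 2 + s ^ 2) * (x ^ 2 + y ^ 2) := by ring
  have g1 : 16901 * (p * y - q * x) ^ 2 < 65 * (x ^ 2 + y ^ 2) := by
    have := mul_le_mul_of_nonneg_right hni hn
    linarith
  have g2 : 16901 * (r * y - s * x) ^ 2 < 65 * (x ^ 2 + y ^ 2) := by
    have := mul_le_mul_of_nonneg_right hnk hn
    linarith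
  have key : (r * q - s * p) ^ 2 * (x ^ 2 + y ^ 2) =
      ((p * y - q * x) * r - (r * y - s * x) * p) ^ 2
        + ((p * y - q * x) * s - (r * y - s * x) * q) ^ 2 := by ring
  have k1 : ((p * y - q * x) * r - (r * y - s * x) * p) ^ 2
        + ((p * y - q * x) * s - (r * y - s * x) * q) ^ 2 ≤
      2 * (p * y - q * x) ^ 2 * (r ^ 2 + s ^ 2) + 2 * (r * y - s * x) ^ 2 * (p ^ 2 + q ^ 2) := by
    nlinarith [sq_nonneg ((p * y - q * x) * r + (r * y - s * x) * p),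
      sq_nonneg ((p * y - q * x) * s + (r * y - s * x) * q)]
  have k2 : 2 * (p * y - q * x) ^ 2 * (r ^ 2 + s ^ 2) ≤ 2 * (p * y - q * x) ^ 2 * 65 := by
    gcongr
  have k3 : 2 * (r * y - s * x) ^ 2 * (p ^ 2 + q ^ 2) ≤ 2 * (r * y - s * x) ^ 2 * 65 := by
    gcongr
  have k4 : 1 * (x ^ 2 + y ^ 2) ≤ (r * q - s * p) ^ 2 * (x ^ 2 + y ^ 2) := by gcongr
  linarith

lemma pp_vecMulVec (i : Fin 10) (a : Fin 2 → ℝ) (b : Fin 10 → ℝ) :
    pp i (Matrix.vecMulVec a b) = b i * (((d1 i : ℝ) * a 0 + d2 i * a 1) / nn i) := by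
  unfold pp
  simp only [Matrix.vecMulVec_apply]
  ring

lemma pq_vecMulVec (i : Fin 10) (a : Fin 2 → ℝ) (b : Fin 10 → ℝ) :
    pq i (Matrix.vecMulVec a b) = b i * (((d1 i : ℝ) * a 1 - d2 i * a 0) / nn i) := by
  unfold pq
  simp only [Matrix.vecMulVec_apply]
  ring

lemma bad_index' (a : Fin 2 → ℝ) (b : Fin 10 → ℝ) : ∃ i0 : Fin 10, ∀ i : Fin 10, i ≠ i0 →
    |pp i (Matrix.vecMulVec a b)| ≤ 130 * |pq i (Matrix.vecMulVec a b)| := by
  obtain ⟨i0, h⟩ := bad_index a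
  refine ⟨i0, fun i hi => ?_⟩
  have h1 := h i hi
  have hn := nn_pos i
  rw [pp_vecMulVec, pq_vecMulVec, abs_mul, abs_mul, abs_div, abs_div, abs_of_pos hn]
  have : |(d1 i : ℝ) * a 0 + d2 i * a 1| / nn i ≤ 130 * |(d1 i : ℝ) * a 1 - d2 i * a 0| / nn i := by
    gcongr
  calc |b i| * (|(d1 i : ℝ) * a 0 + d2 i * a 1| / nn i)
      ≤ |b i| * (130 * |(d1 i : ℝ) * a 1 - d2 i * a 0| / nn i) := by gcongr
    _ = _ := by ring

/-- index of x-type potentials -/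
def ix : Fin 3 → Fin 10 := ![0, 1, 2]
/-- index of r-type potentials -/
def ir : Fin 7 → Fin 10 := ![3, 4, 5, 6, 7, 8, 9]

lemma ix_or_ir : ∀ i : Fin 10, (∃ j, i = ix j) ∨ (∃ k, i = ir k) := by decide
lemma ix_inj : ∀ i j : Fin 3, ix i = ix j → i = j := by decide
lemma ir_inj : ∀ i j : Fin 7, ir i = ir j → i = j := by decide
lemma ix_ne_ir : ∀ (i : Fin 3) (j : Fin 7), ix i ≠ ir j := by decide

/-- the seven vertices of the cube different from (1,1,1) -/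
def cc : Fin 7 → Fin 3 → ℕ :=
  ![![0, 0, 0], ![1, 0, 0], ![0, 1, 0], ![1, 1, 0], ![0, 0, 1], ![1, 0, 1], ![0, 1, 1]]

lemma cc_mem : ∀ (k : Fin 7) (j : Fin 3), cc k j = 0 ∨ cc k j = 1 := by decide
lemma cc_not_all : ∀ (k : Fin 7), cc k 0 = 0 ∨ cc k 1 = 0 ∨ cc k 2 = 0 := by decide

lemma sum_ten (f : Fin 10 → ℝ) : ∑ i, f i = (∑ j, f (ix j)) + ∑ k, f (ir k) := by
  simp only [Fin.sum_univ_succ, ix, ir]
  simp
  ring_nf

end

end Pool.Agent.Lib.MP0febd9
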