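import Pool.Agent.Lib.MP_0febd9_an.Scalar

set_option autoImplicit false

namespace Pool.Agent.Lib.MP0febd9

noncomputable section

/-- `f` has first derivative `f1` and second derivative `f2` everywhere. -/
structure J2 (f f1 f2 : ℝ → ℝ) : Prop where
  d1 : ∀ t, HasDerivAt f (f1 t) t
  d2 : ∀ t, HasDerivAt f1 (f2 t) t

lemma J2.congr {f f1 f2 g g1 g2 : ℝ → ℝ} (h : J2 f f1 f2) (h0 : ∀ t, g t = f t)
    (h1 : ∀ t, g1 t = f1 t) (h2 : ∀ t, g2 t = f2 t) : J2 g g1 g2 := by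
  have e0 : g = f := funext h0
  have e1 : g1 = f1 := funext h1
  have e2 : g2 = f2 := funext h2
  rw [e0, e1, e2]; exact h

lemma J2.const (c : ℝ) : J2 (fun _ => c) (fun _ => 0) (fun _ => 0) :=
  ⟨fun t => hasDerivAt_const t c, fun t => hasDerivAt_const t 0⟩

lemma J2.affine (x ξ : ℝ) : J2 (fun t => x + t * ξ) (fun _ => ξ) (fun _ => 0) := by
  refine ⟨fun t => ?_, fun t => hasDerivAt_const t ξ⟩
  have := ((hasDerivAt_id t).mul_const ξ).const_add x
  simpa using this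

lemma J2.add {f f1 f2 g g1 g2 : ℝ → ℝ} (hf : J2 f f1 f2) (hg : J2 g g1 g2) :
    J2 (fun t => f t + g t) (fun t => f1 t + g1 t) (fun t => f2 t + g2 t) :=
  ⟨fun t => (hf.d1 t).add (hg.d1 t), fun t => (hf.d2 t).add (hg.d2 t)⟩

lemma J2.sub {f f1 f2 g g1 g2 : ℝ → ℝ} (hf : J2 f f1 f2) (hg : J2 g g1 g2) :
    J2 (fun t => f t - g t) (fun t => f1 t - g1 t) (fun t => f2 t - g2 t) :=
  ⟨fun t => (hf.d1 t).sub (hg.d1 t), fun t => (hf.d2 t).sub (hg.d2 t)⟩

lemma J2.mul {f f1 f2 g g1 g2 : ℝ → ℝ} (hf : J2 f f1 f2) (hg : J2 g g1 g2) :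
    J2 (fun t => f t * g t) (fun t => f1 t * g t + f t * g1 t)
      (fun t => f2 t * g t + 2 * f1 t * g1 t + f t * g2 t) := by
  refine ⟨fun t => (hf.d1 t).mul (hg.d1 t), fun t => ?_⟩
  have := ((hf.d2 t).mul (hg.d1 t)).add ((hf.d1 t).mul (hg.d2 t))
  refine this.congr_deriv ?_
  ring

lemma J2.const_mul {f f1 f2 : ℝ → ℝ} (c : ℝ) (hf : J2 f f1 f2) :
    J2 (fun t => c * f t) (fun t => c * f1 t) (fun t => c * f2 t) :=
  ⟨fun t => (hf.d1 t).const_mul c, fun t => (hf.d2 t).const_mul c⟩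

lemma J2.comp_affine {f f1 f2 : ℝ → ℝ} (hf : J2 f f1 f2) (x ξ : ℝ) :
    J2 (fun t => f (x + t * ξ)) (fun t => f1 (x + t * ξ) * ξ) (fun t => f2 (x + t * ξ) * ξ ^ 2) := by
  have ha := J2.affine x ξ
  refine ⟨fun t => ?_, fun t => ?_⟩
  · exact (hf.d1 (x + t * ξ)).comp t (ha.d1 t)
  · have h := ((hf.d2 (x + t * ξ)).comp t (ha.d1 t)).mul_const ξ
    refine (HasDerivAt.congr_deriv h ?_)
    ring

lemma J2.sq_affine (x ξ : ℝ) :
    J2 (fun t => (x + t * ξ) ^ 2) (fun t => 2 * (x + t * ξ) * ξ) (fun _ => 2 * ξ ^ 2) :=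
  ((J2.affine x ξ).mul (J2.affine x ξ)).congr (fun t => by ring) (fun t => by ring)
    (fun t => by ring)

lemma J2.sum {ι : Type*} (s : Finset ι) {f f1 f2 : ι → ℝ → ℝ}
    (h : ∀ i ∈ s, J2 (f i) (f1 i) (f2 i)) :
    J2 (fun t => ∑ i ∈ s, f i t) (fun t => ∑ i ∈ s, f1 i t) (fun t => ∑ i ∈ s, f2 i t) := by
  refine ⟨fun t => ?_, fun t => ?_⟩
  · exact HasDerivAt.fun_sum (fun i hi => (h i hi).d1 t)
  · exact HasDerivAt.fun_sum (fun i hi => (h i hi).d2 t)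

lemma J2.sqrt {g g1 g2 : ℝ → ℝ} (hg : J2 g g1 g2) (hp : ∀ t, 0 < g t) :
    J2 (fun t => Real.sqrt (g t)) (fun t => g1 t / (2 * Real.sqrt (g t)))
      (fun t => g2 t / (2 * Real.sqrt (g t)) - (g1 t) ^ 2 / (4 * (Real.sqrt (g t)) ^ 3)) := by
  have h1 : ∀ t, HasDerivAt (fun t => Real.sqrt (g t)) (g1 t / (2 * Real.sqrt (g t))) t :=
    fun t => (hg.d1 t).sqrt (hp t).ne'
  refine ⟨h1, fun t => ?_⟩
  have hs : 0 < Real.sqrt (g t) := Real.sqrt_pos.2 (hp t)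
  have h2 := (hg.d2 t).div ((h1 t).const_mul 2) (by positivity)
  refine h2.congr_deriv ?_
  field_simp
  ring

lemma J2.inv_sq {g g1 g2 : ℝ → ℝ} (hg : J2 g g1 g2) (hp : ∀ t, 0 < g t) :
    J2 (fun t => 1 / (g t) ^ 2) (fun t => -2 * g1 t / (g t) ^ 3)
      (fun t => -2 * g2 t / (g t) ^ 3 + 6 * (g1 t) ^ 2 / (g t) ^ 4) := by
  refine ⟨fun t => ?_, fun t => ?_⟩
  · have hs := hp t
    have h := ((hg.d1 t).pow 2).inv (by simp only [Pi.pow_apply]; positivity)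
    have h' : HasDerivAt (fun t => 1 / (g t) ^ 2) (-(((2 : ℕ) : ℝ) * g t ^ (2 - 1) * g1 t) / (g t ^ 2) ^ 2) t := by
      have e : (fun t => 1 / (g t) ^ 2) = (g ^ 2)⁻¹ := by
        funext s; simp
      rw [e]; exact h
    refine h'.congr_deriv ?_
    field_simp
    norm_num
    ring
  · have hs := hp t
    have h := ((hg.d2 t).const_mul (-2)).div ((hg.d1 t).pow 3)
      (by simp only [Pi.pow_apply]; positivity)
    refine h.congr_deriv ?_
    simp only [Pi.pow_apply]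
    field_simp
    norm_num
    ring

/-- the function f -/
def ff (a b c : ℝ) : ℝ := T a * T b * T c + (R a + R b + R c) - c0

/-- first derivative along a direction -/
def ff1 (a b c ξ η ζ : ℝ) : ℝ :=
  T1 a * ξ * T b * T c + T a * (T1 b * η) * T c + T a * T b * (T1 c * ζ)
    + (R1 a * ξ + R1 b * η + R1 c * ζ)

/-- second derivative along a direction -/
def ff2 (a b c ξ η ζ : ℝ) : ℝ :=
  ((T b * T c) * T2 a + R2 a) * ξ ^ 2 + ((T a * T c) * T2 b + R2 b) * η ^ 2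
    + ((T a * T b) * T2 c + R2 c) * ζ ^ 2
    + 2 * (T1 a * T1 b * T c * (ξ * η) + T1 a * T b * T1 c * (ξ * ζ) + T a * T1 b * T1 c * (η * ζ))

lemma J2_T : J2 T T1 T2 := ⟨hasDerivAt_T, hasDerivAt_T1⟩
lemma J2_R : J2 R R1 R2 := ⟨hasDerivAt_R, hasDerivAt_R1⟩

lemma J2_ff (a b c ξ η ζ : ℝ) :
    J2 (fun t => ff (a + t * ξ) (b + t * η) (c + t * ζ))
      (fun t => ff1 (a + t * ξ) (b + t * η) (c + t * ζ) ξ η ζ)
      (fun t => ff2 (a + t * ξ) (b + t * η) (c + t * ζ) ξ η ζ) := by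
  have h := (((((J2_T.comp_affine a ξ).mul (J2_T.comp_affine b η)).mul (J2_T.comp_affine c ζ)).add
    (((J2_R.comp_affine a ξ).add (J2_R.comp_affine b η)).add (J2_R.comp_affine c ζ))).sub
      (J2.const c0))
  refine h.congr (fun t => ?_) (fun t => ?_) (fun t => ?_)
  · simp only [ff]
  · simp only [ff1]; ring
  · simp only [ff2]; ring

lemma lip_of_deriv {f f' : ℝ → ℝ} (h : ∀ t, HasDerivAt f (f' t) t) (hb : ∀ t, |f' t| ≤ 1)
    (x y : ℝ) : |f x - f y| ≤ |x - y| := by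
  have := Convex.norm_image_sub_le_of_norm_hasDerivWithin_le (f := f) (f' := f') (C := 1)
    (s := Set.univ) (x := y) (y := x) (fun t _ => (h t).hasDerivWithinAt)
    (fun t _ => by rw [Real.norm_eq_abs]; exact hb t) convex_univ trivial trivial
  rwa [one_mul, Real.norm_eq_abs, Real.norm_eq_abs] at this

lemma T_lip (x y : ℝ) : |T x - T y| ≤ |x - y| := lip_of_deriv hasDerivAt_T T1_abs x y
lemma R_lip (x y : ℝ) : |R x - R y| ≤ |x - y| := lip_of_deriv hasDerivAt_R R1_abs x y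

lemma prod_lip {a b c a' b' c' : ℝ} (_ha : 0 ≤ a) (_ha1 : a ≤ 1) (hb : 0 ≤ b) (hb1 : b ≤ 1)
    (hc : 0 ≤ c) (hc1 : c ≤ 1) (ha' : 0 ≤ a') (ha1' : a' ≤ 1) (hb' : 0 ≤ b') (hb1' : b' ≤ 1)
    (_hc' : 0 ≤ c') (_hc1' : c' ≤ 1) :
    |a * b * c - a' * b' * c'| ≤ |a - a'| + |b - b'| + |c - c'| := by
  have e : a * b * c - a' * b' * c' =
      (a - a') * (b * c) + (b - b') * (a' * c) + (c - c') * (a' * b') := by ring
  rw [e]
  have h1 : |(a - a') * (b * c)| ≤ |a - a'| := by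
    rw [abs_mul, abs_of_nonneg (mul_nonneg hb hc)]
    nlinarith [abs_nonneg (a - a'), mul_le_one₀ hb1 hc hc1]
  have h2 : |(b - b') * (a' * c)| ≤ |b - b'| := by
    rw [abs_mul, abs_of_nonneg (mul_nonneg ha' hc)]
    nlinarith [abs_nonneg (b - b'), mul_le_one₀ ha1' hc hc1]
  have h3 : |(c - c') * (a' * b')| ≤ |c - c'| := by
    rw [abs_mul, abs_of_nonneg (mul_nonneg ha' hb')]
    nlinarith [abs_nonneg (c - c'), mul_le_one₀ ha1' hb' hb1']
  calc _ ≤ |(a - a') * (b * c) + (b - b') * (a' * c)| + |(c - c') * (a' * b')| := abs_add_le _ _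
    _ ≤ |(a - a') * (b * c)| + |(b - b') * (a' * c)| + |(c - c') * (a' * b')| := by
        gcongr; exact abs_add_le _ _
    _ ≤ _ := by linarith

lemma ff_lip (a b c a' b' c' : ℝ) :
    |ff a b c - ff a' b' c'| ≤ 2 * (|a - a'| + |b - b'| + |c - c'|) := by
  have hT := prod_lip (T_nonneg a) (T_le_one a) (T_nonneg b) (T_le_one b) (T_nonneg c) (T_le_one c)
    (T_nonneg a') (T_le_one a') (T_nonneg b') (T_le_one b') (T_nonneg c') (T_le_one c')
  have t1 := T_lip a a'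
  have t2 := T_lip b b'
  have t3 := T_lip c c'
  have r1 := R_lip a a'
  have r2 := R_lip b b'
  have r3 := R_lip c c'
  have e : ff a b c - ff a' b' c' = (T a * T b * T c - T a' * T b' * T c') + (R a - R a')
      + (R b - R b') + (R c - R c') := by unfold ff; ring
  rw [e]
  have hT' : |T a * T b * T c - T a' * T b' * T c'| ≤ |a - a'| + |b - b'| + |c - c'| := by
    linarith
  clear hT t1 t2 t3
  rw [abs_le] at *
  constructor <;> linarith [hT'.1, hT'.2, r1.1, r1.2, r2.1, r2.2, r3.1, r3.2]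

lemma c0_abs : |c0| ≤ 1 := by
  have h2 := P_neg_le (δ := 200) (a := 40000) (by norm_num) (by norm_num)
  have h0 := P_nonneg 200 (-40000)
  unfold c0
  norm_num at h2
  generalize P 200 (-40000) = b at *
  rw [abs_le]; constructor <;> linarith

lemma ff_abs (a b c : ℝ) : |ff a b c| ≤ 130000 := by
  have h1 := R_abs a
  have h2 := R_abs b
  have h3 := R_abs c
  have h4 := c0_abs
  have h5 : 0 ≤ T a * T b * T c :=
    mul_nonneg (mul_nonneg (T_nonneg a) (T_nonneg b)) (T_nonneg c)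
  have h6 : T a * T b * T c ≤ 1 :=
    mul_le_one₀ (mul_le_one₀ (T_le_one a) (T_nonneg b) (T_le_one b)) (T_nonneg c) (T_le_one c)
  unfold ff
  rw [abs_le] at *
  constructor <;> linarith [h1.1, h1.2, h2.1, h2.2, h3.1, h3.2, h4.1, h4.2]

lemma abs_mul_le_of {a b c : ℝ} (ha : |a| ≤ 1) (hb : 0 ≤ b) (hb1 : b ≤ 1) : |a * c * b| ≤ |c| := by
  rw [abs_mul, abs_mul, abs_of_nonneg hb]
  have h1 : |a| * |c| ≤ |c| := by nlinarith [abs_nonneg c]
  have h2 : 0 ≤ |a| * |c| := by positivity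
  nlinarith [abs_nonneg c]

lemma ff1_abs (a b c ξ η ζ : ℝ) : |ff1 a b c ξ η ζ| ≤ 2 * (|ξ| + |η| + |ζ|) := by
  have e : ff1 a b c ξ η ζ = T1 a * ξ * (T b * T c) + T1 b * η * (T a * T c)
      + T1 c * ζ * (T a * T b) + R1 a * ξ * 1 + R1 b * η * 1 + R1 c * ζ * 1 := by
    unfold ff1; ring
  have h1 := abs_mul_le_of (c := ξ) (T1_abs a) (mul_nonneg (T_nonneg b) (T_nonneg c))
    (mul_le_one₀ (T_le_one b) (T_nonneg c) (T_le_one c))
  have h2 := abs_mul_le_of (c := η) (T1_abs b) (mul_nonneg (T_nonneg a) (T_nonneg c))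
    (mul_le_one₀ (T_le_one a) (T_nonneg c) (T_le_one c))
  have h3 := abs_mul_le_of (c := ζ) (T1_abs c) (mul_nonneg (T_nonneg a) (T_nonneg b))
    (mul_le_one₀ (T_le_one a) (T_nonneg b) (T_le_one b))
  have h4 := abs_mul_le_of (c := ξ) (R1_abs a) zero_le_one le_rfl
  have h5 := abs_mul_le_of (c := η) (R1_abs b) zero_le_one le_rfl
  have h6 := abs_mul_le_of (c := ζ) (R1_abs c) zero_le_one le_rfl
  rw [e]
  rw [abs_le] at *
  constructor <;> linarith [h1.1, h1.2, h2.1, h2.2, h3.1, h3.2, h4.1, h4.2, h5.1, h5.2, h6.1, h6.2]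

lemma cross_ge {a b p x : ℝ} (ha : |a| ≤ 1) (hb : |b| ≤ 1) (hp : 0 ≤ p) (hp1 : p ≤ 1) :
    -|x| ≤ a * b * p * x := by
  have h1 : |a * b| ≤ 1 := by
    rw [abs_mul]; exact mul_le_one₀ ha (abs_nonneg b) hb
  have h2 := abs_mul_le_of (a := a * b) (b := p) (c := x) h1 hp hp1
  rw [abs_le] at h2
  nlinarith [h2.1]

lemma ff2_ge (a b c ξ η ζ : ℝ) :
    -(1 / 400) * (ξ ^ 2 + η ^ 2 + ζ ^ 2) - 2 * (|ξ * η| + |ξ * ζ| + |η * ζ|)
      ≤ ff2 a b c ξ η ζ := by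
  have h1 := TR2 (mul_nonneg (T_nonneg b) (T_nonneg c))
    (mul_le_one₀ (T_le_one b) (T_nonneg c) (T_le_one c)) a
  have h2 := TR2 (mul_nonneg (T_nonneg a) (T_nonneg c))
    (mul_le_one₀ (T_le_one a) (T_nonneg c) (T_le_one c)) b
  have h3 := TR2 (mul_nonneg (T_nonneg a) (T_nonneg b))
    (mul_le_one₀ (T_le_one a) (T_nonneg b) (T_le_one b)) c
  have g1 := mul_le_mul_of_nonneg_right h1 (sq_nonneg ξ)
  have g2 := mul_le_mul_of_nonneg_right h2 (sq_nonneg η)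
  have g3 := mul_le_mul_of_nonneg_right h3 (sq_nonneg ζ)
  have k1 := cross_ge (x := ξ * η) (T1_abs a) (T1_abs b) (T_nonneg c) (T_le_one c)
  have k2 := cross_ge (x := ξ * ζ) (T1_abs a) (T1_abs c) (T_nonneg b) (T_le_one b)
  have k3 := cross_ge (x := η * ζ) (T1_abs b) (T1_abs c) (T_nonneg a) (T_le_one a)
  have e2 : T1 a * T b * T1 c * (ξ * ζ) = T1 a * T1 c * T b * (ξ * ζ) := by ring
  have e3 : T a * T1 b * T1 c * (η * ζ) = T1 b * T1 c * T a * (η * ζ) := by ring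
  unfold ff2
  rw [e2, e3]
  linarith

/-- `f ≤ 0` at the seven vertices -/
lemma ff_vertex {a b c : ℝ} (ha : a = 0 ∨ a = 1) (hb : b = 0 ∨ b = 1) (hc : c = 0 ∨ c = 1)
    (h : a = 0 ∨ b = 0 ∨ c = 0) : ff a b c ≤ 0 := by
  have hR : ∀ u : ℝ, u = 0 ∨ u = 1 → R u ≤ 1 / 2000 - P 200 (-40000) := by
    intro u hu
    rcases hu with rfl | rfl
    · exact R_zero_le
    · exact R_one_le
  have hT : ∀ u v w : ℝ, u = 0 → T u * T v * T w ≤ 1 / 2000 := by
    intro u v w hu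
    subst hu
    have h0 := T_zero_le
    have h1 : T v * T w ≤ 1 := mul_le_one₀ (T_le_one v) (T_nonneg w) (T_le_one w)
    have h2 : 0 ≤ T v * T w := mul_nonneg (T_nonneg v) (T_nonneg w)
    calc T 0 * T v * T w = T 0 * (T v * T w) := by ring
      _ ≤ T 0 * 1 := by gcongr; exact T_nonneg 0
      _ ≤ _ := by linarith
  have hprod : T a * T b * T c ≤ 1 / 2000 := by
    rcases h with h | h | h
    · exact hT a b c h
    · have := hT b a c h
      calc _ = T b * T a * T c := by ring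
        _ ≤ _ := this
    · have := hT c a b h
      calc _ = T c * T a * T b := by ring
        _ ≤ _ := this
  have r1 := hR a ha
  have r2 := hR b hb
  have r3 := hR c hc
  unfold ff c0
  generalize P 200 (-40000) = w at *
  linarith

lemma ff_diag {p : ℝ} (hp0 : 1 / 4 ≤ p) (hp1 : p ≤ 1 / 2) : 27 / 2000 ≤ ff p p p := by
  have hT := T_ge (p := p) (by linarith) hp1
  have hT' : 1 / 4 - 1 / 1000000 ≤ T p := by linarith
  have hR := R_ge (p := p) (by linarith)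
  have h3 : (1 / 4 - 1 / 1000000 : ℝ) ^ 3 ≤ T p ^ 3 := by gcongr
  have e : T p * T p * T p = T p ^ 3 := by ring
  unfold ff c0
  rw [e]
  generalize P 200 (-40000) = w at *
  norm_num at h3 hR ⊢
  linarith

end

end Pool.Agent.Lib.MP0febd9
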