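import Pool.Agent.Lib.MP_0febd9_an.Point
import Pool.Agent.Lib.MP_0febd9_an.Dirs

set_option autoImplicit false

namespace Pool.Agent.Lib.MP0febd9

noncomputable section

/-- sum of the r-components -/
def ss (F : Mat) : ℝ := ∑ k, pp (ir k) F
/-- weighted sums of the r-components -/
def yy (j : Fin 3) (F : Mat) : ℝ := ∑ k, (cc k j : ℝ) * pp (ir k) F

lemma ss_add_smul (F A : Mat) (t : ℝ) : ss (F + t • A) = ss F + t * ss A := by
  unfold ss
  simp only [pp_add_smul, Finset.sum_add_distrib, Finset.mul_sum]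

lemma yy_add_smul (j : Fin 3) (F A : Mat) (t : ℝ) : yy j (F + t • A) = yy j F + t * yy j A := by
  unfold yy
  simp only [pp_add_smul, mul_add, Finset.sum_add_distrib, Finset.mul_sum]
  congr 1
  apply Finset.sum_congr rfl
  intro k _
  ring

/-- `1+|v|^2` -/
def gg (F : Mat) (z : ℝ) : ℝ :=
  1 + ((yy 0 F - z * pp (ix 0) F) ^ 2 + (yy 1 F - z * pp (ix 1) F) ^ 2
    + (yy 2 F - z * pp (ix 2) F) ^ 2)

/-- the auxiliary function whose partial infimum is the rank-one convex minorant -/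
def U (F : Mat) (z : ℝ) : ℝ :=
  (1 - z ^ 2) * (ff (pp (ix 0) F) (pp (ix 1) F) (pp (ix 2) F) * (1 / gg F z ^ 2))
    + kK * (Real.sqrt (gg F z) - 1) + kL * (ss F - z) ^ 2
    + 3 / 1000 * (∑ i, (pp i F) ^ 2) + kQ * (∑ i, (pq i F) ^ 2)

lemma gg_ge (F : Mat) (z : ℝ) : 1 ≤ gg F z := by
  unfold gg
  nlinarith [sq_nonneg (yy 0 F - z * pp (ix 0) F), sq_nonneg (yy 1 F - z * pp (ix 1) F),
    sq_nonneg (yy 2 F - z * pp (ix 2) F)]

/-- the value of the second derivative of `U` along a line -/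
def UD (F A : Mat) (z ζ : ℝ) : ℝ :=
  let v : Fin 3 → ℝ := fun j => yy j F - z * pp (ix j) F
  let w : Fin 3 → ℝ := fun j => yy j A - (ζ * pp (ix j) F + z * pp (ix j) A)
  let u : Fin 3 → ℝ := fun j => -2 * ζ * pp (ix j) A
  let g1 := 2 * (v 0 * w 0 + v 1 * w 1 + v 2 * w 2)
  let g2 := 2 * (w 0 ^ 2 + w 1 ^ 2 + w 2 ^ 2) + 2 * (v 0 * u 0 + v 1 * u 1 + v 2 * u 2)
  D2 z ζ (ff (pp (ix 0) F) (pp (ix 1) F) (pp (ix 2) F))
    (ff1 (pp (ix 0) F) (pp (ix 1) F) (pp (ix 2) F) (pp (ix 0) A) (pp (ix 1) A) (pp (ix 2) A))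
    (ff2 (pp (ix 0) F) (pp (ix 1) F) (pp (ix 2) F) (pp (ix 0) A) (pp (ix 1) A) (pp (ix 2) A))
    (1 / gg F z ^ 2) (-2 * g1 / gg F z ^ 3) (-2 * g2 / gg F z ^ 3 + 6 * g1 ^ 2 / gg F z ^ 4)
    (g2 / (2 * Real.sqrt (gg F z)) - g1 ^ 2 / (4 * Real.sqrt (gg F z) ^ 3)) (ss A)
    (∑ i, (pp i A) ^ 2) (∑ i, (pq i A) ^ 2)

lemma J2_v (a b z x α ζ ξ : ℝ) (hb : b = z) :
    J2 (fun t => (a + t * α) - (b + t * ζ) * (x + t * ξ))
      (fun t => α - (ζ * (x + t * ξ) + (z + t * ζ) * ξ)) (fun _ => -2 * ζ * ξ) := by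
  subst hb
  refine ((J2.affine a α).sub ((J2.affine b ζ).mul (J2.affine x ξ))).congr (fun t => rfl)
    (fun t => by ring) (fun t => by ring)

lemma J2_gg (F A : Mat) (z ζ : ℝ) :
    J2 (fun t => gg (F + t • A) (z + t * ζ))
      (fun t => 2 * ((yy 0 (F + t • A) - (z + t * ζ) * pp (ix 0) (F + t • A)) *
          (yy 0 A - (ζ * pp (ix 0) (F + t • A) + (z + t * ζ) * pp (ix 0) A))
        + (yy 1 (F + t • A) - (z + t * ζ) * pp (ix 1) (F + t • A)) *
          (yy 1 A - (ζ * pp (ix 1) (F + t • A) + (z + t * ζ) * pp (ix 1) A))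
        + (yy 2 (F + t • A) - (z + t * ζ) * pp (ix 2) (F + t • A)) *
          (yy 2 A - (ζ * pp (ix 2) (F + t • A) + (z + t * ζ) * pp (ix 2) A))))
      (fun t => 2 * ((yy 0 A - (ζ * pp (ix 0) (F + t • A) + (z + t * ζ) * pp (ix 0) A)) ^ 2
          + (yy 1 A - (ζ * pp (ix 1) (F + t • A) + (z + t * ζ) * pp (ix 1) A)) ^ 2
          + (yy 2 A - (ζ * pp (ix 2) (F + t • A) + (z + t * ζ) * pp (ix 2) A)) ^ 2)
        + 2 * ((yy 0 (F + t • A) - (z + t * ζ) * pp (ix 0) (F + t • A)) * (-2 * ζ * pp (ix 0) A)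
          + (yy 1 (F + t • A) - (z + t * ζ) * pp (ix 1) (F + t • A)) * (-2 * ζ * pp (ix 1) A)
          + (yy 2 (F + t • A) - (z + t * ζ) * pp (ix 2) (F + t • A)) * (-2 * ζ * pp (ix 2) A))) := by
  have hv : ∀ j : Fin 3, J2 (fun t => (yy j F + t * yy j A) - (z + t * ζ) * (pp (ix j) F + t * pp (ix j) A))
      (fun t => yy j A - (ζ * (pp (ix j) F + t * pp (ix j) A) + (z + t * ζ) * pp (ix j) A))
      (fun _ => -2 * ζ * pp (ix j) A) := fun j => J2_v _ _ _ _ _ _ _ rfl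
  have h := (J2.const 1).add ((((hv 0).mul (hv 0)).add ((hv 1).mul (hv 1))).add ((hv 2).mul (hv 2)))
  refine h.congr (fun t => ?_) (fun t => ?_) (fun t => ?_)
  · simp only [gg, yy_add_smul, pp_add_smul]; ring
  · simp only [yy_add_smul, pp_add_smul]; ring
  · simp only [yy_add_smul, pp_add_smul]; ring

lemma J2_U (F A : Mat) (z ζ : ℝ) : ∃ U1 : ℝ → ℝ,
    J2 (fun t => U (F + t • A) (z + t * ζ)) U1 (fun t => UD (F + t • A) A (z + t * ζ) ζ) := by
  have hp : ∀ t, 0 < gg (F + t • A) (z + t * ζ) := fun t => by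
    have := gg_ge (F + t • A) (z + t * ζ); linarith
  have hg := J2_gg F A z ζ
  have hX := hg.inv_sq hp
  have hh := hg.sqrt hp
  have hf := J2_ff (pp (ix 0) F) (pp (ix 1) F) (pp (ix 2) F) (pp (ix 0) A) (pp (ix 1) A) (pp (ix 2) A)
  have ha := (J2.const 1).sub (J2.sq_affine z ζ)
  have hs := (J2.affine (ss F) (ss A)).sub (J2.affine z ζ)
  have hE := J2.sum Finset.univ (f := fun (i : Fin 10) t => (pp i F + t * pp i A) ^ 2)
    (fun i _ => J2.sq_affine (pp i F) (pp i A))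
  have hQ := J2.sum Finset.univ (f := fun (i : Fin 10) t => (pq i F + t * pq i A) ^ 2)
    (fun i _ => J2.sq_affine (pq i F) (pq i A))
  have h := ((((ha.mul (hf.mul hX)).add ((hh.sub (J2.const 1)).const_mul kK)).add
    ((hs.mul hs).const_mul kL)).add (hE.const_mul (3 / 1000))).add (hQ.const_mul kQ)
  refine ⟨_, h.congr (fun t => ?_) (fun t => rfl) (fun t => ?_)⟩
  · simp only [U, ss_add_smul, pp_add_smul, pq_add_smul]
    ring
  · simp only [UD, D2, pp_add_smul, yy_add_smul, Finset.mul_sum]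
    ring

end

end Pool.Agent.Lib.MP0febd9
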