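import Pool.Agent.Lib.MP_0febd9_an.Lower

set_option autoImplicit false

namespace Pool.Agent.Lib.MP0febd9

noncomputable section

lemma sum_erase_abs_le {ρ c : Fin 7 → ℝ} {k0 : Fin 7} {N : ℝ}
    (hc : ∀ k, |c k| ≤ 1) (h : ∀ k, k ≠ k0 → |ρ k| ≤ 130 * N) :
    |∑ k, c k * ρ k - c k0 * ρ k0| ≤ 780 * N := by
  have e : ∑ k, c k * ρ k - c k0 * ρ k0 = ∑ k ∈ Finset.univ.erase k0, c k * ρ k := by
    rw [← Finset.add_sum_erase Finset.univ (fun k => c k * ρ k) (Finset.mem_univ k0)]
    ring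
  rw [e]
  calc |∑ k ∈ Finset.univ.erase k0, c k * ρ k|
      ≤ ∑ k ∈ Finset.univ.erase k0, |c k * ρ k| := Finset.abs_sum_le_sum_abs _ _
    _ ≤ ∑ k ∈ Finset.univ.erase k0, 130 * N := by
        apply Finset.sum_le_sum
        intro k hk
        rw [abs_mul]
        have h1 := h k (Finset.ne_of_mem_erase hk)
        calc |c k| * |ρ k| ≤ 1 * |ρ k| := by
              gcongr; exact hc k
          _ ≤ 130 * N := by linarith
    _ = 780 * N := by
        rw [Finset.sum_const, Finset.card_erase_of_mem (Finset.mem_univ k0)]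
        simp
        ring

lemma sum_abs_le {ρ : Fin 7 → ℝ} {N : ℝ} (h : ∀ k, |ρ k| ≤ 130 * N) :
    |∑ k, ρ k| ≤ 910 * N := by
  calc |∑ k, ρ k| ≤ ∑ k, |ρ k| := Finset.abs_sum_le_sum_abs _ _
    _ ≤ ∑ k : Fin 7, 130 * N := Finset.sum_le_sum (fun k _ => h k)
    _ = 910 * N := by simp; ring

lemma cc_abs (k : Fin 7) (j : Fin 3) : |((cc k j : ℕ) : ℝ)| ≤ 1 := by
  rcases cc_mem k j with h | h <;> rw [h] <;> norm_num

lemma ff_cc (k : Fin 7) : ff (cc k 0) (cc k 1) (cc k 2) ≤ 0 := by
  have hm : ∀ j, ((cc k j : ℕ) : ℝ) = 0 ∨ ((cc k j : ℕ) : ℝ) = 1 := by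
    intro j
    rcases cc_mem k j with h | h <;> rw [h] <;> norm_num
  apply ff_vertex (hm 0) (hm 1) (hm 2)
  rcases cc_not_all k with h | h | h
  · left; rw [h]; norm_num
  · right; left; rw [h]; norm_num
  · right; right; rw [h]; norm_num

lemma UD_nonneg (F A : Mat) (z ζ : ℝ) (hz : |z| ≤ 1)
    (hA : ∃ i0 : Fin 10, ∀ i : Fin 10, i ≠ i0 → |pp i A| ≤ 130 * |pq i A|) :
    0 ≤ UD F A z ζ := by
  obtain ⟨i0, hA⟩ := hA
  obtain ⟨N, hN⟩ : ∃ N, N = Real.sqrt (∑ i, (pq i A) ^ 2) := ⟨_, rfl⟩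
  have hN0 : 0 ≤ N := by rw [hN]; exact Real.sqrt_nonneg _
  have hN2 : ∑ i, (pq i A) ^ 2 = N ^ 2 := by
    rw [hN, Real.sq_sqrt]
    exact Finset.sum_nonneg (fun i _ => sq_nonneg _)
  have hq : ∀ i, |pq i A| ≤ N := by
    intro i
    rw [hN]
    apply Real.abs_le_sqrt
    exact Finset.single_le_sum (f := fun i => (pq i A) ^ 2) (fun i _ => sq_nonneg _)
      (Finset.mem_univ i)
  have hb : ∀ i, i ≠ i0 → |pp i A| ≤ 130 * N := by
    intro i hi
    have h1 := hA i hi
    have h2 := hq i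
    linarith
  have hS : ∀ i, (pp i A) ^ 2 ≤ ∑ i, (pp i A) ^ 2 := fun i =>
    Finset.single_le_sum (f := fun i => (pp i A) ^ 2) (fun i _ => sq_nonneg _)
      (Finset.mem_univ i)
  rcases ix_or_ir i0 with ⟨j0, hj0⟩ | ⟨k0, hk0⟩
  · -- case X
    have hr : ∀ k, |pp (ir k) A| ≤ 130 * N := by
      intro k
      apply hb
      rw [hj0]
      exact fun h => ix_ne_ir j0 k h.symm
    have ht : |ss A| ≤ 910 * N := sum_abs_le hr
    have hx : ∀ j, j ≠ j0 → |pp (ix j) A| ≤ 130 * N := by
      intro j hj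
      apply hb
      rw [hj0]
      exact fun h => hj (ix_inj _ _ h)
    have hmul : ∀ a b : ℝ, |a| ≤ 130 * N → |b| ≤ 130 * N → |a * b| ≤ 16900 * N ^ 2 := by
      intro a b ha hb
      rw [abs_mul]
      calc |a| * |b| ≤ (130 * N) * (130 * N) := by gcongr
        _ = _ := by ring
    have hmul2 : ∀ a b : ℝ, |b| ≤ 130 * N → |a * b| ≤ 130 * (N * |a|) := by
      intro a b hb
      rw [abs_mul]
      calc |a| * |b| ≤ |a| * (130 * N) := by gcongr
        _ = _ := by ring
    have hsq : ∀ a : ℝ, |a| ≤ 130 * N → a ^ 2 ≤ 16900 * N ^ 2 := by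
      intro a ha
      have := pow_le_pow_left₀ (abs_nonneg a) ha 2
      rw [sq_abs] at this
      linarith
    have hNN := sq_nonneg N
    have hcases : j0 = 0 ∨ j0 = 1 ∨ j0 = 2 := by
      fin_cases j0 <;> simp
    unfold UD
    refine DD_nonneg_X (N := N) (ξ := |pp (ix j0) A|) rfl rfl rfl rfl rfl rfl rfl hz hN0 hN2
      (abs_nonneg _) ht (by rw [sq_abs]; exact hS _) ?_ ?_
    · rcases hcases with h | h | h
      · subst h
        have h1 := hx 1 (by decide)
        have h2 := hx 2 (by decide)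
        linarith
      · subst h
        have h1 := hx 0 (by decide)
        have h2 := hx 2 (by decide)
        linarith
      · subst h
        have h1 := hx 0 (by decide)
        have h2 := hx 1 (by decide)
        linarith
    · rcases hcases with h | h | h
      · subst h
        have h1 := hx 1 (by decide)
        have h2 := hx 2 (by decide)
        have s1 := hsq _ h1
        have s2 := hsq _ h2
        have m1 := hmul _ _ h1 h2
        have m2 := hmul2 (pp (ix 0) A) _ h1
        have m3 := hmul2 (pp (ix 0) A) _ h2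
        rw [sq_abs]
        linarith
      · subst h
        have h1 := hx 0 (by decide)
        have h2 := hx 2 (by decide)
        have s1 := hsq _ h1
        have s2 := hsq _ h2
        have m1 := hmul _ _ h1 h2
        have m2 := hmul2 (pp (ix 1) A) _ h1
        have m3 := hmul2 (pp (ix 1) A) _ h2
        rw [mul_comm (pp (ix 1) A) (pp (ix 0) A)] at m2
        rw [sq_abs]
        linarith
      · subst h
        have h1 := hx 0 (by decide)
        have h2 := hx 1 (by decide)
        have s1 := hsq _ h1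
        have s2 := hsq _ h2
        have m1 := hmul _ _ h1 h2
        have m2 := hmul2 (pp (ix 2) A) _ h1
        have m3 := hmul2 (pp (ix 2) A) _ h2
        rw [mul_comm (pp (ix 2) A) (pp (ix 0) A)] at m2
        rw [mul_comm (pp (ix 2) A) (pp (ix 1) A)] at m3
        rw [sq_abs]
        linarith
  · -- case R
    have hx : ∀ j, |pp (ix j) A| ≤ 130 * N := by
      intro j
      apply hb
      rw [hk0]
      exact ix_ne_ir j k0
    have hr : ∀ k, k ≠ k0 → |pp (ir k) A| ≤ 130 * N := by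
      intro k hk
      apply hb
      rw [hk0]
      exact fun h => hk (ir_inj _ _ h)
    have ht : |ss A - pp (ir k0) A| ≤ 780 * N := by
      have := sum_erase_abs_le (ρ := fun k => pp (ir k) A) (c := fun _ => 1) (k0 := k0) (N := N)
        (fun k => by norm_num) hr
      simpa [ss] using this
    have hy : ∀ j, |yy j A - (cc k0 j : ℝ) * pp (ir k0) A| ≤ 780 * N := by
      intro j
      exact sum_erase_abs_le (ρ := fun k => pp (ir k) A) (c := fun k => (cc k j : ℝ)) (k0 := k0)
        (N := N) (fun k => cc_abs k j) hr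
    unfold UD
    exact DD_nonneg_R (N := N) (ρ := pp (ir k0) A) rfl rfl rfl rfl rfl rfl rfl rfl rfl rfl hz hN0
      hN2 ht (hS _) (hx 0) (hx 1) (hx 2) (hy 0) (hy 1) (hy 2) (cc_abs k0 0) (cc_abs k0 1)
      (cc_abs k0 2) (ff_cc k0)

lemma U_segment (F A : Mat) {z z' θ : ℝ} (hz : |z| ≤ 1) (hz' : |z'| ≤ 1) (hθ0 : 0 ≤ θ)
    (hθ1 : θ ≤ 1) (hA : ∃ i0 : Fin 10, ∀ i : Fin 10, i ≠ i0 → |pp i A| ≤ 130 * |pq i A|) :
    U (F + θ • A) (z + θ * (z' - z)) ≤ (1 - θ) * U F z + θ * U (F + A) z' := by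
  obtain ⟨U1, hU⟩ := J2_U F A z (z' - z)
  have hconv : ConvexOn ℝ (Set.Icc (0 : ℝ) 1) (fun t => U (F + t • A) (z + t * (z' - z))) := by
    apply convexOn_of_hasDerivWithinAt2_nonneg (convex_Icc 0 1) (f' := U1)
      (f'' := fun t => UD (F + t • A) A (z + t * (z' - z)) (z' - z))
    · intro t _
      exact (hU.d1 t).continuousAt.continuousWithinAt
    · intro t _
      exact (hU.d1 t).hasDerivWithinAt
    · intro t _
      exact (hU.d2 t).hasDerivWithinAt
    · intro t ht
      rw [interior_Icc] at ht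
      apply UD_nonneg _ _ _ _ _ hA
      rw [abs_le] at *
      obtain ⟨h0, h1⟩ := ht
      constructor <;> nlinarith
  have := hconv.2 (Set.left_mem_Icc.2 zero_le_one) (Set.right_mem_Icc.2 zero_le_one)
    (show 0 ≤ 1 - θ by linarith) hθ0 (by ring)
  simpa using this

lemma continuous_gg (F : Mat) : Continuous (fun z => gg F z) := by
  unfold gg
  fun_prop

lemma continuous_U (F : Mat) : Continuous (fun z => U F z) := by
  have h1 := continuous_gg F
  have h2 : Continuous (fun z => 1 / gg F z ^ 2) := by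
    apply Continuous.div continuous_const (h1.pow 2)
    intro z
    have h0 : 0 < gg F z := by linarith [gg_ge F z]
    exact pow_ne_zero 2 h0.ne'
  have h3 : Continuous (fun z => Real.sqrt (gg F z)) := Real.continuous_sqrt.comp h1
  unfold U
  fun_prop

/-- the rank-one convex minorant -/
def G (F : Mat) : ℝ := sInf (U F '' Set.Icc (-1 : ℝ) 1)

lemma G_attained (F : Mat) : ∃ z : ℝ, |z| ≤ 1 ∧ G F = U F z := by
  have hc : IsCompact (U F '' Set.Icc (-1 : ℝ) 1) :=
    isCompact_Icc.image (continuous_U F)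
  have hne : (U F '' Set.Icc (-1 : ℝ) 1).Nonempty := ⟨U F 0, 0, by norm_num, rfl⟩
  obtain ⟨z, hz, hz'⟩ := hc.sInf_mem hne
  exact ⟨z, abs_le.2 hz, hz'.symm⟩

lemma G_le (F : Mat) {z : ℝ} (hz : |z| ≤ 1) : G F ≤ U F z := by
  have hc : IsCompact (U F '' Set.Icc (-1 : ℝ) 1) :=
    isCompact_Icc.image (continuous_U F)
  exact csInf_le hc.bddBelow ⟨z, abs_le.1 hz, rfl⟩

/-- `G` is rank-one convex -/
theorem G_rankOne (F : Mat) (a : Fin 2 → ℝ) (b : Fin 10 → ℝ) :
    ConvexOn ℝ Set.univ (fun t : ℝ => G (F + t • Matrix.vecMulVec a b)) := by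
  refine ⟨convex_univ, ?_⟩
  intro s _ t _ α β hα hβ hαβ
  simp only [smul_eq_mul]
  obtain ⟨z, hz, hGz⟩ := G_attained (F + s • Matrix.vecMulVec a b)
  obtain ⟨z', hz', hGz'⟩ := G_attained (F + t • Matrix.vecMulVec a b)
  have hA : ∃ i0 : Fin 10, ∀ i : Fin 10, i ≠ i0 →
      |pp i ((t - s) • Matrix.vecMulVec a b)| ≤ 130 * |pq i ((t - s) • Matrix.vecMulVec a b)| := by
    rw [← Matrix.smul_vecMulVec]
    exact bad_index' _ _
  have h := U_segment (F + s • Matrix.vecMulVec a b) ((t - s) • Matrix.vecMulVec a b) hz hz'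
    hβ (by linarith) hA
  have e1 : F + s • Matrix.vecMulVec a b + β • ((t - s) • Matrix.vecMulVec a b)
      = F + (α * s + β * t) • Matrix.vecMulVec a b := by
    have : α = 1 - β := by linarith
    rw [this]
    module
  have e2 : F + s • Matrix.vecMulVec a b + (t - s) • Matrix.vecMulVec a b
      = F + t • Matrix.vecMulVec a b := by module
  rw [e1, e2] at h
  have hαe : 1 - β = α := by linarith
  rw [hαe] at h
  rw [hGz, hGz']
  refine le_trans (G_le _ ?_) h
  rw [abs_le] at *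
  constructor <;> nlinarith

end

end Pool.Agent.Lib.MP0febd9
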