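import Pool.Agent.Lib.MP_0febd9_an.Lower2

set_option autoImplicit false

namespace Pool.Agent.Lib.MP0febd9

noncomputable section

/-- the two wells, `σ = 1` and `σ = -1` -/
def Wq (σ : ℝ) (F : Mat) : ℝ :=
  kK / 2 * (∑ j, (pp (ix j) F - σ * yy j F) ^ 2) + kL * (ss F - σ) ^ 2
    + 3 / 1000 * (∑ i, (pp i F) ^ 2) + kQ * (∑ i, (pq i F) ^ 2)

lemma G_le_Wq (F : Mat) {σ : ℝ} (hσ : σ = 1 ∨ σ = -1) : G F ≤ Wq σ F := by
  have hσ2 : σ ^ 2 = 1 := by rcases hσ with h | h <;> rw [h] <;> norm_num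
  have hσa : |σ| ≤ 1 := by rcases hσ with h | h <;> rw [h] <;> norm_num
  refine le_trans (G_le F hσa) ?_
  unfold U Wq
  rw [hσ2, sub_self, zero_mul, zero_add]
  have hg : Real.sqrt (gg F σ) - 1 ≤ (∑ j, (pp (ix j) F - σ * yy j F) ^ 2) / 2 := by
    have e : gg F σ = 1 + ∑ j, (pp (ix j) F - σ * yy j F) ^ 2 := by
      unfold gg
      rw [Fin.sum_univ_three]
      linear_combination ((pp (ix 0) F) ^ 2 - (yy 0 F) ^ 2 + (pp (ix 1) F) ^ 2 - (yy 1 F) ^ 2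
        + (pp (ix 2) F) ^ 2 - (yy 2 F) ^ 2) * hσ2
    rw [e]
    have h0 : 0 ≤ ∑ j, (pp (ix j) F - σ * yy j F) ^ 2 := Finset.sum_nonneg fun i _ => sq_nonneg _
    have : Real.sqrt (1 + ∑ j, (pp (ix j) F - σ * yy j F) ^ 2)
        ≤ 1 + (∑ j, (pp (ix j) F - σ * yy j F) ^ 2) / 2 := by
      apply Real.sqrt_le_iff.2
      constructor
      · positivity
      · nlinarith [sq_nonneg (∑ j, (pp (ix j) F - σ * yy j F) ^ 2)]
    linarith
  have hk : 0 < kK := by unfold kK; positivity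
  have := mul_le_mul_of_nonneg_left hg hk.le
  linarith

/-- the affine boundary value -/
def F0 (p : ℝ) : Mat := Matrix.of fun r i =>
  if (i : ℕ) < 3 then p * (if r = 0 then (d1 i : ℝ) else (d2 i : ℝ)) else 0

lemma ix_lt : ∀ j : Fin 3, ((ix j : Fin 10) : ℕ) < 3 := by decide
lemma ir_not_lt : ∀ k : Fin 7, ¬ ((ir k : Fin 10) : ℕ) < 3 := by decide

lemma pp_F0_ix (p : ℝ) (j : Fin 3) : pp (ix j) (F0 p) = p := by
  have hn := nn_pos (ix j)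
  have hlt := ix_lt j
  unfold pp F0
  rw [div_eq_iff hn.ne']
  unfold nn
  simp [Matrix.of_apply, hlt]
  ring

lemma pq_F0_ix (p : ℝ) (j : Fin 3) : pq (ix j) (F0 p) = 0 := by
  have hlt := ix_lt j
  have hn := nn_pos (ix j)
  unfold pq F0
  rw [div_eq_iff hn.ne']
  simp [Matrix.of_apply, hlt]
  ring

lemma pp_F0_ir (p : ℝ) (k : Fin 7) : pp (ir k) (F0 p) = 0 := by
  have hlt := ir_not_lt k
  unfold pp F0
  simp [Matrix.of_apply, hlt]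

lemma pq_F0_ir (p : ℝ) (k : Fin 7) : pq (ir k) (F0 p) = 0 := by
  have hlt := ir_not_lt k
  unfold pq F0
  simp [Matrix.of_apply, hlt]

lemma G_F0_ge {p : ℝ} (hp0 : 1 / 4 ≤ p) (hp1 : p ≤ 1 / 2) : 27 / 2000 ≤ G (F0 p) := by
  obtain ⟨z, hz, hG⟩ := G_attained (F0 p)
  rw [hG]
  have hss : ss (F0 p) = 0 := by
    unfold ss
    simp [pp_F0_ir]
  have hyy : ∀ j, yy j (F0 p) = 0 := by
    intro j
    unfold yy
    simp [pp_F0_ir]
  have hg : gg (F0 p) z = 1 + 3 * (z * p) ^ 2 := by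
    unfold gg
    rw [hyy, hyy, hyy, pp_F0_ix, pp_F0_ix, pp_F0_ix]
    ring
  have hz2 : z ^ 2 ≤ 1 := (sq_le_one_iff_abs_le_one z).2 hz
  have hp2 : p ^ 2 ≤ 1 / 4 := by nlinarith
  have hg1 : 1 ≤ gg (F0 p) z := gg_ge _ _
  have hg2 : gg (F0 p) z ≤ 1 + 3 / 4 * z ^ 2 := by
    rw [hg]
    nlinarith [sq_nonneg z, mul_le_mul_of_nonneg_left hp2 (sq_nonneg z)]
  have hX : 1 - 3 / 2 * z ^ 2 ≤ 1 / gg (F0 p) z ^ 2 := by
    rw [le_div_iff₀ (by positivity)]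
    have h1 : 1 - 2 * (gg (F0 p) z - 1) ≤ 1 / gg (F0 p) z ^ 2 := by
      rw [le_div_iff₀ (by positivity)]
      nlinarith [mul_nonneg (sub_nonneg.2 hg1) (sub_nonneg.2 hg1), mul_nonneg (mul_nonneg (sub_nonneg.2 hg1) (sub_nonneg.2 hg1)) (by linarith : (0:ℝ) ≤ gg (F0 p) z)]
    rw [le_div_iff₀ (by positivity)] at h1
    have h2 : 1 - 3 / 2 * z ^ 2 ≤ 1 - 2 * (gg (F0 p) z - 1) := by linarith
    calc (1 - 3 / 2 * z ^ 2) * gg (F0 p) z ^ 2 ≤ (1 - 2 * (gg (F0 p) z - 1)) * gg (F0 p) z ^ 2 := by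
          gcongr
      _ ≤ 1 := h1
  have hf := ff_diag hp0 hp1
  have hf2 : ff p p p ≤ 130000 := le_trans (le_abs_self _) (ff_abs p p p)
  have hf0 : 0 ≤ ff p p p := by linarith
  have hsqrt : 1 ≤ Real.sqrt (gg (F0 p) z) := Real.one_le_sqrt.2 hg1
  have hE : 0 ≤ ∑ i, (pp i (F0 p)) ^ 2 := Finset.sum_nonneg fun i _ => sq_nonneg _
  have hQ : 0 ≤ ∑ i, (pq i (F0 p)) ^ 2 := Finset.sum_nonneg fun i _ => sq_nonneg _
  unfold U
  rw [hss, pp_F0_ix, pp_F0_ix, pp_F0_ix]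
  have hmain : ff p p p * (1 - 5 / 2 * z ^ 2) ≤ (1 - z ^ 2) * (ff p p p * (1 / gg (F0 p) z ^ 2)) := by
    have h1 : (1 - z ^ 2) * (ff p p p * (1 - 3 / 2 * z ^ 2)) ≤
        (1 - z ^ 2) * (ff p p p * (1 / gg (F0 p) z ^ 2)) := by
      have : 0 ≤ 1 - z ^ 2 := by linarith
      gcongr
    have h2 : ff p p p * (1 - 5 / 2 * z ^ 2) ≤ (1 - z ^ 2) * (ff p p p * (1 - 3 / 2 * z ^ 2)) := by
      nlinarith [mul_nonneg hf0 (sq_nonneg (z ^ 2))]
    linarith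
  have hK : 0 ≤ kK * (Real.sqrt (gg (F0 p) z) - 1) := by
    have : 0 < kK := by unfold kK; positivity
    have h2 : 0 ≤ Real.sqrt (gg (F0 p) z) - 1 := by linarith
    positivity
  have hL : ff p p p * (5 / 2 * z ^ 2) ≤ kL * (0 - z) ^ 2 := by
    have : (0 - z) ^ 2 = z ^ 2 := by ring
    rw [this]
    have hk : 325000 ≤ kL := by unfold kL; norm_num
    have h1 := mul_le_mul_of_nonneg_right hk (sq_nonneg z)
    have h2 := mul_le_mul_of_nonneg_right hf2 (sq_nonneg z)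
    linarith
  have hQ' : 0 ≤ kQ * ∑ i, (pq i (F0 p)) ^ 2 := by
    have : 0 < kQ := by unfold kQ; positivity
    exact mul_nonneg this.le hQ
  linarith

end

end Pool.Agent.Lib.MP0febd9
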