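import Pool.Agent.Lib.MP_0febd9_an.Core
import Pool.Agent.Lib.MP_0febd9_an.Fun

set_option autoImplicit false

namespace Pool.Agent.Lib.MP0febd9

noncomputable section

lemma beta_le (ζ ξ0 ξ1 ξ2 : ℝ) :
    Real.sqrt ((-2 * ζ * ξ0) ^ 2 + (-2 * ζ * ξ1) ^ 2 + (-2 * ζ * ξ2) ^ 2)
      ≤ 2 * |ζ| * (|ξ0| + |ξ1| + |ξ2|) := by
  apply Real.sqrt_le_iff.2
  refine ⟨by positivity, ?_⟩
  have e : (-2 * ζ * ξ0) ^ 2 + (-2 * ζ * ξ1) ^ 2 + (-2 * ζ * ξ2) ^ 2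
      = 4 * ζ ^ 2 * (ξ0 ^ 2 + ξ1 ^ 2 + ξ2 ^ 2) := by ring
  have e2 : (2 * |ζ| * (|ξ0| + |ξ1| + |ξ2|)) ^ 2 = 4 * ζ ^ 2 * (|ξ0| + |ξ1| + |ξ2|) ^ 2 := by
    rw [mul_pow, mul_pow, sq_abs]; ring
  rw [e, e2]
  have h : ξ0 ^ 2 + ξ1 ^ 2 + ξ2 ^ 2 ≤ (|ξ0| + |ξ1| + |ξ2|) ^ 2 := by
    nlinarith [sq_abs ξ0, sq_abs ξ1, sq_abs ξ2, mul_nonneg (abs_nonneg ξ0) (abs_nonneg ξ1),
      mul_nonneg (abs_nonneg ξ0) (abs_nonneg ξ2), mul_nonneg (abs_nonneg ξ1) (abs_nonneg ξ2)]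
  gcongr

/-- case X: the distinguished direction is x-type -/
lemma DD_nonneg_X {x0 x1 x2 ξ0 ξ1 ξ2 z ζ t S N2 : ℝ} {N ξ : ℝ}
    {v0 v1 v2 w0 w1 w2 u0 u1 u2 g g1 g2 h : ℝ}
    (hu0 : u0 = -2 * ζ * ξ0) (hu1 : u1 = -2 * ζ * ξ1) (hu2 : u2 = -2 * ζ * ξ2)
    (hg : g = 1 + (v0 ^ 2 + v1 ^ 2 + v2 ^ 2)) (hg1 : g1 = 2 * (v0 * w0 + v1 * w1 + v2 * w2))
    (hg2 : g2 = 2 * (w0 ^ 2 + w1 ^ 2 + w2 ^ 2) + 2 * (v0 * u0 + v1 * u1 + v2 * u2))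
    (hh : h = Real.sqrt g)
    (hz : |z| ≤ 1) (hN : 0 ≤ N) (hN2 : N2 = N ^ 2) (hξ : 0 ≤ ξ) (ht : |t| ≤ 910 * N)
    (hS : ξ ^ 2 ≤ S) (hΞ : |ξ0| + |ξ1| + |ξ2| ≤ ξ + 260 * N)
    (hF2 : 1 / 400 * (ξ0 ^ 2 + ξ1 ^ 2 + ξ2 ^ 2) + 2 * (|ξ0 * ξ1| + |ξ0 * ξ2| + |ξ1 * ξ2|)
      ≤ 1 / 400 * ξ ^ 2 + 520 * (N * ξ) + 34000 * N ^ 2) :
    0 ≤ D2 z ζ (ff x0 x1 x2) (ff1 x0 x1 x2 ξ0 ξ1 ξ2) (ff2 x0 x1 x2 ξ0 ξ1 ξ2)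
      (1 / g ^ 2) (-2 * g1 / g ^ 3) (-2 * g2 / g ^ 3 + 6 * g1 ^ 2 / g ^ 4)
      (g2 / (2 * h) - g1 ^ 2 / (4 * h ^ 3)) t S N2 := by
  obtain ⟨A, hA⟩ : ∃ A, A = w0 ^ 2 + w1 ^ 2 + w2 ^ 2 := ⟨_, rfl⟩
  obtain ⟨β, hβ⟩ : ∃ β, β = Real.sqrt (u0 ^ 2 + u1 ^ 2 + u2 ^ 2) := ⟨_, rfl⟩
  obtain ⟨ω, hω⟩ : ∃ ω, ω = Real.sqrt (A / h ^ 3) := ⟨_, rfl⟩
  obtain ⟨b1, ⟨b2, b3⟩, b4, b5, b6⟩ := h_bounds (v0 := v0) (v1 := v1) (v2 := v2) (w0 := w0)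
    (w1 := w1) (w2 := w2) (u0 := u0) (u1 := u1) (u2 := u2) (g := g) (h := h) (A := A) (β := β)
    (ω := ω) hg hh hA hβ hω (g1 := g1) (g2 := g2) hg1 (by rw [hg2, hA])
  have hω0 : 0 ≤ ω := by rw [hω]; exact Real.sqrt_nonneg _
  have hβ0 : 0 ≤ β := by rw [hβ]; exact Real.sqrt_nonneg _
  have hβ1 : β ≤ 2 * |ζ| * (|ξ0| + |ξ1| + |ξ2|) := by
    rw [hβ, hu0, hu1, hu2]; exact beta_le ζ ξ0 ξ1 ξ2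
  have hF2' : -(1 / 400 * ξ ^ 2 + 520 * (N * ξ) + 34000 * N ^ 2) ≤ ff2 x0 x1 x2 ξ0 ξ1 ξ2 := by
    have := ff2_ge x0 x1 x2 ξ0 ξ1 ξ2
    linarith
  have hmain := D2_ge (z := z) (ζ := ζ) (t := t) (S := S) (N2 := N2)
    (F := ff x0 x1 x2) (F1 := ff1 x0 x1 x2 ξ0 ξ1 ξ2) (F2 := ff2 x0 x1 x2 ξ0 ξ1 ξ2)
    hz b2.le b3 (ff_abs x0 x1 x2) (ff1_abs x0 x1 x2 ξ0 ξ1 ξ2)
    (f2 := 1 / 400 * ξ ^ 2 + 520 * (N * ξ) + 34000 * N ^ 2) (by positivity) hF2' b4 b5 b1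
  refine le_trans ?_ hmain
  obtain ⟨D, hD⟩ : ∃ D, D = |t - ζ| := ⟨_, rfl⟩
  obtain ⟨Z, hZ⟩ : ∃ Z, Z = |ζ| := ⟨_, rfl⟩
  have hZ0 : 0 ≤ Z := by rw [hZ]; positivity
  have hD0 : 0 ≤ D := by rw [hD]; positivity
  have hZD : Z ≤ D + 910 * N := by
    have : |ζ| ≤ |t - ζ| + |t| := by
      have := abs_sub_abs_le_abs_sub ζ t
      rw [abs_sub_comm] at this
      linarith
    rw [hZ, hD]; linarith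
  have hq := quadX hZ0 hD0 hN hω0 hξ hZD
  have hD2 : (t - ζ) ^ 2 = D ^ 2 := by rw [hD, sq_abs]
  have hZ2 : ζ ^ 2 = Z ^ 2 := by rw [hZ, sq_abs]
  have hFX : ff x0 x1 x2 * (1 / g ^ 2) ≤ 130000 := by
    have h1 := ff_abs x0 x1 x2
    calc ff x0 x1 x2 * (1 / g ^ 2) ≤ |ff x0 x1 x2| * (1 / g ^ 2) := by
          gcongr; exact le_abs_self _
      _ ≤ 130000 * 1 := by gcongr
      _ = _ := by norm_num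
  rw [hD2, hN2, ← hZ]
  rw [← hZ] at hβ1
  have hFX' : Z ^ 2 * (ff x0 x1 x2 * (1 / g ^ 2)) ≤ Z ^ 2 * 130000 := by gcongr
  have e1 : -2 * ζ ^ 2 * ff x0 x1 x2 * (1 / g ^ 2) = -2 * (Z ^ 2 * (ff x0 x1 x2 * (1 / g ^ 2))) := by
    rw [hZ2]; ring
  rw [e1]
  have i1 : Z * (|ξ0| + |ξ1| + |ξ2|) ≤ Z * (ξ + 260 * N) := by gcongr
  have i2 : (|ξ0| + |ξ1| + |ξ2|) * ω ≤ (ξ + 260 * N) * ω := by gcongr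
  have i3 : β ≤ 2 * Z * (ξ + 260 * N) := by linarith
  have i4 : kK * (ω ^ 2 - 2 * Z * (ξ + 260 * N)) ≤ kK * (ω ^ 2 - β) := by
    have : 0 < kK := by unfold kK; positivity
    gcongr
  linarith

/-- case R: the distinguished direction is r-type -/
lemma DD_nonneg_R {x0 x1 x2 ξ0 ξ1 ξ2 η0 η1 η2 z ζ t S N2 : ℝ} {N ρ c0' c1' c2' : ℝ}
    {v0 v1 v2 w0 w1 w2 u0 u1 u2 g g1 g2 h : ℝ}
    (hw0 : w0 = η0 - (ζ * x0 + z * ξ0)) (hw1 : w1 = η1 - (ζ * x1 + z * ξ1))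
    (hw2 : w2 = η2 - (ζ * x2 + z * ξ2))
    (hu0 : u0 = -2 * ζ * ξ0) (hu1 : u1 = -2 * ζ * ξ1) (hu2 : u2 = -2 * ζ * ξ2)
    (hg : g = 1 + (v0 ^ 2 + v1 ^ 2 + v2 ^ 2)) (hg1 : g1 = 2 * (v0 * w0 + v1 * w1 + v2 * w2))
    (hg2 : g2 = 2 * (w0 ^ 2 + w1 ^ 2 + w2 ^ 2) + 2 * (v0 * u0 + v1 * u1 + v2 * u2))
    (hh : h = Real.sqrt g)
    (hz : |z| ≤ 1) (hN : 0 ≤ N) (hN2 : N2 = N ^ 2) (ht : |t - ρ| ≤ 780 * N)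
    (hS : ρ ^ 2 ≤ S) (hξ0 : |ξ0| ≤ 130 * N) (hξ1 : |ξ1| ≤ 130 * N) (hξ2 : |ξ2| ≤ 130 * N)
    (hη0 : |η0 - c0' * ρ| ≤ 780 * N) (hη1 : |η1 - c1' * ρ| ≤ 780 * N)
    (hη2 : |η2 - c2' * ρ| ≤ 780 * N)
    (hc0 : |c0'| ≤ 1) (hc1 : |c1'| ≤ 1) (hc2 : |c2'| ≤ 1) (hc : ff c0' c1' c2' ≤ 0) :
    0 ≤ D2 z ζ (ff x0 x1 x2) (ff1 x0 x1 x2 ξ0 ξ1 ξ2) (ff2 x0 x1 x2 ξ0 ξ1 ξ2)
      (1 / g ^ 2) (-2 * g1 / g ^ 3) (-2 * g2 / g ^ 3 + 6 * g1 ^ 2 / g ^ 4)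
      (g2 / (2 * h) - g1 ^ 2 / (4 * h ^ 3)) t S N2 := by
  obtain ⟨A, hA⟩ : ∃ A, A = w0 ^ 2 + w1 ^ 2 + w2 ^ 2 := ⟨_, rfl⟩
  obtain ⟨β, hβ⟩ : ∃ β, β = Real.sqrt (u0 ^ 2 + u1 ^ 2 + u2 ^ 2) := ⟨_, rfl⟩
  obtain ⟨ω, hω⟩ : ∃ ω, ω = Real.sqrt (A / h ^ 3) := ⟨_, rfl⟩
  obtain ⟨b1, ⟨b2, b3⟩, b4, b5, b6⟩ := h_bounds (v0 := v0) (v1 := v1) (v2 := v2) (w0 := w0)
    (w1 := w1) (w2 := w2) (u0 := u0) (u1 := u1) (u2 := u2) (g := g) (h := h) (A := A) (β := β)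
    (ω := ω) hg hh hA hβ hω (g1 := g1) (g2 := g2) hg1 (by rw [hg2, hA])
  have hω0 : 0 ≤ ω := by rw [hω]; exact Real.sqrt_nonneg _
  have hβ0 : 0 ≤ β := by rw [hβ]; exact Real.sqrt_nonneg _
  have hβ1 : β ≤ 2 * |ζ| * (|ξ0| + |ξ1| + |ξ2|) := by
    rw [hβ, hu0, hu1, hu2]; exact beta_le ζ ξ0 ξ1 ξ2
  have hsq : ∀ a : ℝ, |a| ≤ 130 * N → a ^ 2 ≤ 16900 * N ^ 2 := by
    intro a ha
    have := pow_le_pow_left₀ (abs_nonneg a) ha 2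
    rw [sq_abs] at this
    linarith
  have hmul : ∀ a b : ℝ, |a| ≤ 130 * N → |b| ≤ 130 * N → |a * b| ≤ 16900 * N ^ 2 := by
    intro a b ha hb
    rw [abs_mul]
    calc |a| * |b| ≤ (130 * N) * (130 * N) := by gcongr
      _ = _ := by ring
  have hF2' : -(102000 * N ^ 2) ≤ ff2 x0 x1 x2 ξ0 ξ1 ξ2 := by
    have := ff2_ge x0 x1 x2 ξ0 ξ1 ξ2
    have s0 := hsq ξ0 hξ0
    have s1 := hsq ξ1 hξ1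
    have s2 := hsq ξ2 hξ2
    have m1 := hmul ξ0 ξ1 hξ0 hξ1
    have m2 := hmul ξ0 ξ2 hξ0 hξ2
    have m3 := hmul ξ1 ξ2 hξ1 hξ2
    linarith [sq_nonneg N]
  have hmain := D2_ge (z := z) (ζ := ζ) (t := t) (S := S) (N2 := N2)
    (F := ff x0 x1 x2) (F1 := ff1 x0 x1 x2 ξ0 ξ1 ξ2) (F2 := ff2 x0 x1 x2 ξ0 ξ1 ξ2)
    hz b2.le b3 (ff_abs x0 x1 x2) (ff1_abs x0 x1 x2 ξ0 ξ1 ξ2)
    (f2 := 102000 * N ^ 2) (by positivity) hF2' b4 b5 b1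
  refine le_trans ?_ hmain
  obtain ⟨D, hD⟩ : ∃ D, D = |t - ζ| := ⟨_, rfl⟩
  obtain ⟨Z, hZ⟩ : ∃ Z, Z = |ζ| := ⟨_, rfl⟩
  have hZ0 : 0 ≤ Z := by rw [hZ]; positivity
  have hD0 : 0 ≤ D := by rw [hD]; positivity
  have hD2 : (t - ζ) ^ 2 = D ^ 2 := by rw [hD, sq_abs]
  have hZ2 : ζ ^ 2 = Z ^ 2 := by rw [hZ, sq_abs]
  have hζρ : |ζ - ρ| ≤ D + 780 * N := by
    have e : ζ - ρ = -(t - ζ) + (t - ρ) := by ring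
    calc |ζ - ρ| = |-(t - ζ) + (t - ρ)| := by rw [← e]
      _ ≤ |-(t - ζ)| + |t - ρ| := abs_add_le _ _
      _ ≤ D + 780 * N := by rw [abs_neg, ← hD]; linarith
  -- Z² ≤ 3(ρ² + D² + 780²N²)
  have hZρ : Z ≤ |ρ| + D + 780 * N := by
    have := abs_sub_abs_le_abs_sub ζ ρ
    rw [hZ]; linarith
  have hSq : Z ^ 2 / 3 - D ^ 2 - 608400 * N ^ 2 ≤ S := by
    have h1 : Z ^ 2 ≤ (|ρ| + D + 780 * N) ^ 2 := by gcongr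
    have h2 : |ρ| ^ 2 = ρ ^ 2 := sq_abs ρ
    nlinarith [sq_nonneg (|ρ| - D), sq_nonneg (|ρ| - 780 * N), sq_nonneg (D - 780 * N)]
  -- coordinates
  have hcoord : ∀ x ξ η c : ℝ, |ξ| ≤ 130 * N → |η - c * ρ| ≤ 780 * N → |c| ≤ 1 →
      Z * |x - c| ≤ |η - (ζ * x + z * ξ)| + D + 1690 * N := by
    intro x ξ η c h1 h2 h3
    have e : ζ * (x - c) = -(η - (ζ * x + z * ξ)) + (η - c * ρ) + (-(z * ξ)) + (-(c * (ζ - ρ))) := by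
      ring
    have hzx : |z * ξ| ≤ 130 * N := by
      rw [abs_mul]
      calc |z| * |ξ| ≤ 1 * (130 * N) := by gcongr
        _ = _ := by ring
    have hcc : |c * (ζ - ρ)| ≤ D + 780 * N := by
      rw [abs_mul]
      calc |c| * |ζ - ρ| ≤ 1 * (D + 780 * N) := by gcongr
        _ = _ := by ring
    calc Z * |x - c| = |ζ * (x - c)| := by rw [abs_mul, hZ]
      _ = |-(η - (ζ * x + z * ξ)) + (η - c * ρ) + (-(z * ξ)) + (-(c * (ζ - ρ)))| := by rw [e]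
      _ ≤ |-(η - (ζ * x + z * ξ)) + (η - c * ρ) + (-(z * ξ))| + |-(c * (ζ - ρ))| := abs_add_le _ _
      _ ≤ |-(η - (ζ * x + z * ξ)) + (η - c * ρ)| + |-(z * ξ)| + |-(c * (ζ - ρ))| := by
          gcongr; exact abs_add_le _ _
      _ ≤ |-(η - (ζ * x + z * ξ))| + |η - c * ρ| + |-(z * ξ)| + |-(c * (ζ - ρ))| := by
          gcongr; exact abs_add_le _ _
      _ ≤ _ := by rw [abs_neg, abs_neg, abs_neg]; linarith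
  have k0 := hcoord x0 ξ0 η0 c0' hξ0 hη0 hc0
  have k1 := hcoord x1 ξ1 η1 c1' hξ1 hη1 hc1
  have k2 := hcoord x2 ξ2 η2 c2' hξ2 hη2 hc2
  rw [← hw0] at k0
  rw [← hw1] at k1
  rw [← hw2] at k2
  have hff : ff x0 x1 x2 ≤ 2 * (|x0 - c0'| + |x1 - c1'| + |x2 - c2'|) := by
    have := ff_lip x0 x1 x2 c0' c1' c2'
    rw [abs_le] at this
    linarith [this.2]
  have hFX : ζ ^ 2 * (ff x0 x1 x2 * (1 / g ^ 2)) ≤ 2 * Z * (2 * ω + 3 * D + 5070 * N) := by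
    have a1 : Z * ff x0 x1 x2 ≤ 2 * ((|w0| + |w1| + |w2|) + (3 * D + 5070 * N)) := by
      calc Z * ff x0 x1 x2 ≤ Z * (2 * (|x0 - c0'| + |x1 - c1'| + |x2 - c2'|)) := by gcongr
        _ = 2 * (Z * |x0 - c0'| + Z * |x1 - c1'| + Z * |x2 - c2'|) := by ring
        _ ≤ _ := by linarith
    calc ζ ^ 2 * (ff x0 x1 x2 * (1 / g ^ 2)) = Z * ((1 / g ^ 2) * (Z * ff x0 x1 x2)) := by
          rw [hZ2]; ring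
      _ ≤ Z * ((1 / g ^ 2) * (2 * ((|w0| + |w1| + |w2|) + (3 * D + 5070 * N)))) := by gcongr
      _ = 2 * Z * ((1 / g ^ 2) * (|w0| + |w1| + |w2|) + (1 / g ^ 2) * (3 * D + 5070 * N)) := by ring
      _ ≤ 2 * Z * (2 * ω + 1 * (3 * D + 5070 * N)) := by gcongr
      _ = _ := by ring
  have hq := quadR hZ0 hD0 hN hω0
  rw [hD2, hN2, ← hZ]
  rw [← hZ] at hβ1
  have hΞ : |ξ0| + |ξ1| + |ξ2| ≤ 390 * N := by linarith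
  have e1 : -2 * ζ ^ 2 * ff x0 x1 x2 * (1 / g ^ 2) = -2 * (ζ ^ 2 * (ff x0 x1 x2 * (1 / g ^ 2))) := by
    ring
  rw [e1]
  have i1 : Z * (|ξ0| + |ξ1| + |ξ2|) ≤ Z * (390 * N) := by gcongr
  have i2 : (|ξ0| + |ξ1| + |ξ2|) * ω ≤ (390 * N) * ω := by gcongr
  have i3 : β ≤ 780 * Z * N := by linarith
  have i4 : kK * (ω ^ 2 - 780 * Z * N) ≤ kK * (ω ^ 2 - β) := by
    have : 0 < kK := by unfold kK; positivity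
    gcongr
  linarith

end

end Pool.Agent.Lib.MP0febd9
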