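import Pool.Agent.Lib.MP_0febd9_an.Lower3

set_option autoImplicit false

namespace Pool.Agent.Lib.MP0febd9

noncomputable section

open Matrix

lemma pp_add (i : Fin 10) (F A : Mat) : pp i (F + A) = pp i F + pp i A := by
  have := pp_add_smul i F A 1
  simpa using this

lemma pp_smul (i : Fin 10) (A : Mat) (t : ℝ) : pp i (t • A) = t * pp i A := by
  unfold pp
  simp only [Matrix.smul_apply, smul_eq_mul]
  ring

lemma pq_add (i : Fin 10) (F A : Mat) : pq i (F + A) = pq i F + pq i A := by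
  have := pq_add_smul i F A 1
  simpa using this

lemma pq_smul (i : Fin 10) (A : Mat) (t : ℝ) : pq i (t • A) = t * pq i A := by
  unfold pq
  simp only [Matrix.smul_apply, smul_eq_mul]
  ring

lemma ss_add (F A : Mat) : ss (F + A) = ss F + ss A := by
  have := ss_add_smul F A 1
  simpa using this

lemma ss_smul (A : Mat) (t : ℝ) : ss (t • A) = t * ss A := by
  unfold ss
  simp only [pp_smul, Finset.mul_sum]

lemma yy_add (j : Fin 3) (F A : Mat) : yy j (F + A) = yy j F + yy j A := by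
  have := yy_add_smul j F A 1
  simpa using this

lemma yy_smul (j : Fin 3) (A : Mat) (t : ℝ) : yy j (t • A) = t * yy j A := by
  unfold yy
  simp only [pp_smul, Finset.mul_sum]
  apply Finset.sum_congr rfl
  intro k _
  ring

/-- the symmetric bilinear form of the quadratic part of `Wq σ` -/
def Bf (σ : ℝ) (A B : Mat) : ℝ :=
  kK / 2 * (∑ j, (pp (ix j) A - σ * yy j A) * (pp (ix j) B - σ * yy j B)) + kL * (ss A * ss B)
    + 3 / 1000 * (∑ i, pp i A * pp i B) + kQ * (∑ i, pq i A * pq i B)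

lemma Bf_comm (σ : ℝ) (A B : Mat) : Bf σ A B = Bf σ B A := by
  unfold Bf
  simp only [mul_comm]

lemma Bf_add_left (σ : ℝ) (A A' B : Mat) : Bf σ (A + A') B = Bf σ A B + Bf σ A' B := by
  unfold Bf
  simp only [pp_add, pq_add, ss_add, yy_add, add_mul, sub_mul, mul_add, Finset.sum_add_distrib,
    Finset.sum_sub_distrib]
  ring

lemma Bf_smul_left (σ : ℝ) (t : ℝ) (A B : Mat) : Bf σ (t • A) B = t * Bf σ A B := by
  unfold Bf
  simp only [pp_smul, pq_smul, ss_smul, yy_smul]
  have e1 : ∀ j : Fin 3, (t * pp (ix j) A - σ * (t * yy j A)) * (pp (ix j) B - σ * yy j B)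
      = t * ((pp (ix j) A - σ * yy j A) * (pp (ix j) B - σ * yy j B)) := fun j => by ring
  have e2 : ∀ i : Fin 10, t * pp i A * pp i B = t * (pp i A * pp i B) := fun i => by ring
  have e3 : ∀ i : Fin 10, t * pq i A * pq i B = t * (pq i A * pq i B) := fun i => by ring
  simp only [e1, e2, e3, ← Finset.mul_sum]
  ring

/-- bilinear map version -/
def BL (σ : ℝ) : Mat →ₗ[ℝ] Mat →ₗ[ℝ] ℝ :=
  LinearMap.mk₂ ℝ (Bf σ) (Bf_add_left σ) (fun c A B => by rw [Bf_smul_left, smul_eq_mul])
    (fun A B B' => by rw [Bf_comm, Bf_add_left, Bf_comm σ B, Bf_comm σ B'])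
    (fun c A B => by rw [Bf_comm, Bf_smul_left, Bf_comm σ B, smul_eq_mul])

lemma BL_apply (σ : ℝ) (A B : Mat) : BL σ A B = Bf σ A B := rfl

/-- the linear map representing the form -/
def LL (σ : ℝ) : Mat →ₗ[ℝ] Mat where
  toFun B := Matrix.of fun r i => Bf σ (Matrix.single r i 1) B
  map_add' B B' := by
    ext r i
    simp only [Matrix.of_apply, Matrix.add_apply, ← BL_apply, map_add]
  map_smul' c B := by
    ext r i
    simp only [Matrix.of_apply, Matrix.smul_apply, ← BL_apply, map_smul, RingHom.id_apply]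

lemma trace_mul_transpose (A B : Mat) : Matrix.trace (A * Bᵀ) = ∑ r, ∑ i, A r i * B r i := by
  simp [Matrix.trace, Matrix.mul_apply]

lemma trace_of_linear (φ : Mat →ₗ[ℝ] ℝ) (A : Mat) :
    Matrix.trace (A * (Matrix.of fun r i => φ (Matrix.single r i 1))ᵀ) = φ A := by
  rw [trace_mul_transpose]
  conv_rhs => rw [Matrix.matrix_eq_sum_single A]
  rw [map_sum]
  apply Finset.sum_congr rfl
  intro r _
  rw [map_sum]
  apply Finset.sum_congr rfl
  intro i _
  have : Matrix.single r i (A r i) = A r i • (Matrix.single r i (1 : ℝ) : Mat) := by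
    rw [Matrix.smul_single, smul_eq_mul, mul_one]
  rw [this, map_smul, Matrix.of_apply, smul_eq_mul]

lemma trace_LL (σ : ℝ) (A B : Mat) : Matrix.trace (A * (LL σ B)ᵀ) = Bf σ A B := by
  have := trace_of_linear ((BL σ).flip B) A
  exact this

lemma Bf_pos (σ : ℝ) (A : Mat) (hA : A ≠ 0) : 0 < Bf σ A A := by
  have hk : 0 < kK := by unfold kK; positivity
  have hl : 0 < kL := by unfold kL; positivity
  have hq : 0 < kQ := by unfold kQ; positivity
  have h1 : 0 ≤ ∑ j, (pp (ix j) A - σ * yy j A) * (pp (ix j) A - σ * yy j A) :=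
    Finset.sum_nonneg fun i _ => mul_self_nonneg _
  have h2 : 0 ≤ ss A * ss A := mul_self_nonneg _
  have h3 : 0 ≤ ∑ i, pp i A * pp i A := Finset.sum_nonneg fun i _ => mul_self_nonneg _
  have h4 : 0 ≤ ∑ i, pq i A * pq i A := Finset.sum_nonneg fun i _ => mul_self_nonneg _
  have h1' := mul_nonneg (by positivity : 0 ≤ kK / 2) h1
  have h2' := mul_nonneg hl.le h2
  have h3' := mul_nonneg (by norm_num : (0 : ℝ) ≤ 3 / 1000) h3
  have h4' := mul_nonneg hq.le h4
  by_contra hcon
  push Not at hcon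
  unfold Bf at hcon
  have z3 : 3 / 1000 * ∑ i, pp i A * pp i A = 0 := by linarith
  have z4 : kQ * ∑ i, pq i A * pq i A = 0 := by linarith
  have z3' : ∑ i, pp i A * pp i A = 0 := by linarith
  have z4' : ∑ i, pq i A * pq i A = 0 := by
    rcases mul_eq_zero.1 z4 with h | h
    · exact absurd h hq.ne'
    · exact h
  rw [Finset.sum_eq_zero_iff_of_nonneg (fun i _ => mul_self_nonneg _)] at z3' z4'
  apply hA
  ext r i
  have hp := mul_self_eq_zero.1 (z3' i (Finset.mem_univ i))
  have hqq := mul_self_eq_zero.1 (z4' i (Finset.mem_univ i))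
  have hn := nn_pos i
  unfold pp at hp
  unfold pq at hqq
  rw [div_eq_zero_iff] at hp hqq
  have hp' := hp.resolve_right hn.ne'
  have hq' := hqq.resolve_right hn.ne'
  have hnn : (nn i : ℝ) = (d1 i : ℝ) ^ 2 + (d2 i : ℝ) ^ 2 := by unfold nn; push_cast; ring
  have e0 : (nn i : ℝ) * A 0 i = 0 := by
    rw [hnn]; linear_combination (d1 i : ℝ) * hp' - (d2 i : ℝ) * hq'
  have e1 : (nn i : ℝ) * A 1 i = 0 := by
    rw [hnn]; linear_combination (d2 i : ℝ) * hp' + (d1 i : ℝ) * hq'
  fin_cases r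
  · exact (mul_eq_zero.1 e0).resolve_left hn.ne'
  · exact (mul_eq_zero.1 e1).resolve_left hn.ne'

lemma LL_surj (σ : ℝ) : Function.Surjective (LL σ) := by
  have hinj : Function.Injective (LL σ) := by
    rw [← LinearMap.ker_eq_bot, LinearMap.ker_eq_bot']
    intro B hB
    by_contra hne
    have h1 := Bf_pos σ B hne
    rw [← trace_LL, hB] at h1
    simp at h1
  exact LinearMap.surjective_of_injective hinj

/-- `ss` as a linear map -/
def ssL : Mat →ₗ[ℝ] ℝ where
  toFun := ss
  map_add' := ss_add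
  map_smul' c A := by rw [ss_smul]; rfl

theorem exists_repr (σ : ℝ) : ∃ (F' : Mat) (k : ℝ), ∀ H : Mat,
    Matrix.trace ((H - F') * (LL σ (H - F'))ᵀ) + k = Wq σ H := by
  obtain ⟨F', hF'⟩ := LL_surj σ (Matrix.of fun r i => ((σ * kL) • ssL) (Matrix.single r i 1))
  have hrep : ∀ A, Bf σ A F' = σ * kL * ss A := by
    intro A
    rw [← trace_LL, hF', trace_of_linear]
    rfl
  refine ⟨F', kL * σ ^ 2 - Bf σ F' F', fun H => ?_⟩
  rw [trace_LL]
  have e : Bf σ (H - F') (H - F') = Bf σ H H - 2 * Bf σ H F' + Bf σ F' F' := by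
    have h1 : BL σ (H - F') (H - F') = BL σ H H - BL σ H F' - (BL σ F' H - BL σ F' F') := by
      simp only [map_sub, LinearMap.sub_apply]
      ring
    rw [BL_apply, BL_apply, BL_apply, BL_apply, BL_apply, Bf_comm σ F' H] at h1
    rw [h1]; ring
  rw [e, hrep H]
  unfold Bf Wq
  simp only [sq]
  ring

lemma Wq_nonneg (σ : ℝ) (F : Mat) : 0 ≤ Wq σ F := by
  have hk : 0 < kK := by unfold kK; positivity
  have hl : 0 < kL := by unfold kL; positivity
  have hq : 0 < kQ := by unfold kQ; positivity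
  have h1 : 0 ≤ ∑ j, (pp (ix j) F - σ * yy j F) ^ 2 := Finset.sum_nonneg fun i _ => sq_nonneg _
  have h3 : 0 ≤ ∑ i, (pp i F) ^ 2 := Finset.sum_nonneg fun i _ => sq_nonneg _
  have h4 : 0 ≤ ∑ i, (pq i F) ^ 2 := Finset.sum_nonneg fun i _ => sq_nonneg _
  have h2 : 0 ≤ (ss F - σ) ^ 2 := sq_nonneg _
  have h1' := mul_nonneg (by positivity : 0 ≤ kK / 2) h1
  have h2' := mul_nonneg hl.le h2
  have h3' := mul_nonneg (by norm_num : (0 : ℝ) ≤ 3 / 1000) h3
  have h4' := mul_nonneg hq.le h4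
  unfold Wq
  linarith

end

end Pool.Agent.Lib.MP0febd9
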