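import Mathlib

set_option autoImplicit false

namespace Pool.Agent.Lib.MP0febd9

noncomputable section

/-- `hh δ t = sqrt (t^2 + δ^2)`. -/
def hh (δ t : ℝ) : ℝ := Real.sqrt (t ^ 2 + δ ^ 2)

/-- smooth positive part -/
def P (δ t : ℝ) : ℝ := (t + hh δ t) / 2

/-- derivative of `P` -/
def P1 (δ t : ℝ) : ℝ := (1 + t / hh δ t) / 2

/-- second derivative of `P` -/
def P2 (δ t : ℝ) : ℝ := δ ^ 2 / (2 * (hh δ t) ^ 3)

lemma hh_sq (δ t : ℝ) : hh δ t ^ 2 = t ^ 2 + δ ^ 2 := by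
  unfold hh
  exact Real.sq_sqrt (by positivity)

lemma hh_pos {δ : ℝ} (hδ : 0 < δ) (t : ℝ) : 0 < hh δ t := by
  unfold hh
  exact Real.sqrt_pos.2 (by positivity)

lemma hh_ge_abs (δ t : ℝ) : |t| ≤ hh δ t := by
  unfold hh
  rw [← Real.sqrt_sq_eq_abs]
  exact Real.sqrt_le_sqrt (by nlinarith [sq_nonneg δ])

lemma hh_ge {δ : ℝ} (_hδ : 0 < δ) (t : ℝ) : δ ≤ hh δ t := by
  unfold hh
  apply Real.le_sqrt_of_sq_le
  nlinarith [sq_nonneg t]

lemma hasDerivAt_hh {δ : ℝ} (hδ : 0 < δ) (t : ℝ) : HasDerivAt (hh δ) (t / hh δ t) t := by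
  have h1 : HasDerivAt (fun s : ℝ => s ^ 2 + δ ^ 2) (2 * t) t := by
    have := ((hasDerivAt_pow 2 t).add_const (δ ^ 2))
    simpa using this
  have h2 := h1.sqrt (by positivity)
  unfold hh
  refine h2.congr_deriv ?_
  field_simp

lemma hasDerivAt_P {δ : ℝ} (hδ : 0 < δ) (t : ℝ) : HasDerivAt (P δ) (P1 δ t) t := by
  have := ((hasDerivAt_id t).add (hasDerivAt_hh hδ t)).div_const 2
  exact this

lemma hasDerivAt_P1 {δ : ℝ} (hδ : 0 < δ) (t : ℝ) : HasDerivAt (P1 δ) (P2 δ t) t := by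
  have hp := hh_pos hδ t
  have h := (((hasDerivAt_id t).div (hasDerivAt_hh hδ t) hp.ne').const_add 1).div_const 2
  have h' : HasDerivAt (P1 δ) ((1 * hh δ t - id t * (t / hh δ t)) / hh δ t ^ 2 / 2) t := h
  refine h'.congr_deriv ?_
  unfold P2
  have hs := hh_sq δ t
  simp only [id, one_mul]
  field_simp
  nlinarith

lemma P1_mem {δ : ℝ} (hδ : 0 < δ) (t : ℝ) : 0 ≤ P1 δ t ∧ P1 δ t ≤ 1 := by
  have hp := hh_pos hδ t
  have ha := hh_ge_abs δ t
  have h1 := neg_abs_le t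
  have h2 := le_abs_self t
  unfold P1
  constructor
  · have : -1 ≤ t / hh δ t := by
      rw [le_div_iff₀ hp]; linarith
    linarith
  · have : t / hh δ t ≤ 1 := by
      rw [div_le_one hp]; linarith
    linarith

lemma P2_nonneg {δ : ℝ} (hδ : 0 < δ) (t : ℝ) : 0 ≤ P2 δ t := by
  unfold P2
  have := hh_pos hδ t
  positivity

lemma P2_le {δ : ℝ} (hδ : 0 < δ) (t : ℝ) : P2 δ t ≤ 1 / (2 * δ) := by
  unfold P2
  have h := hh_ge hδ t
  have hp := hh_pos hδ t
  rw [div_le_div_iff₀ (by positivity) (by positivity)]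
  have h3 : δ ^ 3 ≤ hh δ t ^ 3 := by gcongr
  nlinarith

lemma P_mono {δ : ℝ} (hδ : 0 < δ) : Monotone (P δ) := by
  apply monotone_of_deriv_nonneg
  · intro t; exact (hasDerivAt_P hδ t).differentiableAt
  · intro t; rw [(hasDerivAt_P hδ t).deriv]; exact (P1_mem hδ t).1

lemma P_nonneg (δ t : ℝ) : 0 ≤ P δ t := by
  have ha := hh_ge_abs δ t
  have h1 := neg_abs_le t
  unfold P
  linarith

lemma P_ge_self (δ t : ℝ) : t ≤ P δ t := by
  have ha := hh_ge_abs δ t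
  have h1 := le_abs_self t
  unfold P
  linarith

/-- `P δ s - s` is nonincreasing. -/
lemma P_sub_anti {δ : ℝ} (hδ : 0 < δ) : Antitone (fun s => P δ s - s) := by
  apply antitone_of_deriv_nonpos
  · intro t; exact ((hasDerivAt_P hδ t).sub (hasDerivAt_id t)).differentiableAt
  · intro t
    have h : HasDerivAt (fun s => P δ s - s) (P1 δ t - 1) t :=
      (hasDerivAt_P hδ t).sub (hasDerivAt_id t)
    rw [h.deriv]
    linarith [(P1_mem hδ t).2]

lemma P_zero {δ : ℝ} (hδ : 0 < δ) : P δ 0 = δ / 2 := by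
  unfold P hh
  rw [show (0 : ℝ) ^ 2 + δ ^ 2 = δ ^ 2 by ring, Real.sqrt_sq hδ.le]
  ring

/-- bound for negative arguments -/
lemma P_neg_le {δ a : ℝ} (_hδ : 0 < δ) (ha : 0 < a) : P δ (-a) ≤ δ ^ 2 / (4 * a) := by
  have hs := hh_sq δ (-a)
  have hge := hh_ge_abs δ (-a)
  rw [abs_neg, abs_of_pos ha] at hge
  unfold P
  rw [div_le_div_iff₀ (by norm_num) (by positivity)]
  nlinarith

/-- lower bound for negative arguments -/
lemma P_neg_ge {δ a : ℝ} (hδ : 0 < δ) (ha : 0 < a) :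
    δ ^ 2 / (4 * a + δ ^ 2 / a) ≤ P δ (-a) := by
  -- hh ≤ a + δ^2/(2a)
  have hs := hh_sq δ (-a)
  have hp := hh_pos hδ (-a)
  have h1 : hh δ (-a) ≤ a + δ ^ 2 / (2 * a) := by
    have h0 : 0 ≤ a + δ ^ 2 / (2 * a) := by positivity
    apply le_of_sq_le_sq _ h0
    rw [hs]
    have : (a + δ ^ 2 / (2 * a)) ^ 2 = a ^ 2 + δ ^ 2 + (δ ^ 2 / (2 * a)) ^ 2 := by
      field_simp
      ring
    rw [this]
    nlinarith [sq_nonneg (δ ^ 2 / (2 * a))]
  have h2 : (hh δ (-a) - a) * (hh δ (-a) + a) = δ ^ 2 := by nlinarith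
  unfold P
  rw [div_le_iff₀ (by positivity)]
  have h3 : 4 * a + δ ^ 2 / a = 2 * (2 * a + δ ^ 2 / (2 * a)) := by
    field_simp
    ring
  rw [h3]
  have h4 : 0 ≤ hh δ (-a) - a := by
    have := hh_ge_abs δ (-a)
    rw [abs_neg, abs_of_pos ha] at this
    linarith
  nlinarith [mul_le_mul_of_nonneg_left (show hh δ (-a) + a ≤ 2 * a + δ ^ 2 / (2 * a) by linarith) h4]

/-! ### The functions `T` and `R` -/

/-- smooth clamp -/
def T (t : ℝ) : ℝ := P (1 / 1000) t - P (1 / 1000) (t - 1)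
/-- derivative of `T` -/
def T1 (t : ℝ) : ℝ := P1 (1 / 1000) t - P1 (1 / 1000) (t - 1)
/-- second derivative of `T` -/
def T2 (t : ℝ) : ℝ := P2 (1 / 1000) t - P2 (1 / 1000) (t - 1)

/-- bounded compensator -/
def R (t : ℝ) : ℝ := P (1 / 1000) (t - 1) - P 200 (t - 40000)
/-- derivative of `R` -/
def R1 (t : ℝ) : ℝ := P1 (1 / 1000) (t - 1) - P1 200 (t - 40000)
/-- second derivative of `R` -/
def R2 (t : ℝ) : ℝ := P2 (1 / 1000) (t - 1) - P2 200 (t - 40000)

lemma hasDerivAt_P_sub {δ : ℝ} (hδ : 0 < δ) (c t : ℝ) :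
    HasDerivAt (fun s => P δ (s - c)) (P1 δ (t - c)) t := by
  have h := (hasDerivAt_P hδ (t - c)).comp t ((hasDerivAt_id t).sub_const c)
  simpa [Function.comp_def] using h

lemma hasDerivAt_P1_sub {δ : ℝ} (hδ : 0 < δ) (c t : ℝ) :
    HasDerivAt (fun s => P1 δ (s - c)) (P2 δ (t - c)) t := by
  have h := (hasDerivAt_P1 hδ (t - c)).comp t ((hasDerivAt_id t).sub_const c)
  simpa [Function.comp_def] using h

lemma hasDerivAt_T (t : ℝ) : HasDerivAt T (T1 t) t :=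
  (hasDerivAt_P (by norm_num) t).sub (hasDerivAt_P_sub (by norm_num) 1 t)

lemma hasDerivAt_T1 (t : ℝ) : HasDerivAt T1 (T2 t) t :=
  (hasDerivAt_P1 (by norm_num) t).sub (hasDerivAt_P1_sub (by norm_num) 1 t)

lemma hasDerivAt_R (t : ℝ) : HasDerivAt R (R1 t) t :=
  (hasDerivAt_P_sub (by norm_num) 1 t).sub (hasDerivAt_P_sub (by norm_num) 40000 t)

lemma hasDerivAt_R1 (t : ℝ) : HasDerivAt R1 (R2 t) t :=
  (hasDerivAt_P1_sub (by norm_num) 1 t).sub (hasDerivAt_P1_sub (by norm_num) 40000 t)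

lemma T_nonneg (t : ℝ) : 0 ≤ T t := by
  have := P_mono (δ := 1 / 1000) (by norm_num) (show t - 1 ≤ t by linarith)
  unfold T; linarith

lemma T_le_one (t : ℝ) : T t ≤ 1 := by
  have := P_sub_anti (δ := 1 / 1000) (by norm_num) (show t - 1 ≤ t by linarith)
  simp only at this
  unfold T; linarith

lemma T1_abs (t : ℝ) : |T1 t| ≤ 1 := by
  have h1 := P1_mem (δ := 1 / 1000) (by norm_num) t
  have h2 := P1_mem (δ := 1 / 1000) (by norm_num) (t - 1)
  unfold T1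
  rw [abs_le]; constructor <;> linarith

lemma R1_abs (t : ℝ) : |R1 t| ≤ 1 := by
  have h1 := P1_mem (δ := 1 / 1000) (by norm_num) (t - 1)
  have h2 := P1_mem (δ := 200) (by norm_num) (t - 40000)
  unfold R1
  rw [abs_le]; constructor <;> linarith

/-- the crucial compensation inequality -/
lemma TR2 {p : ℝ} (hp0 : 0 ≤ p) (hp1 : p ≤ 1) (t : ℝ) : -(1 / 400) ≤ p * T2 t + R2 t := by
  have h1 := P2_nonneg (δ := 1 / 1000) (by norm_num) t
  have h2 := P2_nonneg (δ := 1 / 1000) (by norm_num) (t - 1)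
  have h3 := P2_le (δ := 200) (by norm_num) (t - 40000)
  unfold T2 R2
  have h4 : 0 ≤ p * P2 (1 / 1000) t := mul_nonneg hp0 h1
  have h5 : 0 ≤ (1 - p) * P2 (1 / 1000) (t - 1) := mul_nonneg (by linarith) h2
  nlinarith

lemma P_le {δ : ℝ} (hδ : 0 < δ) (t : ℝ) : P δ t ≤ max t 0 + δ / 2 := by
  rcases le_total t 0 with h | h
  · rw [max_eq_right h]
    have := P_mono hδ h
    rw [P_zero hδ] at this
    linarith
  · rw [max_eq_left h]
    have := P_sub_anti hδ h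
    simp only [P_zero hδ] at this
    linarith

lemma P_ge {δ : ℝ} (t : ℝ) : max t 0 ≤ P δ t :=
  max_le (P_ge_self δ t) (P_nonneg δ t)

lemma R_abs (t : ℝ) : |R t| ≤ 40000 := by
  have h1 := P_le (δ := 1 / 1000) (by norm_num) (t - 1)
  have h2 := P_ge (δ := 1 / 1000) (t - 1)
  have h3 := P_le (δ := 200) (by norm_num) (t - 40000)
  have h4 := P_ge (δ := 200) (t - 40000)
  have h5 : max (t - 40000) 0 ≤ max (t - 1) 0 := max_le_max (by linarith) le_rfl
  have h6 : max (t - 1) 0 ≤ max (t - 40000) 0 + 39999 := by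
    apply max_le
    · linarith [le_max_left (t - 40000) 0]
    · linarith [le_max_right (t - 40000) 0]
  unfold R
  rw [abs_le]; constructor <;> linarith

/-- normalising constant -/
def c0 : ℝ := 1 / 500 - 3 * P 200 (-40000)

lemma R_zero_le : R 0 ≤ 1 / 2000 - P 200 (-40000) := by
  have h1 := P_mono (δ := 1 / 1000) (by norm_num) (show (0 : ℝ) - 1 ≤ 0 by norm_num)
  rw [P_zero (by norm_num)] at h1
  unfold R
  rw [show (0 : ℝ) - 40000 = -40000 by norm_num]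
  linarith

lemma R_one_le : R 1 ≤ 1 / 2000 - P 200 (-40000) := by
  have h1 : P 200 (-40000) ≤ P 200 (1 - 40000) :=
    P_mono (δ := 200) (by norm_num) (show (-40000 : ℝ) ≤ 1 - 40000 by norm_num)
  have h2 : P (1 / 1000) 0 = (1 / 1000) / 2 := P_zero (by norm_num)
  have h3 : R 1 = P (1 / 1000) 0 - P 200 (1 - 40000) := by
    unfold R
    rw [sub_self]
  rw [h3, h2]
  generalize P 200 (1 - 40000) = a at *
  generalize P 200 (-40000) = b at *
  linarith

lemma T_zero_le : T 0 ≤ 1 / 2000 := by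
  have h := P_nonneg (1 / 1000) (0 - 1)
  unfold T
  rw [P_zero (by norm_num)]
  linarith

lemma R_ge {p : ℝ} (hp1 : p ≤ 1) : -P 200 (-40000) - 1 / 60000 ≤ R p := by
  have h0 := P_nonneg (1 / 1000) (p - 1)
  have h1 : P 200 (p - 40000) ≤ P 200 (-39999) := P_mono (by norm_num) (by linarith)
  have h2 := P_neg_le (δ := 200) (a := 39999) (by norm_num) (by norm_num)
  have h3 := P_neg_ge (δ := 200) (a := 40000) (by norm_num) (by norm_num)
  unfold R
  norm_num at h2 h3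
  linarith

lemma T_ge {p : ℝ} (_hp0 : 0 ≤ p) (hp1 : p ≤ 1 / 2) : p - 1 / 1000000 ≤ T p := by
  have h0 := P_ge_self (1 / 1000) p
  have h1 : P (1 / 1000) (p - 1) ≤ P (1 / 1000) (-(1 / 2)) :=
    P_mono (by norm_num) (by linarith)
  have h2 := P_neg_le (δ := 1 / 1000) (a := 1 / 2) (by norm_num) (by norm_num)
  unfold T
  norm_num at h2 h1 ⊢
  linarith

end

end Pool.Agent.Lib.MP0febd9
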