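import Mathlib

set_option autoImplicit false

namespace Pool.Agent.Lib.MP0febd9

noncomputable section

open Real MeasureTheory Filter Topology

/-- smoothed 0/1 wave -/
def Xw (δ t : ℝ) : ℝ := Real.smoothTransition ((Real.cos (2 * π * t) - 1 / 2) / δ)

/-- smoothed half wave -/
def Hw (δ t : ℝ) : ℝ := Real.smoothTransition (Real.cos (2 * π * t) / δ)

/-- smoothed square wave with values in [-1,1] -/
def Sw (δ t : ℝ) : ℝ := Hw δ t - Hw δ (t + 1 / 2)

lemma cos_periodic1 (t : ℝ) : Real.cos (2 * π * (t + 1)) = Real.cos (2 * π * t) := by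
  rw [show 2 * π * (t + 1) = 2 * π * t + 2 * π by ring, Real.cos_add_two_pi]

lemma cos_half (t : ℝ) : Real.cos (2 * π * (t + 1 / 2)) = -Real.cos (2 * π * t) := by
  rw [show 2 * π * (t + 1 / 2) = 2 * π * t + π by ring, Real.cos_add_pi]

lemma Xw_contDiff (δ : ℝ) : ContDiff ℝ ((⊤ : ℕ∞) : WithTop ℕ∞) (Xw δ) := by
  unfold Xw
  apply Real.smoothTransition.contDiff.comp
  fun_prop

lemma Hw_contDiff (δ : ℝ) : ContDiff ℝ ((⊤ : ℕ∞) : WithTop ℕ∞) (Hw δ) := by
  unfold Hw
  apply Real.smoothTransition.contDiff.comp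
  fun_prop

lemma Sw_contDiff (δ : ℝ) : ContDiff ℝ ((⊤ : ℕ∞) : WithTop ℕ∞) (Sw δ) := by
  unfold Sw
  apply (Hw_contDiff δ).sub
  exact (Hw_contDiff δ).comp (contDiff_id.add contDiff_const)

lemma Xw_periodic (δ : ℝ) : Function.Periodic (Xw δ) 1 := by
  intro t
  unfold Xw
  rw [cos_periodic1]

lemma Hw_periodic (δ : ℝ) : Function.Periodic (Hw δ) 1 := by
  intro t
  unfold Hw
  rw [cos_periodic1]

lemma Sw_periodic (δ : ℝ) : Function.Periodic (Sw δ) 1 := by
  intro t
  unfold Sw
  rw [Hw_periodic δ t, show t + 1 + 1 / 2 = (t + 1 / 2) + 1 by ring, Hw_periodic δ]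

lemma Xw_nonneg (δ t : ℝ) : 0 ≤ Xw δ t := Real.smoothTransition.nonneg _
lemma Xw_le_one (δ t : ℝ) : Xw δ t ≤ 1 := Real.smoothTransition.le_one _
lemma Hw_nonneg (δ t : ℝ) : 0 ≤ Hw δ t := Real.smoothTransition.nonneg _
lemma Hw_le_one (δ t : ℝ) : Hw δ t ≤ 1 := Real.smoothTransition.le_one _

lemma Sw_abs (δ t : ℝ) : |Sw δ t| ≤ 1 := by
  have h1 := Hw_nonneg δ t
  have h2 := Hw_le_one δ t
  have h3 := Hw_nonneg δ (t + 1 / 2)
  have h4 := Hw_le_one δ (t + 1 / 2)
  unfold Sw
  rw [abs_le]; constructor <;> linarith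

lemma Xw_mem {δ : ℝ} (hδ : 0 < δ) (t : ℝ) (h : ¬ |Real.cos (2 * π * t) - 1 / 2| < δ) :
    Xw δ t = 0 ∨ Xw δ t = 1 := by
  rw [not_lt] at h
  unfold Xw
  rcases le_total (Real.cos (2 * π * t) - 1 / 2) 0 with h0 | h0
  · left
    apply Real.smoothTransition.zero_of_nonpos
    exact div_nonpos_of_nonpos_of_nonneg h0 hδ.le
  · right
    apply Real.smoothTransition.one_of_one_le
    rw [abs_of_nonneg h0] at h
    rw [le_div_iff₀ hδ]; linarith

lemma Xw_pos {δ : ℝ} (hδ : 0 < δ) {t : ℝ} (h : Xw δ t ≠ 0) : 1 / 2 < Real.cos (2 * π * t) := by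
  by_contra hcon
  rw [not_lt] at hcon
  apply h
  unfold Xw
  apply Real.smoothTransition.zero_of_nonpos
  exact div_nonpos_of_nonpos_of_nonneg (by linarith) hδ.le

lemma Sw_mem {δ : ℝ} (hδ : 0 < δ) (t : ℝ) (h : ¬ |Real.cos (2 * π * t) - 0| < δ) :
    Sw δ t = 1 ∨ Sw δ t = -1 := by
  rw [not_lt, sub_zero] at h
  have hc := cos_half t
  unfold Sw Hw
  rw [hc]
  rcases le_total (Real.cos (2 * π * t)) 0 with h0 | h0
  · right
    rw [abs_of_nonpos h0] at h
    rw [Real.smoothTransition.zero_of_nonpos (div_nonpos_of_nonpos_of_nonneg h0 hδ.le),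
      Real.smoothTransition.one_of_one_le (by rw [le_div_iff₀ hδ]; linarith)]
    norm_num
  · left
    rw [abs_of_nonneg h0] at h
    rw [Real.smoothTransition.one_of_one_le (by rw [le_div_iff₀ hδ]; linarith),
      Real.smoothTransition.zero_of_nonpos
        (div_nonpos_of_nonpos_of_nonneg (by linarith) hδ.le)]
    norm_num

lemma Sw_mean (δ : ℝ) : ∫ t in (0 : ℝ)..1, Sw δ t = 0 := by
  have hc : Continuous (Hw δ) := (Hw_contDiff δ).continuous
  have hc2 : Continuous (fun t => Hw δ (t + 1 / 2)) := hc.comp (by fun_prop)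
  unfold Sw
  rw [intervalIntegral.integral_sub (hc.intervalIntegrable _ _) (hc2.intervalIntegrable _ _)]
  rw [intervalIntegral.integral_comp_add_right (fun t => Hw δ t)]
  have := (Hw_periodic δ).intervalIntegral_add_eq 0 (1 / 2)
  rw [show (0 : ℝ) + 1 = 1 by norm_num] at this
  rw [show (0 : ℝ) + 1 / 2 = 1 / 2 by norm_num, show (1 : ℝ) + 1 / 2 = 1 / 2 + 1 by norm_num,
    this, sub_self]

lemma Xw_mean_ge {δ : ℝ} (hδ : 0 < δ) (hδ1 : δ ≤ 1 / 5) : 1 / 4 ≤ ∫ t in (0 : ℝ)..1, Xw δ t := by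
  have hc : Continuous (Xw δ) := (Xw_contDiff δ).continuous
  have h0 := (Xw_periodic δ).intervalIntegral_add_eq 0 (-(1 / 8))
  rw [show (0 : ℝ) + 1 = 1 by norm_num] at h0
  rw [h0, ← intervalIntegral.integral_add_adjacent_intervals (b := 1 / 8)
    (hc.intervalIntegrable _ _) (hc.intervalIntegrable _ _)]
  have h1 : ∫ t in (-(1 / 8) : ℝ)..(1 / 8), Xw δ t = ∫ t in (-(1 / 8) : ℝ)..(1 / 8), (1 : ℝ) := by
    apply intervalIntegral.integral_congr
    intro t ht
    rw [Set.uIcc_of_le (by norm_num)] at ht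
    obtain ⟨ha, hb⟩ := ht
    simp only
    unfold Xw
    apply Real.smoothTransition.one_of_one_le
    rw [le_div_iff₀ hδ]
    have hcos : Real.cos (π / 4) ≤ Real.cos (2 * π * t) := by
      rw [← Real.cos_abs (2 * π * t)]
      apply Real.cos_le_cos_of_nonneg_of_le_pi (abs_nonneg _)
      · linarith [Real.pi_pos]
      · rw [abs_mul, abs_of_pos (by positivity)]
        have : |t| ≤ 1 / 8 := abs_le.2 ⟨ha, hb⟩
        nlinarith [Real.pi_pos]
    rw [Real.cos_pi_div_four] at hcos
    have hs : (14 / 10 : ℝ) ≤ Real.sqrt 2 := by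
      apply Real.le_sqrt_of_sq_le; norm_num
    linarith
  have h2 : 0 ≤ ∫ t in (1 / 8 : ℝ)..(-(1 / 8) + 1), Xw δ t := by
    apply intervalIntegral.integral_nonneg (by norm_num)
    intro t _
    exact Xw_nonneg δ t
  rw [h1, intervalIntegral.integral_const]
  norm_num at h2 ⊢
  linarith

lemma Xw_mean_le {δ : ℝ} (hδ : 0 < δ) : ∫ t in (0 : ℝ)..1, Xw δ t ≤ 1 / 2 := by
  have hc : Continuous (Xw δ) := (Xw_contDiff δ).continuous
  have h0 := (Xw_periodic δ).intervalIntegral_add_eq 0 (-(1 / 4))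
  rw [show (0 : ℝ) + 1 = 1 by norm_num] at h0
  rw [h0, ← intervalIntegral.integral_add_adjacent_intervals (b := 1 / 4)
    (hc.intervalIntegrable _ _) (hc.intervalIntegrable _ _)]
  have h1 : ∫ t in (1 / 4 : ℝ)..(-(1 / 4) + 1), Xw δ t = ∫ t in (1 / 4 : ℝ)..(-(1 / 4) + 1), (0 : ℝ) := by
    apply intervalIntegral.integral_congr
    intro t ht
    rw [Set.uIcc_of_le (by norm_num)] at ht
    obtain ⟨ha, hb⟩ := ht
    simp only
    by_contra hne
    have hlt := Xw_pos hδ hne
    have hle : Real.cos (2 * π * t) ≤ 0 := by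
      apply Real.cos_nonpos_of_pi_div_two_le_of_le
      · nlinarith [Real.pi_pos]
      · norm_num at hb
        nlinarith [Real.pi_pos]
    linarith
  have h2 : ∫ t in (-(1 / 4) : ℝ)..(1 / 4), Xw δ t ≤ ∫ t in (-(1 / 4) : ℝ)..(1 / 4), (1 : ℝ) := by
    apply intervalIntegral.integral_mono_on (by norm_num) (hc.intervalIntegrable _ _)
      (by simp)
    intro t _
    exact Xw_le_one δ t
  rw [intervalIntegral.integral_const] at h2
  rw [h1, intervalIntegral.integral_const]
  norm_num at h2 ⊢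
  linarith

/-- never all three waves are nonzero -/
lemma three_waves {δ : ℝ} (hδ : 0 < δ) (a b : ℝ) :
    Xw δ a = 0 ∨ Xw δ b = 0 ∨ Xw δ (a + b + 1 / 2) = 0 := by
  by_contra hcon
  push Not at hcon
  obtain ⟨h1, h2, h3⟩ := hcon
  have c1 := Xw_pos hδ h1
  have c2 := Xw_pos hδ h2
  have c3 := Xw_pos hδ h3
  rw [cos_half, show 2 * π * (a + b) = 2 * π * a + 2 * π * b by ring, Real.cos_add] at c3
  have s1 := Real.sin_sq_add_cos_sq (2 * π * a)
  have s2 := Real.sin_sq_add_cos_sq (2 * π * b)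
  have h4 : Real.sin (2 * π * a) ^ 2 < 3 / 4 := by nlinarith
  have h5 : Real.sin (2 * π * b) ^ 2 < 3 / 4 := by nlinarith
  nlinarith [sq_nonneg (Real.sin (2 * π * a) - Real.sin (2 * π * b)),
    mul_pos (sub_pos.2 c1) (sub_pos.2 c2)]

/-- periodic primitive of a smooth periodic function of mean zero -/
lemma exists_primitive {g : ℝ → ℝ} (hg : ContDiff ℝ ((⊤ : ℕ∞) : WithTop ℕ∞) g)
    (hper : Function.Periodic g 1) (hmean : ∫ t in (0 : ℝ)..1, g t = 0) :
    ∃ Φ : ℝ → ℝ, ContDiff ℝ ((⊤ : ℕ∞) : WithTop ℕ∞) Φ ∧ Function.Periodic Φ 1 ∧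
      ∀ t, HasDerivAt Φ (g t) t := by
  have hc : Continuous g := hg.continuous
  have hd : ∀ t, HasDerivAt (fun t => ∫ s in (0 : ℝ)..t, g s) (g t) t := fun t =>
    intervalIntegral.integral_hasDerivAt_right (hc.intervalIntegrable _ _)
      (hc.stronglyMeasurableAtFilter _ _) hc.continuousAt
  refine ⟨fun t => ∫ s in (0 : ℝ)..t, g s, ?_, ?_, hd⟩
  · rw [contDiff_infty_iff_deriv]
    refine ⟨fun t => (hd t).differentiableAt, ?_⟩
    have : deriv (fun t => ∫ s in (0 : ℝ)..t, g s) = g := funext fun t => (hd t).deriv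
    rw [this]
    exact hg
  · intro t
    simp only
    rw [← intervalIntegral.integral_add_adjacent_intervals (b := t)
      (hc.intervalIntegrable _ _) (hc.intervalIntegrable _ _)]
    have := hper.intervalIntegral_add_eq t 0
    rw [this, zero_add, hmean, add_zero]

/-- a bump around the level set `cos (2π t) = c` -/
def bump (c δ t : ℝ) : ℝ := max 0 (2 - |Real.cos (2 * π * t) - c| / δ)

lemma bump_nonneg (c δ t : ℝ) : 0 ≤ bump c δ t := le_max_left _ _

lemma bump_ge_one {c δ t : ℝ} (hδ : 0 < δ) (h : |Real.cos (2 * π * t) - c| < δ) :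
    1 ≤ bump c δ t := by
  unfold bump
  apply le_max_of_le_right
  have : |Real.cos (2 * π * t) - c| / δ ≤ 1 := by rw [div_le_one hδ]; exact h.le
  linarith

lemma bump_le_two {c δ t : ℝ} (hδ : 0 < δ) : bump c δ t ≤ 2 := by
  unfold bump
  apply max_le (by norm_num)
  have : 0 ≤ |Real.cos (2 * π * t) - c| / δ := by positivity
  linarith

lemma bump_continuous (c δ : ℝ) : Continuous (bump c δ) := by
  unfold bump
  fun_prop

lemma bump_periodic (c δ : ℝ) : Function.Periodic (bump c δ) 1 := by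
  intro t
  unfold bump
  rw [cos_periodic1]

lemma countable_level (c : ℝ) : Set.Countable {t : ℝ | Real.cos (2 * π * t) = c} := by
  by_cases hne : ∃ s, Real.cos (2 * π * s) = c
  · obtain ⟨s, hs⟩ := hne
    have hsub : {t : ℝ | Real.cos (2 * π * t) = c} ⊆
        (Set.range fun k : ℤ => (k : ℝ) + s) ∪ (Set.range fun k : ℤ => (k : ℝ) - s) := by
      intro t ht
      have ht' : Real.cos (2 * π * s) = Real.cos (2 * π * t) := by rw [hs]; exact ht.symm
      rw [Real.cos_eq_cos_iff] at ht'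
      obtain ⟨k, hk⟩ := ht'
      have hpi := Real.pi_pos
      rcases hk with hk | hk
      · left
        refine ⟨k, ?_⟩
        simp only
        have : 2 * π * (t - (k + s)) = 0 := by linarith
        rcases mul_eq_zero.1 this with h | h
        · exact absurd h (by positivity)
        · linarith
      · right
        refine ⟨k, ?_⟩
        simp only
        have : 2 * π * (t - (k - s)) = 0 := by linarith
        rcases mul_eq_zero.1 this with h | h
        · exact absurd h (by positivity)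
        · linarith
    exact ((Set.countable_range _).union (Set.countable_range _)).mono hsub
  · push Not at hne
    have : {t : ℝ | Real.cos (2 * π * t) = c} = ∅ := by
      ext t; simp [hne t]
    rw [this]
    exact Set.countable_empty

lemma bump_tendsto (c : ℝ) :
    Tendsto (fun n : ℕ => ∫ t in (0 : ℝ)..1, bump c (1 / ((n : ℝ) + 1)) t) atTop (𝓝 0) := by
  have h := intervalIntegral.tendsto_integral_filter_of_dominated_convergence
    (μ := volume) (a := 0) (b := 1) (l := atTop)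
    (F := fun (n : ℕ) t => bump c (1 / ((n : ℝ) + 1)) t) (f := fun _ => (0 : ℝ)) (fun _ => 2)
    (Eventually.of_forall fun n => (bump_continuous c _).aestronglyMeasurable)
    (Eventually.of_forall fun n => Eventually.of_forall fun t _ => by
      rw [Real.norm_eq_abs, abs_of_nonneg (bump_nonneg _ _ _)]
      exact bump_le_two (by positivity))
    (by simp) ?_
  · simpa using h
  · have hcount : ∀ᵐ t : ℝ ∂volume, t ∉ {t : ℝ | Real.cos (2 * π * t) = c} := by
      rw [ae_iff]
      simp only [not_not]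
      exact (countable_level c).measure_zero volume
    filter_upwards [hcount] with t ht _
    apply tendsto_const_nhds.congr'
    have hpos : 0 < |Real.cos (2 * π * t) - c| := by
      apply abs_pos.2
      exact sub_ne_zero.2 ht
    obtain ⟨N, hN⟩ := exists_nat_ge (2 / |Real.cos (2 * π * t) - c|)
    filter_upwards [eventually_ge_atTop N] with n hn
    unfold bump
    symm
    apply max_eq_left
    have hn' : (N : ℝ) ≤ n := by exact_mod_cast hn
    have : 2 ≤ |Real.cos (2 * π * t) - c| / (1 / ((n : ℝ) + 1)) := by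
      rw [div_div_eq_mul_div, div_one]
      rw [div_le_iff₀ hpos] at hN
      nlinarith
    linarith

end

end Pool.Agent.Lib.MP0febd9
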