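import Mathlib

set_option autoImplicit false

namespace Pool.Agent.Lib.MP0febd9

noncomputable section

open Real MeasureTheory Filter Topology

/-- the unit square as used in the frozen statement -/
def Sq : Set (Fin 2 → ℝ) := Set.univ.pi (fun _ : Fin 2 => Set.Icc (0 : ℝ) 1)

lemma Sq_eq : Sq = Set.Icc (0 : Fin 2 → ℝ) 1 := by
  unfold Sq
  rw [← Set.pi_univ_Icc]
  rfl

lemma isCompact_Sq : IsCompact Sq := by
  unfold Sq
  exact isCompact_univ_pi fun _ => isCompact_Icc

lemma measurableSet_Sq : MeasurableSet Sq := by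
  rw [Sq_eq]; exact measurableSet_Icc

lemma volume_Sq : volume Sq = 1 := by
  rw [Sq_eq, Real.volume_Icc_pi]
  simp

lemma integral_one_dim {φ : ℝ → ℝ} (hc : Continuous φ) (hper : Function.Periodic φ 1)
    {a : ℤ} (ha : 0 < a) (s : ℝ) :
    ∫ t in (0 : ℝ)..1, φ ((a : ℝ) * t + s) = ∫ t in (0 : ℝ)..1, φ t := by
  have ha' : (a : ℝ) ≠ 0 := by exact_mod_cast ha.ne'
  rw [intervalIntegral.integral_comp_mul_add (fun t => φ t) ha']
  have h := hper.intervalIntegral_add_zsmul_eq a s (fun _ _ => hc.intervalIntegrable _ _)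
  have h2 := hper.intervalIntegral_add_eq s 0
  rw [zero_add] at h2
  rw [h2] at h
  have e1 : (a : ℝ) * 0 + s = s := by ring
  have e2 : (a : ℝ) * 1 + s = s + a • (1 : ℝ) := by
    rw [zsmul_eq_mul]; ring
  rw [e1, e2, h, zsmul_eq_mul, smul_eq_mul, ← mul_assoc, inv_mul_cancel₀ ha', one_mul]

lemma integral_Sq {f : (Fin 2 → ℝ) → ℝ} (hf : Continuous f) :
    ∫ y in Sq, f y = ∫ t in (0 : ℝ)..1, ∫ s in (0 : ℝ)..1, f ![s, t] := by
  have hpre : Sq = (MeasurableEquiv.finTwoArrow (α := ℝ)) ⁻¹' (Set.Icc (0 : ℝ) 1 ×ˢ Set.Icc (0 : ℝ) 1) := by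
    ext y
    simp only [Sq, MeasurableEquiv.finTwoArrow, Set.mem_univ_pi, Fin.forall_fin_two,
      Set.mem_preimage, Set.mem_prod]
    rfl
  have hmp := volume_preserving_finTwoArrow ℝ
  have h1 : ∫ y in Sq, f y = ∫ p in (Set.Icc (0 : ℝ) 1 ×ˢ Set.Icc (0 : ℝ) 1), f ![p.1, p.2] := by
    rw [hpre, ← hmp.setIntegral_preimage_emb (MeasurableEquiv.measurableEmbedding _)]
    apply setIntegral_congr_fun (by rw [← hpre]; exact measurableSet_Sq)
    intro y _
    simp only [MeasurableEquiv.finTwoArrow]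
    congr 1
    ext i
    fin_cases i <;> rfl
  rw [h1, Measure.volume_eq_prod, ← Measure.prod_restrict, integral_prod_symm]
  · rw [intervalIntegral.integral_of_le zero_le_one, integral_Icc_eq_integral_Ioc]
    apply integral_congr_ae
    refine Eventually.of_forall fun t => ?_
    simp only
    rw [intervalIntegral.integral_of_le zero_le_one, integral_Icc_eq_integral_Ioc]
  · rw [Measure.prod_restrict, ← Measure.volume_eq_prod]
    have : Continuous (fun p : ℝ × ℝ => f ![p.1, p.2]) := by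
      apply hf.comp
      apply continuous_pi
      intro i
      fin_cases i
      · exact continuous_fst
      · exact continuous_snd
    exact this.continuousOn.integrableOn_compact (isCompact_Icc.prod isCompact_Icc)

lemma integral_ridge {φ : ℝ → ℝ} (hc : Continuous φ) (hper : Function.Periodic φ 1)
    {a : ℤ} (ha : 0 < a) (b c : ℝ) :
    ∫ y in Sq, φ ((a : ℝ) * y 0 + b * y 1 + c) = ∫ t in (0 : ℝ)..1, φ t := by
  rw [integral_Sq (f := fun y => φ ((a : ℝ) * y 0 + b * y 1 + c)) (by fun_prop)]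
  have : ∀ t : ℝ, ∫ s in (0 : ℝ)..1, φ ((a : ℝ) * (![s, t] : Fin 2 → ℝ) 0
      + b * (![s, t] : Fin 2 → ℝ) 1 + c) = ∫ t in (0 : ℝ)..1, φ t := by
    intro t
    rw [← integral_one_dim hc hper ha (b * t + c)]
    apply intervalIntegral.integral_congr
    intro s _
    simp [add_assoc]
  simp only [this]
  simp

end

end Pool.Agent.Lib.MP0febd9
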