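import Pool.Agent.Lib.MP_0febd9_an.Upper1
import Pool.Agent.Lib.MP_0febd9_an.Upper2
import Pool.Agent.Lib.MP_0febd9_an.Lower3

set_option autoImplicit false

namespace Pool.Agent.Lib.MP0febd9

noncomputable section

open Real MeasureTheory Filter Topology

/-- components from the entries of a column -/
lemma pp_of_entries {i : Fin 10} {M : Mat} {a e0 e1 : ℝ} (h0 : M 0 i = a * d1 i + e0)
    (h1 : M 1 i = a * d2 i + e1) : pp i M = a + ((d1 i : ℝ) * e0 + d2 i * e1) / nn i := by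
  have hn := nn_pos i
  have hnn : (nn i : ℝ) = (d1 i : ℝ) ^ 2 + (d2 i : ℝ) ^ 2 := by unfold nn; push_cast; ring
  unfold pp
  rw [h0, h1]
  field_simp
  rw [hnn]
  ring

lemma pq_of_entries {i : Fin 10} {M : Mat} {a e0 e1 : ℝ} (h0 : M 0 i = a * d1 i + e0)
    (h1 : M 1 i = a * d2 i + e1) : pq i M = ((d1 i : ℝ) * e1 - d2 i * e0) / nn i := by
  unfold pq
  rw [h0, h1]
  ring

lemma d_nonneg : ∀ i : Fin 10, 0 ≤ d1 i ∧ 0 ≤ d2 i ∧ d1 i + d2 i ≤ nn i := by decide

lemma entries_bound {i : Fin 10} {e0 e1 : ℝ} (h0 : |e0| ≤ 1) (h1 : |e1| ≤ 1) :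
    |((d1 i : ℝ) * e0 + d2 i * e1) / nn i| ≤ 1 ∧ |((d1 i : ℝ) * e1 - d2 i * e0) / nn i| ≤ 1 := by
  obtain ⟨a, b, c⟩ := d_nonneg i
  have ha : (0 : ℝ) ≤ d1 i := by exact_mod_cast a
  have hb : (0 : ℝ) ≤ d2 i := by exact_mod_cast b
  have hc : (d1 i : ℝ) + d2 i ≤ nn i := by exact_mod_cast c
  have hn := nn_pos i
  rw [abs_div, abs_div, abs_of_pos hn, div_le_one hn, div_le_one hn]
  rw [abs_le] at h0 h1
  constructor
  · rw [abs_le]; constructor <;> nlinarith
  · rw [abs_le]; constructor <;> nlinarith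

lemma Wq_bad {M : Mat} {σ : ℝ} (hσ : |σ| ≤ 1) (hp : ∀ i, |pp i M| ≤ 2) (hq : ∀ i, |pq i M| ≤ 1) :
    Wq σ M ≤ 1000 * (kK + kL + kQ + 1) := by
  have hk : 0 < kK := by unfold kK; positivity
  have hl : 0 < kL := by unfold kL; positivity
  have hkq : 0 < kQ := by unfold kQ; positivity
  have hss : |ss M| ≤ 14 := by
    unfold ss
    calc |∑ k, pp (ir k) M| ≤ ∑ k, |pp (ir k) M| := Finset.abs_sum_le_sum_abs _ _
      _ ≤ ∑ k : Fin 7, (2 : ℝ) := Finset.sum_le_sum fun k _ => hp _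
      _ = 14 := by simp; norm_num
  have hyy : ∀ j, |yy j M| ≤ 14 := by
    intro j
    unfold yy
    calc |∑ k, (cc k j : ℝ) * pp (ir k) M| ≤ ∑ k, |(cc k j : ℝ) * pp (ir k) M| :=
          Finset.abs_sum_le_sum_abs _ _
      _ ≤ ∑ k : Fin 7, (2 : ℝ) := by
          apply Finset.sum_le_sum
          intro k _
          rw [abs_mul]
          calc |(cc k j : ℝ)| * |pp (ir k) M| ≤ 1 * 2 := by
                gcongr
                · exact cc_abs k j
                · exact hp _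
            _ = 2 := by norm_num
      _ = 14 := by simp; norm_num
  have h1 : ∑ j, (pp (ix j) M - σ * yy j M) ^ 2 ≤ 768 := by
    calc ∑ j, (pp (ix j) M - σ * yy j M) ^ 2 ≤ ∑ j : Fin 3, (256 : ℝ) := by
          apply Finset.sum_le_sum
          intro j _
          have e1 := hp (ix j)
          have e2 : |σ * yy j M| ≤ 14 := by
            rw [abs_mul]
            calc |σ| * |yy j M| ≤ 1 * 14 := by gcongr; exact hyy j
              _ = 14 := by norm_num
          rw [abs_le] at e1 e2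
          have e3 : |pp (ix j) M - σ * yy j M| ≤ 16 := by
            rw [abs_le]; constructor <;> linarith [e1.1, e1.2, e2.1, e2.2]
          have := sq_le_sq' (abs_le.1 e3).1 (abs_le.1 e3).2
          linarith
      _ = 768 := by simp; norm_num
  have h2 : (ss M - σ) ^ 2 ≤ 225 := by
    rw [abs_le] at hss hσ
    have : |ss M - σ| ≤ 15 := by rw [abs_le]; constructor <;> linarith [hss.1, hss.2, hσ.1, hσ.2]
    have := sq_le_sq' (abs_le.1 this).1 (abs_le.1 this).2
    linarith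
  have h3 : ∑ i, (pp i M) ^ 2 ≤ 40 := by
    calc ∑ i, (pp i M) ^ 2 ≤ ∑ i : Fin 10, (4 : ℝ) := by
          apply Finset.sum_le_sum
          intro i _
          have e := hp i
          have := sq_le_sq' (abs_le.1 e).1 (abs_le.1 e).2
          linarith
      _ = 40 := by simp; norm_num
  have h4 : ∑ i, (pq i M) ^ 2 ≤ 10 := by
    calc ∑ i, (pq i M) ^ 2 ≤ ∑ i : Fin 10, (1 : ℝ) := by
          apply Finset.sum_le_sum
          intro i _
          have e := hq i
          have := sq_le_sq' (abs_le.1 e).1 (abs_le.1 e).2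
          linarith
      _ = 10 := by simp
  unfold Wq
  have g1 := mul_le_mul_of_nonneg_left h1 (by positivity : 0 ≤ kK / 2)
  have g2 := mul_le_mul_of_nonneg_left h2 hl.le
  have g4 := mul_le_mul_of_nonneg_left h4 hkq.le
  linarith

lemma exists_vertex {x : Fin 3 → ℝ} (hx : ∀ j, x j = 0 ∨ x j = 1)
    (h : x 0 = 0 ∨ x 1 = 0 ∨ x 2 = 0) : ∃ k : Fin 7, ∀ j, x j = (cc k j : ℝ) := by
  have key : ∀ a b c : ℕ, (a = 0 ∨ a = 1) → (b = 0 ∨ b = 1) → (c = 0 ∨ c = 1) →
      (a = 0 ∨ b = 0 ∨ c = 0) → ∃ k : Fin 7, cc k 0 = a ∧ cc k 1 = b ∧ cc k 2 = c := by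
    intro a b c ha hb hc h
    rcases ha with rfl | rfl <;> rcases hb with rfl | rfl <;> rcases hc with rfl | rfl <;>
      first
        | exact ⟨0, rfl, rfl, rfl⟩
        | exact ⟨1, rfl, rfl, rfl⟩
        | exact ⟨2, rfl, rfl, rfl⟩
        | exact ⟨3, rfl, rfl, rfl⟩
        | exact ⟨4, rfl, rfl, rfl⟩
        | exact ⟨5, rfl, rfl, rfl⟩
        | exact ⟨6, rfl, rfl, rfl⟩
        | (exfalso; omega)
  have hn : ∀ j, ∃ a : ℕ, (a = 0 ∨ a = 1) ∧ x j = (a : ℝ) := by
    intro j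
    rcases hx j with h | h
    · exact ⟨0, Or.inl rfl, by rw [h]; norm_num⟩
    · exact ⟨1, Or.inr rfl, by rw [h]; norm_num⟩
  obtain ⟨a, ha, ha'⟩ := hn 0
  obtain ⟨b, hb, hb'⟩ := hn 1
  obtain ⟨c, hc, hc'⟩ := hn 2
  obtain ⟨k, k0, k1, k2⟩ := key a b c ha hb hc (by
    rw [ha', hb', hc'] at h
    exact_mod_cast h)
  refine ⟨k, fun j => ?_⟩
  fin_cases j
  · simp only [Fin.zero_eta]; rw [ha', k0]
  · simp only [Fin.mk_one]; rw [hb', k1]
  · simp only [Fin.reduceFinMk]; rw [hc', k2]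

/-- the weight factors -/
def wt (c : ℕ) (x : ℝ) : ℝ := if c = 1 then x else 1 - x

lemma cc_inj : ∀ k k' : Fin 7, (∀ j, cc k j = cc k' j) → k = k' := by decide

lemma prod_wt (k k' : Fin 7) : ∏ j, wt (cc k' j) (cc k j : ℝ) = if k' = k then 1 else 0 := by
  have hfac : ∀ j, wt (cc k' j) (cc k j : ℝ) = if cc k' j = cc k j then 1 else 0 := by
    intro j
    unfold wt
    rcases cc_mem k' j with h | h <;> rcases cc_mem k j with h' | h' <;> rw [h, h'] <;> norm_num
  simp only [hfac]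
  split_ifs with hk
  · subst hk; simp
  · by_contra hne
    apply hk
    apply cc_inj
    intro j
    by_contra hj
    apply hne
    apply Finset.prod_eq_zero (Finset.mem_univ j)
    simp [hj]

/-- energy at a good point -/
lemma Wq_good {M : Mat} {x : Fin 3 → ℝ} {S : Fin 7 → ℝ} (hx : ∀ j, x j = 0 ∨ x j = 1)
    (h : x 0 = 0 ∨ x 1 = 0 ∨ x 2 = 0) (hS : ∀ k, S k = 1 ∨ S k = -1)
    (hpx : ∀ j, pp (ix j) M = x j) (hpr : ∀ k, pp (ir k) M = S k * ∏ j, wt (cc k j) (x j))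
    (hq : ∀ i, pq i M = 0) : ∃ σ : ℝ, (σ = 1 ∨ σ = -1) ∧ Wq σ M ≤ 9 / 1000 := by
  obtain ⟨k, hk⟩ := exists_vertex hx h
  refine ⟨S k, hS k, ?_⟩
  have hσ2 : S k ^ 2 = 1 := by rcases hS k with h | h <;> rw [h] <;> norm_num
  have hr : ∀ k', pp (ir k') M = if k' = k then S k else 0 := by
    intro k'
    rw [hpr k']
    simp only [hk]
    rw [prod_wt]
    split_ifs with e
    · rw [e, mul_one]
    · rw [mul_zero]
  have hss : ss M = S k := by
    unfold ss
    simp [hr]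
  have hyy : ∀ j, yy j M = x j * S k := by
    intro j
    unfold yy
    simp [hr, hk]
  have hsum : ∑ i, (pp i M) ^ 2 ≤ 3 := by
    rw [sum_ten]
    have e1 : ∑ k', (pp (ir k') M) ^ 2 = 1 := by
      simp [hr, hσ2]
    have e2 : ∑ j, (pp (ix j) M) ^ 2 ≤ 2 := by
      simp only [hpx]
      rw [Fin.sum_univ_three]
      have hb : ∀ j, x j ^ 2 ≤ 1 := by
        intro j; rcases hx j with h | h <;> rw [h] <;> norm_num
      have h0 := hb 0
      have h1 := hb 1
      have h2 := hb 2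
      rcases h with h | h | h <;> rw [h] <;> linarith
    linarith
  unfold Wq
  have z1 : ∑ j, (pp (ix j) M - S k * yy j M) ^ 2 = 0 := by
    apply Finset.sum_eq_zero
    intro j _
    rw [hpx, hyy]
    have : x j - S k * (x j * S k) = x j * (1 - S k ^ 2) := by ring
    rw [this, hσ2]; ring
  have z2 : ∑ i, (pq i M) ^ 2 = 0 := by
    apply Finset.sum_eq_zero
    intro i _
    rw [hq]; ring
  rw [z1, z2, hss]
  have : (S k - S k) ^ 2 = 0 := by ring
  rw [this]
  linarith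

end

end Pool.Agent.Lib.MP0febd9
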