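import Pool.Agent.Lib.MP_0febd9_an.Upper3

set_option autoImplicit false

namespace Pool.Agent.Lib.MP0febd9

noncomputable section

open Real MeasureTheory Filter Topology

abbrev Pt := Fin 2 → ℝ

/-- phase shifts -/
def bb (α : Fin 10) : ℝ := if α = 2 then 1 / 2 else 0

/-- linear phase of column `α` -/
def ell (α : Fin 10) : Pt →L[ℝ] ℝ :=
  (d1 α : ℝ) • ContinuousLinearMap.proj (R := ℝ) (φ := fun _ : Fin 2 => ℝ) 0
    + (d2 α : ℝ) • ContinuousLinearMap.proj (R := ℝ) (φ := fun _ : Fin 2 => ℝ) 1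

lemma ell_apply (α : Fin 10) (y : Pt) : ell α y = d1 α * y 0 + d2 α * y 1 := by
  simp [ell]

lemma ell_int (α : Fin 10) (y : Pt) (z : Fin 2 → ℤ) :
    ell α (y + fun i => (z i : ℝ)) = ell α y + ((d1 α * z 0 + d2 α * z 1 : ℤ) : ℝ) := by
  rw [ell_apply, ell_apply]
  simp only [Pi.add_apply]
  push_cast
  ring

/-- the weight `χ_k` -/
def chi (δ : ℝ) (k : Fin 7) (y : Pt) : ℝ :=
  ∏ j, wt (cc k j) (Xw δ (ell (ix j) y + bb (ix j)))

lemma periodic_int {f : ℝ → ℝ} (hf : Function.Periodic f 1) (x : ℝ) (n : ℤ) :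
    f (x + n) = f x := by
  have := hf.int_mul n x
  simpa using this

lemma chi_periodic (δ : ℝ) (k : Fin 7) (y : Pt) (z : Fin 2 → ℤ) :
    chi δ k (y + fun i => (z i : ℝ)) = chi δ k y := by
  unfold chi
  apply Finset.prod_congr rfl
  intro j _
  rw [ell_int, add_right_comm, periodic_int (Xw_periodic δ)]

lemma wt_contDiff (c : ℕ) {f : Pt → ℝ} (hf : ContDiff ℝ ((⊤ : ℕ∞) : WithTop ℕ∞) f) :
    ContDiff ℝ ((⊤ : ℕ∞) : WithTop ℕ∞) (fun y => wt c (f y)) := by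
  unfold wt
  split_ifs
  · exact hf
  · exact contDiff_const.sub hf

lemma Xell_contDiff (δ : ℝ) (α : Fin 10) (b : ℝ) :
    ContDiff ℝ ((⊤ : ℕ∞) : WithTop ℕ∞) (fun y : Pt => Xw δ (ell α y + b)) :=
  (Xw_contDiff δ).comp ((ell α).contDiff.add contDiff_const)

lemma chi_contDiff (δ : ℝ) (k : Fin 7) : ContDiff ℝ ((⊤ : ℕ∞) : WithTop ℕ∞) (chi δ k) := by
  unfold chi
  apply contDiff_prod
  intro j _
  exact wt_contDiff _ (Xell_contDiff δ _ _)

lemma wt_mem {c : ℕ} {x : ℝ} (h0 : 0 ≤ x) (h1 : x ≤ 1) : 0 ≤ wt c x ∧ wt c x ≤ 1 := by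
  unfold wt
  split_ifs
  · exact ⟨h0, h1⟩
  · constructor <;> linarith

lemma chi_mem (δ : ℝ) (k : Fin 7) (y : Pt) : 0 ≤ chi δ k y ∧ chi δ k y ≤ 1 := by
  unfold chi
  constructor
  · exact Finset.prod_nonneg fun j _ => (wt_mem (Xw_nonneg _ _) (Xw_le_one _ _)).1
  · exact Finset.prod_le_one (fun j _ => (wt_mem (Xw_nonneg _ _) (Xw_le_one _ _)).1)
      fun j _ => (wt_mem (Xw_nonneg _ _) (Xw_le_one _ _)).2

/-- the gradient of `X` vanishes where `X ∈ {0,1}` -/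
lemma Xw_hasDerivAt_zero {δ : ℝ} {t : ℝ} (h : Xw δ t = 0 ∨ Xw δ t = 1) :
    HasDerivAt (Xw δ) 0 t := by
  have hd : DifferentiableAt ℝ (Xw δ) t := ((Xw_contDiff δ).differentiable (by simp)) t
  have h0 : deriv (Xw δ) t = 0 := by
    rcases h with h | h
    · have : IsLocalMin (Xw δ) t := Filter.Eventually.of_forall fun s => by
        rw [h]; exact Xw_nonneg δ s
      exact this.deriv_eq_zero
    · have : IsLocalMax (Xw δ) t := Filter.Eventually.of_forall fun s => by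
        rw [h]; exact Xw_le_one δ s
      exact this.deriv_eq_zero
  rw [← h0]
  exact hd.hasDerivAt

lemma chi_fderiv_zero {δ : ℝ} {y : Pt}
    (h : ∀ j, Xw δ (ell (ix j) y + bb (ix j)) = 0 ∨ Xw δ (ell (ix j) y + bb (ix j)) = 1)
    (k : Fin 7) : fderiv ℝ (chi δ k) y = 0 := by
  have hX : ∀ j, HasFDerivAt (fun y : Pt => Xw δ (ell (ix j) y + bb (ix j)))
      (0 : Pt →L[ℝ] ℝ) y := by
    intro j
    have h1 := (Xw_hasDerivAt_zero (h j)).comp_hasFDerivAt y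
      ((ell (ix j)).hasFDerivAt.add_const (bb (ix j)))
    rw [zero_smul] at h1
    exact h1
  have hw : ∀ j, HasFDerivAt (fun y : Pt => wt (cc k j) (Xw δ (ell (ix j) y + bb (ix j))))
      (0 : Pt →L[ℝ] ℝ) y := by
    intro j
    unfold wt
    split_ifs
    · exact hX j
    · have := (hX j).const_sub 1
      simpa using this
  have hprod := HasFDerivAt.finsetProd (u := Finset.univ) (fun j _ => hw j)
  have : HasFDerivAt (chi δ k) (0 : Pt →L[ℝ] ℝ) y := by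
    have e : (∑ i : Fin 3, (∏ j ∈ Finset.univ.erase i,
        wt (cc k j) (Xw δ (ell (ix j) y + bb (ix j)))) • (0 : Pt →L[ℝ] ℝ)) = 0 := by simp
    rw [← e]
    exact hprod
  exact this.fderiv

/-- index of the vertex belonging to a column -/
def kx : Fin 10 → Fin 7 := ![0, 0, 0, 0, 1, 2, 3, 4, 5, 6]

lemma kx_ir : ∀ k, kx (ir k) = k := by decide

/-- the test field -/
def uf (Ξ Φ : ℝ → ℝ) (δ : ℝ) (n : ℕ) (y : Pt) : Fin 10 → ℝ := fun α =>
  if (α : ℕ) < 3 then Ξ (ell α y + bb α)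
  else (1 / (n : ℝ)) * Φ ((n : ℝ) * ell α y) * chi δ (kx α) y

lemma uf_contDiff {Ξ Φ : ℝ → ℝ} (hΞ : ContDiff ℝ ((⊤ : ℕ∞) : WithTop ℕ∞) Ξ)
    (hΦ : ContDiff ℝ ((⊤ : ℕ∞) : WithTop ℕ∞) Φ) (δ : ℝ) (n : ℕ) :
    ContDiff ℝ ((⊤ : ℕ∞) : WithTop ℕ∞) (uf Ξ Φ δ n) := by
  rw [contDiff_pi]
  intro α
  unfold uf
  split_ifs
  · exact hΞ.comp ((ell α).contDiff.add contDiff_const)
  · exact (contDiff_const.mul (hΦ.comp (contDiff_const.mul (ell α).contDiff))).mul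
      (chi_contDiff δ _)

lemma uf_periodic {Ξ Φ : ℝ → ℝ} (hΞ : Function.Periodic Ξ 1) (hΦ : Function.Periodic Φ 1)
    (δ : ℝ) (n : ℕ) (y : Pt) (z : Fin 2 → ℤ) :
    uf Ξ Φ δ n (y + fun i => (z i : ℝ)) = uf Ξ Φ δ n y := by
  funext α
  unfold uf
  split_ifs
  · rw [ell_int, add_right_comm, periodic_int hΞ]
  · rw [ell_int, chi_periodic]
    have : (n : ℝ) * (ell α y + ((d1 α * z 0 + d2 α * z 1 : ℤ) : ℝ))
        = (n : ℝ) * ell α y + (((n : ℤ) * (d1 α * z 0 + d2 α * z 1) : ℤ) : ℝ) := by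
      push_cast; ring
    rw [this, periodic_int hΦ]

lemma fderiv_comp_apply {u : Pt → (Fin 10 → ℝ)} {y : Pt} {α : Fin 10} {D : Pt →L[ℝ] ℝ}
    (hu : DifferentiableAt ℝ u y) (h : HasFDerivAt (fun y => u y α) D y) (v : Pt) :
    fderiv ℝ u y v α = D v := by
  have h1 : HasFDerivAt (fun y => u y α)
      ((ContinuousLinearMap.proj (R := ℝ) (φ := fun _ : Fin 10 => ℝ) α).comp (fderiv ℝ u y)) y :=
    (ContinuousLinearMap.proj (R := ℝ) (φ := fun _ : Fin 10 => ℝ) α).hasFDerivAt.comp y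
      hu.hasFDerivAt
  have := h1.unique h
  rw [← this]
  rfl

/-- the matrix field -/
def Mf (p : ℝ) (Ξ Φ : ℝ → ℝ) (δ : ℝ) (n : ℕ) (y : Pt) : Mat :=
  F0 p + Matrix.of (fun (i : Fin 2) (α : Fin 10) =>
    fderiv ℝ (uf Ξ Φ δ n) y (Pi.single i (1 : ℝ)) α)

lemma ell_single0 (α : Fin 10) : ell α (Pi.single 0 1) = d1 α := by
  rw [ell_apply]; simp

lemma ell_single1 (α : Fin 10) : ell α (Pi.single 1 1) = d2 α := by
  rw [ell_apply]; simp

lemma Mf_ix {p : ℝ} {Ξ Φ : ℝ → ℝ} {δ : ℝ} {n : ℕ}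
    (hΞ : ContDiff ℝ ((⊤ : ℕ∞) : WithTop ℕ∞) Ξ)
    (hΦ : ContDiff ℝ ((⊤ : ℕ∞) : WithTop ℕ∞) Φ) (hΞd : ∀ t, HasDerivAt Ξ (Xw δ t - p) t)
    (y : Pt) (j : Fin 3) :
    Mf p Ξ Φ δ n y 0 (ix j) = Xw δ (ell (ix j) y + bb (ix j)) * d1 (ix j) + 0 ∧
    Mf p Ξ Φ δ n y 1 (ix j) = Xw δ (ell (ix j) y + bb (ix j)) * d2 (ix j) + 0 := by
  have hlt := ix_lt j
  have hu : DifferentiableAt ℝ (uf Ξ Φ δ n) y :=
    ((uf_contDiff hΞ hΦ δ n).differentiable (by simp)) y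
  have hD : HasFDerivAt (fun y => uf Ξ Φ δ n y (ix j))
      ((Xw δ (ell (ix j) y + bb (ix j)) - p) • ell (ix j)) y := by
    have e : (fun y => uf Ξ Φ δ n y (ix j)) = fun y => Ξ (ell (ix j) y + bb (ix j)) := by
      funext y
      simp only [uf, hlt, if_true]
    rw [e]
    exact (hΞd _).comp_hasFDerivAt y ((ell (ix j)).hasFDerivAt.add_const (bb (ix j)))
  have h1 := fderiv_comp_apply hu hD
  unfold Mf F0
  constructor
  · simp only [Matrix.add_apply, Matrix.of_apply, h1, hlt, if_true,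
      _root_.smul_apply, ell_single0, smul_eq_mul]
    ring
  · simp only [Matrix.add_apply, Matrix.of_apply, h1, hlt, if_true,
      _root_.smul_apply, ell_single1, smul_eq_mul, one_ne_zero, if_false]
    ring

lemma Mf_ir {p : ℝ} {Ξ Φ : ℝ → ℝ} {δ : ℝ} {n : ℕ} (hn : 0 < n)
    (hΞ : ContDiff ℝ ((⊤ : ℕ∞) : WithTop ℕ∞) Ξ)
    (hΦ : ContDiff ℝ ((⊤ : ℕ∞) : WithTop ℕ∞) Φ) (hΦd : ∀ t, HasDerivAt Φ (Sw δ t) t)
    (y : Pt) (k : Fin 7) :
    Mf p Ξ Φ δ n y 0 (ir k) = (Sw δ (n * ell (ir k) y) * chi δ k y) * d1 (ir k)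
      + (1 / (n : ℝ)) * Φ (n * ell (ir k) y) * fderiv ℝ (chi δ k) y (Pi.single 0 1) ∧
    Mf p Ξ Φ δ n y 1 (ir k) = (Sw δ (n * ell (ir k) y) * chi δ k y) * d2 (ir k)
      + (1 / (n : ℝ)) * Φ (n * ell (ir k) y) * fderiv ℝ (chi δ k) y (Pi.single 1 1) := by
  have hlt := ir_not_lt k
  have hn' : (n : ℝ) ≠ 0 := by positivity
  have hu : DifferentiableAt ℝ (uf Ξ Φ δ n) y :=
    ((uf_contDiff hΞ hΦ δ n).differentiable (by simp)) y
  have hchi : HasFDerivAt (chi δ k) (fderiv ℝ (chi δ k) y) y :=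
    (((chi_contDiff δ k).differentiable (by simp)) y).hasFDerivAt
  have hD : HasFDerivAt (fun y => uf Ξ Φ δ n y (ir k))
      (((1 / (n : ℝ)) * Φ (n * ell (ir k) y)) • fderiv ℝ (chi δ k) y
        + chi δ k y • ((1 / (n : ℝ)) • (Sw δ (n * ell (ir k) y) • ((n : ℝ) • ell (ir k))))) y := by
    have e : (fun y => uf Ξ Φ δ n y (ir k)) =
        fun y => (1 / (n : ℝ)) * Φ ((n : ℝ) * ell (ir k) y) * chi δ k y := by
      funext y
      simp only [uf, hlt, if_false, kx_ir]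
    rw [e]
    have h1 : HasFDerivAt (fun y => Φ ((n : ℝ) * ell (ir k) y))
        (Sw δ (n * ell (ir k) y) • ((n : ℝ) • ell (ir k))) y :=
      (hΦd _).comp_hasFDerivAt y ((ell (ir k)).hasFDerivAt.const_mul (n : ℝ))
    exact (h1.const_mul (1 / (n : ℝ))).mul hchi
  have h1 := fderiv_comp_apply hu hD
  unfold Mf F0
  constructor
  · simp only [Matrix.add_apply, Matrix.of_apply, h1, hlt, if_false,
      _root_.smul_apply, _root_.add_apply, ell_single0, smul_eq_mul]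
    field_simp
    ring
  · simp only [Matrix.add_apply, Matrix.of_apply, h1, hlt, if_false,
      _root_.smul_apply, _root_.add_apply, ell_single1, smul_eq_mul]
    field_simp
    ring

end

end Pool.Agent.Lib.MP0febd9
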