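import Pool.Agent.Lib.MP_0febd9_an.Upper4

set_option autoImplicit false

namespace Pool.Agent.Lib.MP0febd9

noncomputable section

open Real MeasureTheory Filter Topology

/-- the energy density bound constant -/
def CC : ℝ := 1000 * (kK + kL + kQ + 1)

lemma CC_pos : 0 < CC := by
  unfold CC kK kL kQ; positivity

/-- pointwise energy bound -/
lemma pointwise {δ : ℝ} (hδ : 0 < δ) {p : ℝ} {Ξ Φ : ℝ → ℝ} {n : ℕ} (hn : 0 < n)
    (hΞ : ContDiff ℝ ((⊤ : ℕ∞) : WithTop ℕ∞) Ξ)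
    (hΦ : ContDiff ℝ ((⊤ : ℕ∞) : WithTop ℕ∞) Φ) (hΞd : ∀ t, HasDerivAt Ξ (Xw δ t - p) t)
    (hΦd : ∀ t, HasDerivAt Φ (Sw δ t) t) (y : Pt)
    (hsmall : ∀ (k : Fin 7) (r : Fin 2),
      |(1 / (n : ℝ)) * Φ (n * ell (ir k) y) * fderiv ℝ (chi δ k) y (Pi.single r 1)| ≤ 1) :
    min (Wq 1 (Mf p Ξ Φ δ n y)) (Wq (-1) (Mf p Ξ Φ δ n y)) ≤
      9 / 1000 + CC * ((∑ j, bump (1 / 2) δ (ell (ix j) y + bb (ix j)))
        + ∑ k, bump 0 δ (n * ell (ir k) y)) := by
  have hC := CC_pos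
  have hb1 : 0 ≤ ∑ j, bump (1 / 2) δ (ell (ix j) y + bb (ix j)) :=
    Finset.sum_nonneg fun j _ => bump_nonneg _ _ _
  have hb2 : 0 ≤ ∑ k, bump 0 δ (n * ell (ir k) y) :=
    Finset.sum_nonneg fun j _ => bump_nonneg _ _ _
  have hix := Mf_ix (n := n) hΞ hΦ hΞd y
  have hir := Mf_ir (p := p) (Ξ := Ξ) hn hΞ hΦ hΦd y
  have hpx : ∀ j, pp (ix j) (Mf p Ξ Φ δ n y) = Xw δ (ell (ix j) y + bb (ix j)) := by
    intro j
    rw [pp_of_entries (hix j).1 (hix j).2]
    simp
  have hqx : ∀ j, pq (ix j) (Mf p Ξ Φ δ n y) = 0 := by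
    intro j
    rw [pq_of_entries (hix j).1 (hix j).2]
    simp
  by_cases hgood : (∀ j, ¬ |Real.cos (2 * π * (ell (ix j) y + bb (ix j))) - 1 / 2| < δ) ∧
      (∀ k, ¬ |Real.cos (2 * π * (n * ell (ir k) y)) - 0| < δ)
  · obtain ⟨g1, g2⟩ := hgood
    have hX : ∀ j, Xw δ (ell (ix j) y + bb (ix j)) = 0 ∨ Xw δ (ell (ix j) y + bb (ix j)) = 1 :=
      fun j => Xw_mem hδ _ (g1 j)
    have hfd := fun k => chi_fderiv_zero hX k
    have hpr : ∀ k, pp (ir k) (Mf p Ξ Φ δ n y) = Sw δ (n * ell (ir k) y) *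
        ∏ j, wt (cc k j) (Xw δ (ell (ix j) y + bb (ix j))) := by
      intro k
      rw [pp_of_entries (hir k).1 (hir k).2, hfd k]
      simp [chi]
    have hqr : ∀ k, pq (ir k) (Mf p Ξ Φ δ n y) = 0 := by
      intro k
      rw [pq_of_entries (hir k).1 (hir k).2, hfd k]
      simp
    have hq : ∀ i, pq i (Mf p Ξ Φ δ n y) = 0 := by
      intro i
      rcases ix_or_ir i with ⟨j, rfl⟩ | ⟨k, rfl⟩
      · exact hqx j
      · exact hqr k
    have h3 : Xw δ (ell (ix 0) y + bb (ix 0)) = 0 ∨ Xw δ (ell (ix 1) y + bb (ix 1)) = 0 ∨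
        Xw δ (ell (ix 2) y + bb (ix 2)) = 0 := by
      have := three_waves hδ (ell (ix 0) y + bb (ix 0)) (ell (ix 1) y + bb (ix 1))
      have e : ell (ix 0) y + bb (ix 0) + (ell (ix 1) y + bb (ix 1)) + 1 / 2
          = ell (ix 2) y + bb (ix 2) := by
        rw [ell_apply, ell_apply, ell_apply]
        have a0 : bb (ix 0) = 0 := by simp [bb, ix]
        have a1 : bb (ix 1) = 0 := by simp [bb, ix]
        have a2 : bb (ix 2) = 1 / 2 := by simp [bb, ix]
        rw [a0, a1, a2]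
        have b0 : d1 (ix 0) = 1 := rfl
        have b1 : d1 (ix 1) = 1 := rfl
        have b2 : d1 (ix 2) = 2 := rfl
        have c0 : d2 (ix 0) = 0 := rfl
        have c1 : d2 (ix 1) = 1 := rfl
        have c2 : d2 (ix 2) = 1 := rfl
        rw [b0, b1, b2, c0, c1, c2]
        push_cast
        ring
      rw [e] at this
      exact this
    obtain ⟨σ, hσ, hW⟩ := Wq_good (x := fun j => Xw δ (ell (ix j) y + bb (ix j)))
      (S := fun k => Sw δ (n * ell (ir k) y)) hX h3 (fun k => Sw_mem hδ _ (g2 k)) hpx hpr hq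
    have hmin : min (Wq 1 (Mf p Ξ Φ δ n y)) (Wq (-1) (Mf p Ξ Φ δ n y)) ≤ 9 / 1000 := by
      rcases hσ with h | h
      · rw [h] at hW; exact le_trans (min_le_left _ _) hW
      · rw [h] at hW; exact le_trans (min_le_right _ _) hW
    have : 0 ≤ CC * ((∑ j, bump (1 / 2) δ (ell (ix j) y + bb (ix j)))
        + ∑ k, bump 0 δ (n * ell (ir k) y)) := mul_nonneg hC.le (add_nonneg hb1 hb2)
    linarith
  · have hsum : 1 ≤ (∑ j, bump (1 / 2) δ (ell (ix j) y + bb (ix j)))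
        + ∑ k, bump 0 δ (n * ell (ir k) y) := by
      rw [not_and_or] at hgood
      push Not at hgood
      rcases hgood with ⟨j, hj⟩ | ⟨k, hk⟩
      · have h1 := bump_ge_one hδ hj
        have h2 := Finset.single_le_sum
          (f := fun j => bump (1 / 2) δ (ell (ix j) y + bb (ix j)))
          (fun j _ => bump_nonneg _ _ _) (Finset.mem_univ j)
        linarith
      · have h1 := bump_ge_one hδ hk
        have h2 := Finset.single_le_sum (f := fun k => bump 0 δ (n * ell (ir k) y))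
          (fun j _ => bump_nonneg _ _ _) (Finset.mem_univ k)
        linarith
    have hp : ∀ i, |pp i (Mf p Ξ Φ δ n y)| ≤ 2 := by
      intro i
      rcases ix_or_ir i with ⟨j, rfl⟩ | ⟨k, rfl⟩
      · rw [hpx j, abs_of_nonneg (Xw_nonneg _ _)]
        linarith [Xw_le_one δ (ell (ix j) y + bb (ix j))]
      · rw [pp_of_entries (hir k).1 (hir k).2]
        have h1 := (entries_bound (i := ir k) (hsmall k 0) (hsmall k 1)).1
        have h2 : |Sw δ (n * ell (ir k) y) * chi δ k y| ≤ 1 := by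
          rw [abs_mul]
          have a1 := Sw_abs δ (n * ell (ir k) y)
          have a2 := chi_mem δ k y
          rw [abs_of_nonneg a2.1]
          exact mul_le_one₀ a1 a2.1 a2.2
        exact le_trans (abs_add_le _ _) (by linarith)
    have hq : ∀ i, |pq i (Mf p Ξ Φ δ n y)| ≤ 1 := by
      intro i
      rcases ix_or_ir i with ⟨j, rfl⟩ | ⟨k, rfl⟩
      · rw [hqx j]; norm_num
      · rw [pq_of_entries (hir k).1 (hir k).2]
        exact (entries_bound (i := ir k) (hsmall k 0) (hsmall k 1)).2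
    have hW := Wq_bad (M := Mf p Ξ Φ δ n y) (σ := 1) (by norm_num) hp hq
    have h1 : min (Wq 1 (Mf p Ξ Φ δ n y)) (Wq (-1) (Mf p Ξ Φ δ n y)) ≤ CC :=
      le_trans (min_le_left _ _) hW
    have h2 : CC * 1 ≤ CC * ((∑ j, bump (1 / 2) δ (ell (ix j) y + bb (ix j)))
        + ∑ k, bump 0 δ (n * ell (ir k) y)) := by gcongr
    linarith

lemma continuous_Wq (σ : ℝ) : Continuous (Wq σ) := by
  have h1 : ∀ i, Continuous (pp i) := by
    intro i; unfold pp; fun_prop
  have h2 : ∀ i, Continuous (pq i) := by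
    intro i; unfold pq; fun_prop
  have h3 : Continuous ss := by unfold ss; fun_prop
  have h4 : ∀ j, Continuous (yy j) := by intro j; unfold yy; fun_prop
  unfold Wq
  fun_prop

lemma continuous_grad {u : Pt → (Fin 10 → ℝ)} (hu : ContDiff ℝ ((⊤ : ℕ∞) : WithTop ℕ∞) u)
    (F : Mat) :
    Continuous (fun y => F + (Matrix.of (fun (i : Fin 2) (α : Fin 10) =>
      fderiv ℝ u y (Pi.single i (1 : ℝ)) α) : Mat)) := by
  have h1 : Continuous (fderiv ℝ u) := hu.continuous_fderiv (by simp)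
  apply continuous_const.add
  apply continuous_matrix
  intro i α
  have : Continuous (fun y => fderiv ℝ u y (Pi.single i (1 : ℝ))) := h1.clm_apply continuous_const
  exact (continuous_apply α).comp this

lemma d1_pos : ∀ i : Fin 10, 0 < d1 i := by decide

theorem upper_bound : ∃ p : ℝ, 1 / 4 ≤ p ∧ p ≤ 1 / 2 ∧ ∃ u : Pt → (Fin 10 → ℝ),
    ContDiff ℝ ((⊤ : ℕ∞) : WithTop ℕ∞) u ∧
    (∀ (x : Pt) (z : Fin 2 → ℤ), u (x + fun i => (z i : ℝ)) = u x) ∧
    ∫ x in Sq, min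
        (Wq 1 (F0 p + Matrix.of (fun (i : Fin 2) (α : Fin 10) =>
          fderiv ℝ u x (Pi.single i (1 : ℝ)) α)))
        (Wq (-1) (F0 p + Matrix.of (fun (i : Fin 2) (α : Fin 10) =>
          fderiv ℝ u x (Pi.single i (1 : ℝ)) α))) < 27 / 2000 := by
  have hC := CC_pos
  -- choose δ
  have hlim : Tendsto (fun N : ℕ => 3 * (∫ t in (0 : ℝ)..1, bump (1 / 2) (1 / ((N : ℝ) + 1)) t)
      + 7 * (∫ t in (0 : ℝ)..1, bump 0 (1 / ((N : ℝ) + 1)) t)) atTop (𝓝 0) := by
    have := ((bump_tendsto (1 / 2)).const_mul 3).add ((bump_tendsto 0).const_mul 7)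
    simpa using this
  have hpos : 0 < (4 / 1000) / CC := by positivity
  obtain ⟨N, hN, hN4⟩ := ((hlim.eventually (gt_mem_nhds hpos)).and (eventually_ge_atTop 4)).exists
  obtain ⟨δ, hδe⟩ : ∃ δ : ℝ, δ = 1 / ((N : ℝ) + 1) := ⟨_, rfl⟩
  rw [← hδe] at hN
  have hδ : 0 < δ := by rw [hδe]; positivity
  have hδ5 : δ ≤ 1 / 5 := by
    rw [hδe]
    have : (4 : ℝ) ≤ N := by exact_mod_cast hN4
    apply one_div_le_one_div_of_le (by norm_num)
    linarith
  obtain ⟨p, hp⟩ : ∃ p : ℝ, p = ∫ t in (0 : ℝ)..1, Xw δ t := ⟨_, rfl⟩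
  have hp1 : 1 / 4 ≤ p := by rw [hp]; exact Xw_mean_ge hδ hδ5
  have hp2 : p ≤ 1 / 2 := by rw [hp]; exact Xw_mean_le hδ
  -- primitives
  obtain ⟨Ξ, hΞ, hΞp, hΞd⟩ := exists_primitive (g := fun t => Xw δ t - p)
    ((Xw_contDiff δ).sub contDiff_const) (fun t => by simp only [(Xw_periodic δ) t])
    (by
      rw [intervalIntegral.integral_sub ((Xw_contDiff δ).continuous.intervalIntegrable _ _)
        (by simp), ← hp]
      simp)
  obtain ⟨Φ, hΦ, hΦp, hΦd⟩ := exists_primitive (Sw_contDiff δ) (Sw_periodic δ) (Sw_mean δ)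
  -- bounds
  obtain ⟨B, hB⟩ : ∃ B : ℝ, ∀ t, |Φ t| ≤ B := by
    have hb := hΦp.isBounded_of_continuous one_ne_zero hΦ.continuous
    obtain ⟨B, hB⟩ := hb.exists_norm_le
    exact ⟨B, fun t => by
      have := hB (Φ t) ⟨t, rfl⟩
      rwa [Real.norm_eq_abs] at this⟩
  obtain ⟨B', hB'⟩ : ∃ B' : ℝ, ∀ y ∈ Sq, ∀ k, ‖fderiv ℝ (chi δ k) y‖ ≤ B' := by
    have hcont : Continuous (fun y => ∑ k, ‖fderiv ℝ (chi δ k) y‖) := by
      apply continuous_finsetSum
      intro k _
      exact ((chi_contDiff δ k).continuous_fderiv (by simp)).norm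
    obtain ⟨B', hB'⟩ := isCompact_Sq.exists_bound_of_continuousOn hcont.continuousOn
    refine ⟨B', fun y hy k => ?_⟩
    have h1 := hB' y hy
    rw [Real.norm_eq_abs, abs_of_nonneg (Finset.sum_nonneg fun k _ => norm_nonneg _)] at h1
    exact le_trans (Finset.single_le_sum (f := fun k => ‖fderiv ℝ (chi δ k) y‖)
      (fun k _ => norm_nonneg _) (Finset.mem_univ k)) h1
  obtain ⟨m, hm⟩ := exists_nat_ge (B * B')
  obtain ⟨n, hn⟩ : ∃ n : ℕ, n = m + 1 := ⟨_, rfl⟩
  have hn0 : 0 < n := by omega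
  have hnB : B * B' ≤ n := by
    have : (m : ℝ) ≤ n := by rw [hn]; push_cast; linarith
    linarith
  have hn' : (0 : ℝ) < n := by exact_mod_cast hn0
  have hsmall : ∀ y ∈ Sq, ∀ (k : Fin 7) (r : Fin 2),
      |(1 / (n : ℝ)) * Φ (n * ell (ir k) y) * fderiv ℝ (chi δ k) y (Pi.single r 1)| ≤ 1 := by
    intro y hy k r
    have h1 : |fderiv ℝ (chi δ k) y (Pi.single r 1)| ≤ B' := by
      have := (fderiv ℝ (chi δ k) y).le_opNorm (Pi.single r (1 : ℝ))
      rw [Pi.norm_single, norm_one, mul_one, Real.norm_eq_abs] at this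
      exact le_trans this (hB' y hy k)
    have h2 := hB (n * ell (ir k) y)
    have hB0 : 0 ≤ B := le_trans (abs_nonneg _) h2
    rw [abs_mul, abs_mul, abs_of_pos (by positivity : (0 : ℝ) < 1 / n)]
    calc 1 / (n : ℝ) * |Φ (n * ell (ir k) y)| * |fderiv ℝ (chi δ k) y (Pi.single r 1)|
        ≤ 1 / (n : ℝ) * B * B' := by gcongr
      _ = (B * B') / n := by ring
      _ ≤ 1 := by rw [div_le_one hn']; exact hnB
  refine ⟨p, hp1, hp2, uf Ξ Φ δ n, uf_contDiff hΞ hΦ δ n, uf_periodic hΞp hΦp δ n, ?_⟩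
  -- the integral estimate
  have hcM := continuous_grad (uf_contDiff hΞ hΦ δ n) (F0 p)
  have hcW : Continuous (fun y => min (Wq 1 (Mf p Ξ Φ δ n y)) (Wq (-1) (Mf p Ξ Φ δ n y))) :=
    ((continuous_Wq 1).comp hcM).min ((continuous_Wq (-1)).comp hcM)
  have hc1 : ∀ j : Fin 3, Continuous (fun y : Pt => bump (1 / 2) δ (ell (ix j) y + bb (ix j))) :=
    fun j => (bump_continuous _ _).comp ((ell (ix j)).continuous.add continuous_const)
  have hc2 : ∀ k : Fin 7, Continuous (fun y : Pt => bump 0 δ (n * ell (ir k) y)) :=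
    fun k => (bump_continuous _ _).comp (continuous_const.mul (ell (ir k)).continuous)
  have hcR : Continuous (fun y : Pt => 9 / 1000 + CC * ((∑ j, bump (1 / 2) δ (ell (ix j) y + bb (ix j)))
        + ∑ k, bump 0 δ (n * ell (ir k) y))) := by
    apply continuous_const.add
    apply continuous_const.mul
    exact (continuous_finsetSum _ fun j _ => hc1 j).add (continuous_finsetSum _ fun k _ => hc2 k)
  have hmono : ∫ y in Sq, min (Wq 1 (Mf p Ξ Φ δ n y)) (Wq (-1) (Mf p Ξ Φ δ n y)) ≤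
      ∫ y in Sq, (9 / 1000 + CC * ((∑ j, bump (1 / 2) δ (ell (ix j) y + bb (ix j)))
        + ∑ k, bump 0 δ (n * ell (ir k) y))) := by
    apply setIntegral_mono_on (hcW.continuousOn.integrableOn_compact isCompact_Sq)
      (hcR.continuousOn.integrableOn_compact isCompact_Sq) measurableSet_Sq
    intro y hy
    exact pointwise hδ hn0 hΞ hΦ hΞd hΦd y (hsmall y hy)
  have hI1 : ∀ j : Fin 3, ∫ y in Sq, bump (1 / 2) δ (ell (ix j) y + bb (ix j))
      = ∫ t in (0 : ℝ)..1, bump (1 / 2) δ t := by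
    intro j
    rw [← integral_ridge (bump_continuous (1 / 2) δ) (bump_periodic _ _) (d1_pos (ix j))
      (d2 (ix j)) (bb (ix j))]
    simp only [ell_apply]
  have hI2 : ∀ k : Fin 7, ∫ y in Sq, bump 0 δ (n * ell (ir k) y)
      = ∫ t in (0 : ℝ)..1, bump 0 δ t := by
    intro k
    have hpos' : (0 : ℤ) < (n : ℤ) * d1 (ir k) := mul_pos (by exact_mod_cast hn0) (d1_pos _)
    rw [← integral_ridge (bump_continuous 0 δ) (bump_periodic _ _) hpos'
      ((n : ℝ) * d2 (ir k)) 0]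
    simp only [ell_apply]
    push_cast
    apply setIntegral_congr_fun measurableSet_Sq
    intro y _
    simp only
    congr 1
    ring
  have hRHS : ∫ y in Sq, (9 / 1000 + CC * ((∑ j, bump (1 / 2) δ (ell (ix j) y + bb (ix j)))
        + ∑ k, bump 0 δ (n * ell (ir k) y))) = 9 / 1000 +
      CC * (3 * (∫ t in (0 : ℝ)..1, bump (1 / 2) δ t) + 7 * (∫ t in (0 : ℝ)..1, bump 0 δ t)) := by
    have hi1 : ∀ j : Fin 3, IntegrableOn (fun y : Pt => bump (1 / 2) δ (ell (ix j) y + bb (ix j))) Sq :=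
      fun j => (hc1 j).continuousOn.integrableOn_compact isCompact_Sq
    have hi2 : ∀ k : Fin 7, IntegrableOn (fun y : Pt => bump 0 δ (n * ell (ir k) y)) Sq :=
      fun k => (hc2 k).continuousOn.integrableOn_compact isCompact_Sq
    have hs1 : IntegrableOn (fun y : Pt => ∑ j, bump (1 / 2) δ (ell (ix j) y + bb (ix j))) Sq :=
      (continuous_finsetSum _ fun j _ => hc1 j).continuousOn.integrableOn_compact isCompact_Sq
    have hs2 : IntegrableOn (fun y : Pt => ∑ k, bump 0 δ (n * ell (ir k) y)) Sq :=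
      (continuous_finsetSum _ fun k _ => hc2 k).continuousOn.integrableOn_compact isCompact_Sq
    have hconst : IntegrableOn (fun _ : Pt => (9 / 1000 : ℝ)) Sq :=
      continuous_const.continuousOn.integrableOn_compact isCompact_Sq
    have hs12 : IntegrableOn (fun y : Pt => CC * ((∑ j, bump (1 / 2) δ (ell (ix j) y + bb (ix j)))
        + ∑ k, bump 0 δ (n * ell (ir k) y))) Sq := (hs1.add hs2).const_mul CC
    rw [integral_add hconst hs12, integral_const_mul,
      integral_add hs1 hs2, integral_finsetSum _ (fun j _ => hi1 j),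
      integral_finsetSum _ (fun k _ => hi2 k)]
    simp only [hI1, hI2, setIntegral_const, Measure.real, volume_Sq]
    simp
  have hfin : CC * (3 * (∫ t in (0 : ℝ)..1, bump (1 / 2) δ t)
      + 7 * (∫ t in (0 : ℝ)..1, bump 0 δ t)) < 4 / 1000 := by
    rw [lt_div_iff₀ hC] at hN
    linarith
  calc ∫ y in Sq, min (Wq 1 (Mf p Ξ Φ δ n y)) (Wq (-1) (Mf p Ξ Φ δ n y))
      ≤ _ := hmono
    _ = _ := hRHS
    _ < 27 / 2000 := by linarith

end

end Pool.Agent.Lib.MP0febd9
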